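import Pool.Agent.Helper3.Anderson.L1

/-!
# A chain of windows: upper bound for the Lyapunov norm from a local lower bound
-/

open scoped ENNReal NNReal
open MeasureTheory Set Real Filter Topology

noncomputable section

namespace Pool.Agent.Helper3.Weak

open Pool.Agent.Helper3.Anderson

variable {d : ℕ}

/-- the `i`-th window -/
def win (j : Fin d) (s ρ : ℤ) (i : ℕ) : Finset (Site d) :=
  Fintype.piFinset fun l => Finset.Icc ((if l = j then (i : ℤ) * s else 0) - ρ)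
    ((if l = j then (i : ℤ) * s else 0) + ρ)

lemma mem_win {j : Fin d} {s ρ : ℤ} {i : ℕ} {y : Site d} :
    y ∈ win j s ρ i ↔ ∀ l, (if l = j then (i : ℤ) * s else 0) - ρ ≤ y l ∧
      y l ≤ (if l = j then (i : ℤ) * s else 0) + ρ := by
  unfold win
  rw [Fintype.mem_piFinset]
  simp only [Finset.mem_Icc]

lemma win_card (j : Fin d) (s : ℤ) {ρ : ℤ} (hρ : 0 ≤ ρ) (i : ℕ) :
    ((win j s ρ i).card : ℝ) = (2 * (ρ : ℝ) + 1) ^ d := by
  unfold win
  rw [Fintype.card_piFinset]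
  have h : ∀ l : Fin d, (Finset.Icc ((if l = j then (i : ℤ) * s else 0) - ρ)
      ((if l = j then (i : ℤ) * s else 0) + ρ)).card = (2 * ρ + 1).toNat := by
    intro l
    rw [Int.card_Icc]
    congr 1
    ring
  rw [Finset.prod_congr rfl fun l _ => h l, Finset.prod_const, Finset.card_univ, Fintype.card_fin]
  push_cast
  congr 1
  have h2 : (((2 * ρ + 1).toNat : ℤ) : ℝ) = ((2 * ρ + 1 : ℤ) : ℝ) := by
    rw [Int.toNat_of_nonneg (by omega)]
  have h3 : (((2 * ρ + 1).toNat : ℕ) : ℝ) = (((2 * ρ + 1).toNat : ℤ) : ℝ) := by norm_cast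
  rw [h3, h2]
  push_cast
  ring

lemma centre_mem (j : Fin d) (s : ℤ) {ρ : ℤ} (hρ : 0 ≤ ρ) (i : ℕ) :
    (Pi.single j ((i : ℤ) * s) : Site d) ∈ win j s ρ i := by
  rw [mem_win]
  intro l
  by_cases h : l = j
  · subst h; simp [hρ]
  · rw [Pi.single_eq_of_ne h, if_neg h]; omega

lemma win_ne (j : Fin d) (s : ℤ) {ρ : ℤ} (hρ : 0 ≤ ρ) (i : ℕ) : (win j s ρ i).Nonempty :=
  ⟨_, centre_mem j s hρ i⟩

lemma steer {j : Fin d} {s ρ : ℤ} (hs : 0 ≤ s) {i : ℕ} {y : Site d}
    (hy : y ∈ win j s ρ i) :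
    y ∈ win j s ρ (i + 1) ∨ ∃ σ : Fin d → ℤˣ, σ j = 1 ∧ ∀ x : Site d, (∀ l, |x l| ≤ ρ) →
      s ≤ x j → (∀ l, 0 ≤ (σ l : ℤ) * x l) → y + x ∈ win j s ρ (i + 1) := by
  rw [mem_win] at hy
  by_cases h : ((i + 1 : ℕ) : ℤ) * s - ρ ≤ y j
  · left
    rw [mem_win]
    intro l
    by_cases hl : l = j
    · subst hl
      rw [if_pos rfl]
      refine ⟨h, ?_⟩
      have := (hy l).2
      rw [if_pos rfl] at this
      push_cast
      nlinarith
    · rw [if_neg hl]
      have := hy l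
      rw [if_neg hl] at this
      exact this
  · right
    push Not at h
    refine ⟨fun l => if l = j then 1 else if 0 ≤ y l then -1 else 1, if_pos rfl, ?_⟩
    intro x hx hxs hσ
    rw [mem_win]
    intro l
    have hxl := abs_le.1 (hx l)
    have hyl := hy l
    have hσl := hσ l
    by_cases hl : l = j
    · subst hl
      simp only [if_true] at hyl ⊢
      rw [Pi.add_apply]
      push_cast at h ⊢
      constructor <;> nlinarith
    · simp only [if_neg hl] at hyl hσl ⊢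
      rw [Pi.add_apply]
      by_cases hyn : 0 ≤ y l
      · simp only [if_pos hyn, Units.val_neg, Units.val_one] at hσl
        constructor <;> omega
      · simp only [if_neg hyn, Units.val_one] at hσl
        constructor <;> omega

lemma shift_mem {j : Fin d} {s ρ : ℤ} {i : ℕ} {y : Site d} (hy : y ∈ win j s ρ i) :
    y + Pi.single j s ∈ win j s ρ (i + 1) := by
  rw [mem_win] at hy ⊢
  intro l
  have hyl := hy l
  rw [Pi.add_apply]
  by_cases hl : l = j
  · subst hl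
    simp only [if_true, Pi.single_eq_same] at hyl ⊢
    push_cast
    constructor <;> nlinarith
  · simp only [if_neg hl, Pi.single_eq_of_ne hl] at hyl ⊢
    constructor <;> omega

section

variable (M lam : ℝ) (z : ℂ)

/-- logarithmic cost -/
def pl (ω : Site d → ℝ) (x y : Site d) : ℝ := posLog ‖gc M lam z ω x y‖⁻¹

lemma pl_nonneg (ω : Site d → ℝ) (x y : Site d) : 0 ≤ pl M lam z ω x y := posLog_nonneg

/-- sum of the ratios over a pair of windows -/
def ths (A B : Finset (Site d)) (ω : Site d → ℝ) : ℝ :=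
  ∑ y ∈ A, ∑ y' ∈ B, (rr M lam z y' y 0 ω) ^ (1 / 4 : ℝ)

lemma ths_nonneg (A B : Finset (Site d)) (ω : Site d → ℝ) : 0 ≤ ths M lam z A B ω :=
  Finset.sum_nonneg fun _ _ => Finset.sum_nonneg fun _ _ => rpow_nonneg (rr_nonneg _ _ _ _) _

lemma posLog_rr_le (A B : Finset (Site d)) (ω : Site d → ℝ) {y y' : Site d} (hy : y ∈ A)
    (hy' : y' ∈ B) :
    posLog (rr M lam z y' y 0 ω) ≤ 4 * Real.log (1 + ths M lam z A B ω) := by
  set r := rr M lam z y' y 0 ω with hr
  have hr0 : 0 ≤ r := rr_nonneg _ _ _ _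
  have h1 : r ^ (1 / 4 : ℝ) ≤ ths M lam z A B ω := by
    have e1 : r ^ (1 / 4 : ℝ) ≤ ∑ y' ∈ B, (rr M lam z y' y 0 ω) ^ (1 / 4 : ℝ) :=
      Finset.single_le_sum (f := fun y' => (rr M lam z y' y 0 ω) ^ (1 / 4 : ℝ))
        (fun _ _ => rpow_nonneg (rr_nonneg _ _ _ _) _) hy'
    have e2 : ∑ y' ∈ B, (rr M lam z y' y 0 ω) ^ (1 / 4 : ℝ) ≤ ths M lam z A B ω :=
      Finset.single_le_sum (f := fun y => ∑ y' ∈ B, (rr M lam z y' y 0 ω) ^ (1 / 4 : ℝ))
        (fun _ _ => Finset.sum_nonneg fun _ _ => rpow_nonneg (rr_nonneg _ _ _ _) _) hy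
    exact e1.trans e2
  have h2 := ths_nonneg M lam z A B ω
  rcases le_or_gt r 1 with h | h
  · rw [(posLog_eq_zero_iff r).2 (by rw [abs_of_nonneg hr0]; exact h)]
    have : 0 ≤ Real.log (1 + ths M lam z A B ω) := Real.log_nonneg (by linarith)
    linarith
  · rw [posLog_eq_log (by rw [abs_of_nonneg hr0]; exact h.le)]
    have h3 : Real.log (r ^ (1 / 4 : ℝ)) ≤ Real.log (1 + ths M lam z A B ω) := by
      apply Real.log_le_log (rpow_pos_of_pos (by linarith) _)
      linarith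
    rw [Real.log_rpow (by linarith)] at h3
    linarith

end

section

variable {μ : Measure ℝ} [IsProbabilityMeasure μ] {M lam : ℝ} {K : ℝ≥0} {z : ℂ}

lemma measurable_pl (hM : 0 ≤ M) (hz0 : 0 < z.im) (x y : Site d) :
    Measurable fun ω : Site d → ℝ => pl M lam z ω x y := measurable_posLog_inv hM hz0 x y

lemma integrable_pl (hμ : GoodLaw μ M K) (hlam : 0 < lam) (hz0 : 0 < z.im) (x y : Site d) :
    Integrable (fun ω : Site d → ℝ => pl M lam z ω x y) (PP d μ) :=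
  (good_all hμ hlam hz0 x y).2.integrable (by norm_num)

lemma integrable_pl_sq (hμ : GoodLaw μ M K) (hlam : 0 < lam) (hz0 : 0 < z.im) (x y : Site d) :
    Integrable (fun ω : Site d → ℝ => pl M lam z ω x y ^ 2) (PP d μ) :=
  (good_all hμ hlam hz0 x y).2.integrable_sq

lemma pl_tr (hM : 0 ≤ M) (hz0 : 0 < z.im) (v : Site d) (ω : Site d → ℝ) (x y : Site d) :
    pl M lam z (tr v ω) x y = pl M lam z ω (x + v) (y + v) := by
  unfold pl
  rw [gc_tr hM hz0]

lemma integral_tr_pl (hM : 0 ≤ M) (hz0 : 0 < z.im) (f : ℝ → ℝ) (hf : Measurable f)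
    (v x y : Site d) :
    ∫ ω, f (pl M lam z ω (x + v) (y + v)) ∂(PP d μ) = ∫ ω, f (pl M lam z ω x y) ∂(PP d μ) := by
  have h := Pool.Agent.Helper3.Anderson.integral_tr (μ := μ)
    (f := fun ω => f (pl M lam z ω x y)) (hf.comp (measurable_pl hM hz0 x y)).aestronglyMeasurable v
  rw [← h]
  refine integral_congr_ae (Eventually.of_forall fun ω => ?_)
  simp only
  rw [pl_tr hM hz0]

lemma integrable_rr_rpow (hμ : GoodLaw μ M K) (hlam : 0 < lam) (hz0 : 0 < z.im) (x u y : Site d) :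
    Integrable (fun ω => (rr M lam z x u y ω) ^ (1 / 4 : ℝ)) (PP d μ) := by
  have hM : 0 ≤ M := by linarith [hμ.one_le]
  refine ⟨((measurable_rr hM hz0 x u y).pow_const _).aestronglyMeasurable, ?_⟩
  rw [hasFiniteIntegral_iff_ofReal
    (Eventually.of_forall fun ω => rpow_nonneg (rr_nonneg x u y ω) _)]
  exact lt_of_le_of_lt (lintegral_rr hμ hlam hz0 x u y) (lt_top_iff_ne_top.2 (C2_ne_top M K))

lemma integral_rr_rpow (hμ : GoodLaw μ M K) (hlam : 0 < lam) (hz0 : 0 < z.im) (x u y : Site d) :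
    ∫ ω, (rr M lam z x u y ω) ^ (1 / 4 : ℝ) ∂(PP d μ) ≤ (C2 M lam K).toReal := by
  have hM : 0 ≤ M := by linarith [hμ.one_le]
  rw [integral_eq_lintegral_of_nonneg_ae
    (Eventually.of_forall fun ω => rpow_nonneg (rr_nonneg x u y ω) _)
    ((measurable_rr hM hz0 x u y).pow_const _).aestronglyMeasurable]
  exact ENNReal.toReal_mono (C2_ne_top M K) (lintegral_rr hμ hlam hz0 x u y)

/-- expectation of the logarithmic correction -/
lemma integral_ths (hμ : GoodLaw μ M K) (hlam : 0 < lam) (hz0 : 0 < z.im) (A B : Finset (Site d)) :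
    Integrable (fun ω => 4 * Real.log (1 + ths M lam z A B ω)) (PP d μ) ∧
    ∫ ω, 4 * Real.log (1 + ths M lam z A B ω) ∂(PP d μ) ≤
      4 * Real.log (1 + A.card * B.card * (C2 M lam K).toReal) := by
  have hM : 0 ≤ M := by linarith [hμ.one_le]
  set C := (C2 M lam K).toReal with hC
  have hC0 : 0 ≤ C := ENNReal.toReal_nonneg
  set m : ℝ := A.card * B.card * C with hm
  have hm0 : 0 ≤ m := by positivity
  have hint : Integrable (fun ω => ths M lam z A B ω) (PP d μ) :=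
    integrable_finsetSum _ fun y _ => integrable_finsetSum _ fun y' _ =>
      integrable_rr_rpow hμ hlam hz0 _ _ _
  have hmean : ∫ ω, ths M lam z A B ω ∂(PP d μ) ≤ m := by
    unfold ths
    rw [integral_finsetSum _ fun y _ => integrable_finsetSum _ fun y' _ =>
      integrable_rr_rpow hμ hlam hz0 _ _ _]
    calc ∑ y ∈ A, ∫ ω, ∑ y' ∈ B, (rr M lam z y' y 0 ω) ^ (1 / 4 : ℝ) ∂(PP d μ)
        ≤ ∑ _y ∈ A, B.card * C := by
          refine Finset.sum_le_sum fun y _ => ?_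
          rw [integral_finsetSum _ fun y' _ => integrable_rr_rpow hμ hlam hz0 _ _ _]
          refine (Finset.sum_le_sum fun y' _ => integral_rr_rpow hμ hlam hz0 y' y 0).trans ?_
          rw [Finset.sum_const, nsmul_eq_mul]
      _ = m := by rw [Finset.sum_const, nsmul_eq_mul, hm]; ring
  have hpt : ∀ ω, 4 * Real.log (1 + ths M lam z A B ω) ≤
      4 * (Real.log (1 + m) + (ths M lam z A B ω - m) / (1 + m)) := by
    intro ω
    have h0 := ths_nonneg M lam z A B ω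
    have h1 : Real.log ((1 + ths M lam z A B ω) / (1 + m)) ≤
        (1 + ths M lam z A B ω) / (1 + m) - 1 := Real.log_le_sub_one_of_pos (by positivity)
    rw [Real.log_div (by positivity) (by positivity)] at h1
    have h2 : (1 + ths M lam z A B ω) / (1 + m) - 1 = (ths M lam z A B ω - m) / (1 + m) := by
      field_simp; ring
    rw [h2] at h1
    linarith
  have hI : Integrable (fun ω => 4 * (Real.log (1 + m) + (ths M lam z A B ω - m) / (1 + m)))
      (PP d μ) :=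
    (((integrable_const _).add ((hint.sub (integrable_const _)).div_const _)).const_mul 4)
  have hmeas : Measurable fun ω => 4 * Real.log (1 + ths M lam z A B ω) := by
    unfold ths
    refine (Real.measurable_log.comp (measurable_const.add ?_)).const_mul 4
    refine Finset.measurable_sum _ fun y _ => Finset.measurable_sum _ fun y' _ => ?_
    exact (measurable_rr hM hz0 _ _ _).pow_const _
  have hI2 : Integrable (fun ω => 4 * Real.log (1 + ths M lam z A B ω)) (PP d μ) := by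
    refine Integrable.mono' hI hmeas.aestronglyMeasurable (Eventually.of_forall fun ω => ?_)
    rw [Real.norm_eq_abs, abs_of_nonneg]
    · exact hpt ω
    · have := ths_nonneg M lam z A B ω
      have : 0 ≤ Real.log (1 + ths M lam z A B ω) := Real.log_nonneg (by linarith)
      positivity
  refine ⟨hI2, ?_⟩
  refine (integral_mono hI2 hI hpt).trans ?_
  have hsub : Integrable (fun ω => (ths M lam z A B ω - m) / (1 + m)) (PP d μ) :=
    (hint.sub (integrable_const m)).div_const _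
  rw [integral_const_mul, integral_add (integrable_const _) hsub, integral_div,
    integral_sub hint (integrable_const _)]
  simp only [integral_const, probReal_univ, one_smul]
  have : (∫ ω, ths M lam z A B ω ∂(PP d μ) - m) / (1 + m) ≤ 0 :=
    div_nonpos_of_nonpos_of_nonneg (by linarith) (by positivity)
  linarith

/-- the smallest cost of a window -/
def UU (M lam : ℝ) (z : ℂ) (j : Fin d) (s ρ : ℤ) (hρ : 0 ≤ ρ) (i : ℕ) (ω : Site d → ℝ) : ℝ :=
  (win j s ρ i).inf' (win_ne j s hρ i) fun y => pl M lam z ω y 0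

lemma measurable_UU (hM : 0 ≤ M) (hz0 : 0 < z.im) (j : Fin d) (s ρ : ℤ) (hρ : 0 ≤ ρ) (i : ℕ) :
    Measurable (UU M lam z j s ρ hρ i) := by
  have : UU M lam z j s ρ hρ i = (win j s ρ i).inf' (win_ne j s hρ i)
      fun y => fun ω : Site d → ℝ => pl M lam z ω y 0 := by
    funext ω
    rw [Finset.inf'_apply]
    rfl
  rw [this]
  exact Finset.inf'_induction _ _ (fun _f hf _g hg => hf.inf hg)
    fun y _ => measurable_pl hM hz0 y 0

lemma UU_nonneg (j : Fin d) (s ρ : ℤ) (hρ : 0 ≤ ρ) (i : ℕ) (ω : Site d → ℝ) :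
    0 ≤ UU M lam z j s ρ hρ i ω := by
  unfold UU
  rw [Finset.le_inf'_iff]
  exact fun y _ => pl_nonneg _ _ _ _ _ _

lemma UU_le (j : Fin d) (s ρ : ℤ) (hρ : 0 ≤ ρ) (i : ℕ) (ω : Site d → ℝ) {y : Site d}
    (hy : y ∈ win j s ρ i) : UU M lam z j s ρ hρ i ω ≤ pl M lam z ω y 0 :=
  Finset.inf'_le _ hy

lemma integrable_UU (hμ : GoodLaw μ M K) (hlam : 0 < lam) (hz0 : 0 < z.im) (j : Fin d) (s ρ : ℤ)
    (hρ : 0 ≤ ρ) (i : ℕ) : Integrable (UU M lam z j s ρ hρ i) (PP d μ) := by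
  have hM : 0 ≤ M := by linarith [hμ.one_le]
  refine Integrable.mono' (integrable_pl hμ hlam hz0 (Pi.single j ((i : ℤ) * s)) 0)
    (measurable_UU hM hz0 j s ρ hρ i).aestronglyMeasurable (Eventually.of_forall fun ω => ?_)
  rw [Real.norm_eq_abs, abs_of_nonneg (UU_nonneg j s ρ hρ i ω)]
  exact UU_le j s ρ hρ i ω (centre_mem j s hρ i)

/-- all Green functions are almost surely nonzero -/
lemma ae_all_ne (hμ : GoodLaw μ M K) (hlam : 0 < lam) (hz0 : 0 < z.im) :
    ∀ᵐ ω ∂(PP d μ), ∀ x y : Site d, gc M lam z ω x y ≠ 0 := by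
  rw [ae_all_iff]
  intro x
  rw [ae_all_iff]
  intro y
  exact (good_all hμ hlam hz0 x y).1

lemma pl_le (ω : Site d → ℝ) (h : ∀ x y : Site d, gc M lam z ω x y ≠ 0) (x u y : Site d) :
    pl M lam z ω x y ≤ pl M lam z ω x u + pl M lam z ω u y + posLog (rr M lam z x u y ω) :=
  posLog_inv_le (h x u) (h u y)

/-- cost of a jump on the bad event -/
def SB (M lam : ℝ) (z : ℂ) (j : Fin d) (s : ℤ) (B : Site d → Set (Site d → ℝ)) (y : Site d) :
    (Site d → ℝ) → ℝ :=
  (B y).indicator (fun ω => pl M lam z ω (y + Pi.single j s) y)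

/-- the ratio correction of a step -/
def TT (M lam : ℝ) (z : ℂ) (j : Fin d) (s ρ : ℤ) (i : ℕ) (ω : Site d → ℝ) : ℝ :=
  4 * Real.log (1 + ths M lam z (win j s ρ i) (win j s ρ (i + 1)) ω)

/-- one step of the chain -/
lemma chain_step (hμ : GoodLaw μ M K) (hlam : 0 < lam) (hz0 : 0 < z.im) (j : Fin d) (s ρ : ℤ)
    (hs : 0 ≤ s) (hρ : 0 ≤ ρ) (Λ : ℝ) (hΛ : 0 ≤ Λ) (B : Site d → Set (Site d → ℝ))
    (hgood : ∀ y, ∀ᵐ ω ∂(PP d μ), ω ∉ B y → ∀ σ : Fin d → ℤˣ, σ j = 1 → ∃ x : Site d,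
      (∀ l, |x l| ≤ ρ) ∧ s ≤ x j ∧ (∀ l, 0 ≤ (σ l : ℤ) * x l) ∧ pl M lam z ω (y + x) y ≤ Λ)
    (i : ℕ) :
    ∀ᵐ ω ∂(PP d μ), UU M lam z j s ρ hρ (i + 1) ω ≤ UU M lam z j s ρ hρ i ω + Λ +
      ∑ y ∈ win j s ρ i, SB M lam z j s B y ω + TT M lam z j s ρ i ω := by
  have hgood' : ∀ᵐ ω ∂(PP d μ), ∀ y, ω ∉ B y → ∀ σ : Fin d → ℤˣ, σ j = 1 → ∃ x : Site d,
      (∀ l, |x l| ≤ ρ) ∧ s ≤ x j ∧ (∀ l, 0 ≤ (σ l : ℤ) * x l) ∧ pl M lam z ω (y + x) y ≤ Λ := by
    rw [ae_all_iff]; exact hgood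
  filter_upwards [hgood', ae_all_ne hμ hlam hz0] with ω hω hne
  obtain ⟨y, hy, hyU⟩ := Finset.exists_mem_eq_inf' (win_ne j s hρ i) fun y => pl M lam z ω y 0
  have hyU' : UU M lam z j s ρ hρ i ω = pl M lam z ω y 0 := hyU
  have hT0 := ths_nonneg M lam z (win j s ρ i) (win j s ρ (i + 1)) ω
  have hT1 : 0 ≤ Real.log (1 + ths M lam z (win j s ρ i) (win j s ρ (i + 1)) ω) :=
    Real.log_nonneg (by linarith)
  have hS0 : ∀ y' ∈ win j s ρ i, 0 ≤ SB M lam z j s B y' ω := fun y' _ =>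
    Set.indicator_nonneg (fun ω _ => pl_nonneg _ _ _ _ _ _) ω
  have hTT : TT M lam z j s ρ i ω =
    4 * Real.log (1 + ths M lam z (win j s ρ i) (win j s ρ (i + 1)) ω) := rfl
  have hS1 := Finset.sum_nonneg hS0
  rw [hyU']
  rcases steer hs hy with hmem | ⟨σ, hσj, hσ⟩
  · have := UU_le (M := M) (lam := lam) (z := z) j s ρ hρ (i + 1) ω hmem
    linarith
  · by_cases hB : ω ∈ B y
    · have hmem := shift_mem hy
      have h1 := UU_le (M := M) (lam := lam) (z := z) j s ρ hρ (i + 1) ω hmem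
      have h2 := pl_le ω hne (y + Pi.single j s) y 0
      have h3 := posLog_rr_le M lam z (win j s ρ i) (win j s ρ (i + 1)) ω hy hmem
      have h4 := Finset.single_le_sum hS0 hy
      rw [SB, Set.indicator_of_mem hB] at h4
      linarith
    · obtain ⟨x, hx1, hx2, hx3, hx4⟩ := hω y hB σ hσj
      have hmem := hσ x hx1 hx2 hx3
      have h1 := UU_le (M := M) (lam := lam) (z := z) j s ρ hρ (i + 1) ω hmem
      have h2 := pl_le ω hne (y + x) y 0
      have h3 := posLog_rr_le M lam z (win j s ρ i) (win j s ρ (i + 1)) ω hy hmem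
      linarith

/-- the cost per window -/
def Dcost (M lam : ℝ) (K : ℝ≥0) (N Λ p θ Q2 : ℝ) : ℝ :=
  Λ + N * (1 / 2 * (p / θ + θ * Q2)) + 4 * Real.log (1 + N * N * (C2 M lam K).toReal)

lemma ind_pt {θ t : ℝ} (hθ : 0 < θ) : t ≤ 1 / 2 * (1 / θ + θ * t ^ 2) := by
  have h1 : 0 ≤ (1 - θ * t) ^ 2 / θ := by positivity
  have h2 : (1 - θ * t) ^ 2 / θ = 1 / θ + θ * t ^ 2 - 2 * t := by
    field_simp
    ring
  linarith

lemma integral_ind (P : Measure (Site d → ℝ)) [IsProbabilityMeasure P]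
    (B : Set (Site d → ℝ)) (hB : MeasurableSet B) (p θ Q2 : ℝ) (hθ : 0 < θ)
    (hBp : P.real B ≤ p) (f : (Site d → ℝ) → ℝ) (hf : Integrable f P)
    (hf2 : Integrable (fun ω => f ω ^ 2) P) (hQ2 : ∫ ω, f ω ^ 2 ∂P ≤ Q2) :
    ∫ ω, B.indicator f ω ∂P ≤ 1 / 2 * (p / θ + θ * Q2) := by
  have hb : ∀ ω, B.indicator f ω ≤
      1 / 2 * (B.indicator (fun _ => (1 : ℝ)) ω / θ + θ * f ω ^ 2) := by
    intro ω
    by_cases hω : ω ∈ B
    · rw [Set.indicator_of_mem hω, Set.indicator_of_mem hω]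
      exact ind_pt hθ
    · rw [Set.indicator_of_notMem hω, Set.indicator_of_notMem hω]
      positivity
  have hind : Integrable (fun ω => B.indicator (fun _ => (1 : ℝ)) ω) P :=
    (integrable_const 1).indicator hB
  have i1 : Integrable (fun ω => B.indicator (fun _ => (1 : ℝ)) ω / θ) P := hind.div_const θ
  have i2 : Integrable (fun ω => θ * f ω ^ 2) P := hf2.const_mul θ
  have hint2 : Integrable (fun ω => 1 / 2 * (B.indicator (fun _ => (1 : ℝ)) ω / θ +
        θ * f ω ^ 2)) P := (i1.add i2).const_mul (1 / 2)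
  refine (integral_mono (hf.indicator hB) hint2 hb).trans ?_
  rw [integral_const_mul, integral_add i1 i2, integral_div, integral_const_mul]
  have h4 : ∫ ω, B.indicator (fun _ => (1 : ℝ)) ω ∂P = P.real B := by
    rw [integral_indicator hB]; simp
  rw [h4]
  gcongr

lemma integral_mono_sum (P : Measure (Site d → ℝ)) [IsProbabilityMeasure P]
    (U' U T : (Site d → ℝ) → ℝ) (Λ c t : ℝ) (A : Finset (Site d))
    (S : Site d → (Site d → ℝ) → ℝ) (hU' : Integrable U' P) (hU : Integrable U P)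
    (hT : Integrable T P) (hS : ∀ y ∈ A, Integrable (S y) P)
    (h : ∀ᵐ ω ∂P, U' ω ≤ U ω + Λ + ∑ y ∈ A, S y ω + T ω)
    (hc : ∀ y ∈ A, ∫ ω, S y ω ∂P ≤ c) (ht : ∫ ω, T ω ∂P ≤ t) :
    ∫ ω, U' ω ∂P ≤ ∫ ω, U ω ∂P + (Λ + A.card * c + t) := by
  have hSs : Integrable (fun ω => ∑ y ∈ A, S y ω) P := integrable_finsetSum _ hS
  have e1 : Integrable (fun ω => U ω + Λ) P := hU.add (integrable_const Λ)
  have e2 : Integrable (fun ω => U ω + Λ + ∑ y ∈ A, S y ω) P := e1.add hSs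
  have e3 : Integrable (fun ω => U ω + Λ + ∑ y ∈ A, S y ω + T ω) P := e2.add hT
  have h1 := integral_mono_ae hU' e3 h
  rw [integral_add e2 hT, integral_add e1 hSs, integral_add hU (integrable_const Λ),
    integral_finsetSum _ hS] at h1
  have h2 := Finset.sum_le_sum hc
  rw [Finset.sum_const, nsmul_eq_mul] at h2
  have h3 : ∫ _ω : Site d → ℝ, Λ ∂P = Λ := by simp
  rw [h3] at h1
  linarith

lemma chain_int (hμ : GoodLaw μ M K) (hlam : 0 < lam) (hz0 : 0 < z.im) (j : Fin d) (s ρ : ℤ)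
    (hs : 0 ≤ s) (hρ : 0 ≤ ρ) (Λ p θ Q2 : ℝ) (hΛ : 0 ≤ Λ) (hθ : 0 < θ)
    (B : Site d → Set (Site d → ℝ)) (hBm : ∀ y, MeasurableSet (B y))
    (hBp : ∀ y, (PP d μ).real (B y) ≤ p)
    (hgood : ∀ y, ∀ᵐ ω ∂(PP d μ), ω ∉ B y → ∀ σ : Fin d → ℤˣ, σ j = 1 → ∃ x : Site d,
      (∀ l, |x l| ≤ ρ) ∧ s ≤ x j ∧ (∀ l, 0 ≤ (σ l : ℤ) * x l) ∧ pl M lam z ω (y + x) y ≤ Λ)
    (hQ2 : ∫ ω, pl M lam z ω (Pi.single j s) 0 ^ 2 ∂(PP d μ) ≤ Q2) (i : ℕ) :
    ∫ ω, UU M lam z j s ρ hρ (i + 1) ω ∂(PP d μ) ≤ ∫ ω, UU M lam z j s ρ hρ i ω ∂(PP d μ) +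
      Dcost M lam K ((2 * (ρ : ℝ) + 1) ^ d) Λ p θ Q2 := by
  have hM : 0 ≤ M := by linarith [hμ.one_le]
  have h1 := chain_step hμ hlam hz0 j s ρ hs hρ Λ hΛ B hgood i
  obtain ⟨hI, hI2⟩ := integral_ths hμ hlam hz0 (win j s ρ i) (win j s ρ (i + 1))
  rw [win_card j s hρ, win_card j s hρ] at hI2
  have hone : ∀ y ∈ win j s ρ i, ∫ ω, SB M lam z j s B y ω ∂(PP d μ) ≤
      1 / 2 * (p / θ + θ * Q2) := by
    intro y _
    have hsq := integral_tr_pl (μ := μ) (lam := lam) hM hz0 (fun t => t ^ 2) (by fun_prop) y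
        (Pi.single j s) 0
    rw [zero_add, add_comm _ y] at hsq
    rw [← hsq] at hQ2
    unfold SB
    generalize y + Pi.single j s = w at hQ2 ⊢
    exact integral_ind (PP d μ) (B y) (hBm y) p θ Q2 hθ (hBp y)
      (fun ω => pl M lam z ω w y) (integrable_pl hμ hlam hz0 w y)
      (integrable_pl_sq hμ hlam hz0 w y) hQ2
  have hU := integrable_UU hμ hlam hz0 j s ρ hρ i
  have hU' := integrable_UU hμ hlam hz0 j s ρ hρ (i + 1)
  have hS : ∀ y ∈ win j s ρ i, Integrable (SB M lam z j s B y) (PP d μ) := by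
    intro y _
    have h3 := integrable_pl (K := K) hμ hlam hz0 (y + Pi.single j s) y
    exact h3.indicator (hBm y)
  have h2 := integral_mono_sum (PP d μ) (UU M lam z j s ρ hρ (i + 1)) (UU M lam z j s ρ hρ i)
    (TT M lam z j s ρ i) Λ (1 / 2 * (p / θ + θ * Q2)) _ (win j s ρ i)
    (SB M lam z j s B) hU' hU hI hS h1 hone hI2
  rw [win_card j s hρ] at h2
  exact h2

theorem chain_bound (hμ : GoodLaw μ M K) (hlam : 0 < lam) (hz0 : 0 < z.im) (j : Fin d) (s ρ : ℤ)
    (hs : 0 ≤ s) (hρ : 0 ≤ ρ) (Λ p θ Q2 : ℝ) (hΛ : 0 ≤ Λ) (hθ : 0 < θ)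
    (hbad : ∀ y, ∃ B : Set (Site d → ℝ), MeasurableSet B ∧ (PP d μ).real B ≤ p ∧
      ∀ᵐ ω ∂(PP d μ), ω ∉ B → ∀ σ : Fin d → ℤˣ, σ j = 1 → ∃ x : Site d,
      (∀ l, |x l| ≤ ρ) ∧ s ≤ x j ∧ (∀ l, 0 ≤ (σ l : ℤ) * x l) ∧ pl M lam z ω (y + x) y ≤ Λ)
    (hQ2 : ∫ ω, pl M lam z ω (Pi.single j s) 0 ^ 2 ∂(PP d μ) ≤ Q2) :
    LL μ M lam K z hμ hlam hz0 (Pi.single j s) ≤
      Dcost M lam K ((2 * (ρ : ℝ) + 1) ^ d) Λ p θ Q2 := by
  have hM : 0 ≤ M := by linarith [hμ.one_le]
  choose B hBm hBp hgood using hbad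
  set D := Dcost M lam K ((2 * (ρ : ℝ) + 1) ^ d) Λ p θ Q2 with hD
  have hstep := chain_int hμ hlam hz0 j s ρ hs hρ Λ p θ Q2 hΛ hθ B hBm hBp hgood hQ2
  have hU : ∀ n : ℕ, ∫ ω, UU M lam z j s ρ hρ n ω ∂(PP d μ) ≤
      ∫ ω, UU M lam z j s ρ hρ 0 ω ∂(PP d μ) + n * D := by
    intro n
    induction n with
    | zero => simp
    | succ n ih =>
      have := hstep n
      push_cast
      linarith
  set A0 : ℝ := ∑ w ∈ win j s ρ 0, ∫ ω, pl M lam z ω 0 w ∂(PP d μ) with hA0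
  have hA : ∀ w ∈ win j s ρ 0, ∫ ω, pl M lam z ω 0 w ∂(PP d μ) ≤ A0 := fun w hw =>
    Finset.single_le_sum (f := fun w => ∫ ω, pl M lam z ω 0 w ∂(PP d μ))
      (fun w _ => integral_nonneg fun ω => pl_nonneg _ _ _ _ _ _) hw
  set N : ℝ := (2 * (ρ : ℝ) + 1) ^ d with hN
  set C0 : ℝ := ∫ ω, UU M lam z j s ρ hρ 0 ω ∂(PP d μ) + N * (A0 + 4 * (C2 M lam K).toReal) with hC0
  have hmain : ∀ n : ℕ, -(uu μ M lam z (n • (Pi.single j s : Site d))) ≤ C0 + n * D := by
    intro n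
    set c : Site d := Pi.single j ((n : ℤ) * s) with hc
    have hcn : (n • (Pi.single j s : Site d)) = c := by
      rw [hc]
      funext l
      rw [Pi.smul_apply]
      by_cases hl : l = j
      · subst hl; simp
      · simp [Pi.single_eq_of_ne hl]
    rw [hcn]
    have h1 : -(uu μ M lam z c) ≤ ∫ ω, pl M lam z ω c 0 ∂(PP d μ) := by
      unfold uu
      rw [← integral_neg]
      refine integral_mono (integrable_log (K := K) hμ hlam hz0 c 0).neg
        (integrable_pl hμ hlam hz0 c 0) fun ω => ?_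
      unfold pl posLog
      rw [Real.log_inv]
      exact le_max_right _ _
    have h2 : ∀ᵐ ω ∂(PP d μ), pl M lam z ω c 0 ≤ UU M lam z j s ρ hρ n ω +
        ∑ y ∈ win j s ρ n, (pl M lam z ω c y + posLog (rr M lam z c y 0 ω)) := by
      filter_upwards [ae_all_ne hμ hlam hz0] with ω hne
      obtain ⟨y, hy, hyU⟩ := Finset.exists_mem_eq_inf' (win_ne j s hρ n)
        fun y => pl M lam z ω y 0
      have hyU' : UU M lam z j s ρ hρ n ω = pl M lam z ω y 0 := hyU
      have h3 := pl_le ω hne c y 0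
      have h4 := Finset.single_le_sum (f := fun y => pl M lam z ω c y +
        posLog (rr M lam z c y 0 ω)) (fun y _ => add_nonneg (pl_nonneg _ _ _ _ _ _)
          posLog_nonneg) hy
      rw [hyU']
      linarith
    have hI3 : ∀ y ∈ win j s ρ n, Integrable (fun ω => pl M lam z ω c y +
        posLog (rr M lam z c y 0 ω)) (PP d μ) := fun y _ =>
      (integrable_pl hμ hlam hz0 c y).add
        ((memLp_posLog_rr hμ hlam hz0 c y 0).integrable (by norm_num))
    have h5 : ∀ y ∈ win j s ρ n, ∫ ω, (pl M lam z ω c y + posLog (rr M lam z c y 0 ω)) ∂(PP d μ) ≤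
        A0 + 4 * (C2 M lam K).toReal := by
      intro y hy
      rw [integral_add (integrable_pl hμ hlam hz0 c y)
        ((memLp_posLog_rr hμ hlam hz0 c y 0).integrable (by norm_num))]
      refine add_le_add ?_ (integral_posLog_rr hμ hlam hz0 c y 0)
      have h6 := integral_tr_pl (μ := μ) (lam := lam) hM hz0 (fun t => t) measurable_id c 0 (y - c)
      rw [zero_add, sub_add_cancel] at h6
      rw [h6]
      apply hA
      rw [mem_win] at hy ⊢
      intro l
      have := hy l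
      rw [Pi.sub_apply, hc]
      by_cases hl : l = j
      · subst hl
        rw [if_pos rfl] at this
        rw [if_pos rfl, Pi.single_eq_same]
        push_cast
        constructor <;> linarith
      · rw [if_neg hl] at this
        rw [if_neg hl, Pi.single_eq_of_ne hl]
        constructor <;> linarith
    calc -(uu μ M lam z c) ≤ ∫ ω, pl M lam z ω c 0 ∂(PP d μ) := h1
      _ ≤ ∫ ω, (UU M lam z j s ρ hρ n ω +
        ∑ y ∈ win j s ρ n, (pl M lam z ω c y + posLog (rr M lam z c y 0 ω))) ∂(PP d μ) :=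
          integral_mono_ae (integrable_pl hμ hlam hz0 c 0)
            ((integrable_UU hμ hlam hz0 j s ρ hρ n).add (integrable_finsetSum _ hI3)) h2
      _ = ∫ ω, UU M lam z j s ρ hρ n ω ∂(PP d μ) + ∑ y ∈ win j s ρ n,
          ∫ ω, (pl M lam z ω c y + posLog (rr M lam z c y 0 ω)) ∂(PP d μ) := by
          rw [integral_add (integrable_UU hμ hlam hz0 j s ρ hρ n) (integrable_finsetSum _ hI3),
            integral_finsetSum _ hI3]
      _ ≤ (∫ ω, UU M lam z j s ρ hρ 0 ω ∂(PP d μ) + n * D) +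
          ∑ _y ∈ win j s ρ n, (A0 + 4 * (C2 M lam K).toReal) :=
          add_le_add (hU n) (Finset.sum_le_sum h5)
      _ = C0 + n * D := by
          rw [Finset.sum_const, nsmul_eq_mul, win_card j s hρ, hC0]; ring
  have h1 := tendsto_LL hμ hlam hz0 (Pi.single j s : Site d)
  have h2 : Tendsto (fun n : ℕ => C0 / (n : ℝ) + D) atTop (𝓝 (0 + D)) :=
    (tendsto_const_div_atTop_nhds_zero_nat C0).add tendsto_const_nhds
  rw [zero_add] at h2
  refine le_of_tendsto_of_tendsto h1 h2 ?_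
  filter_upwards [eventually_gt_atTop 0] with n hn
  have hn' : (0 : ℝ) < n := by exact_mod_cast hn
  rw [div_le_iff₀ hn']
  refine (hmain n).trans (le_of_eq ?_)
  field_simp

end

end Pool.Agent.Helper3.Weak
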