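import Pool.Agent.Helper3.Weak.Jensen
import Pool.Agent.Helper3.Anderson.Super

/-!
# Averages of the Lyapunov norm over energy windows
-/

open scoped ENNReal NNReal
open MeasureTheory Set Real Filter Topology Metric

noncomputable section

namespace Pool.Agent.Helper3.Weak

open Pool.Agent.Helper3.Anderson

variable {d : ℕ}

/-- The Green function is analytic in the upper half plane. -/
lemma analyticAt_green (V : Site d → ℝ) (hV : Bdd V) (x y : Site d) {z0 : ℂ} (hz0 : 0 < z0.im) :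
    AnalyticAt ℂ (fun z => green V z x y) z0 := by
  have h1 : AnalyticAt ℂ (fun z : ℂ => schr V hV - z • (1 : L2 d →L[ℂ] L2 d)) z0 :=
    analyticAt_const.sub (analyticAt_id.smul analyticAt_const)
  have hu : IsUnit (schr V hV - z0 • (1 : L2 d →L[ℂ] L2 d)) := hz_isUnit V hV hz0.ne'
  obtain ⟨u, hu'⟩ := hu
  have h2 : AnalyticAt ℂ (Ring.inverse : (L2 d →L[ℂ] L2 d) → _)
      (schr V hV - z0 • (1 : L2 d →L[ℂ] L2 d)) := by
    rw [← hu']
    exact analyticAt_inverse u
  have h3 : AnalyticAt ℂ (fun z : ℂ => Ring.inverse (schr V hV - z • (1 : L2 d →L[ℂ] L2 d))) z0 :=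
    AnalyticAt.comp (g := Ring.inverse)
      (f := fun z : ℂ => schr V hV - z • (1 : L2 d →L[ℂ] L2 d)) h2 h1
  set Lc : (L2 d →L[ℂ] L2 d) →L[ℂ] ℂ :=
    (lp.evalCLM ℂ (fun _ : Site d => ℂ) 2 x).comp (ContinuousLinearMap.apply ℂ (L2 d) (dl y)) with hLc
  have h4 : AnalyticAt ℂ (fun z : ℂ =>
      Lc (Ring.inverse (schr V hV - z • (1 : L2 d →L[ℂ] L2 d)))) z0 :=
    (Lc.analyticAt _).comp h3
  refine h4.congr (Filter.Eventually.of_forall fun z => ?_)
  simp only
  rw [green_eq]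
  rfl

variable {μ : Measure ℝ} [IsProbabilityMeasure μ] {M lam : ℝ} {K : ℝ≥0}

lemma analyticAt_gc (hM : 0 ≤ M) (ω : Site d → ℝ) (x y : Site d) {z0 : ℂ} (hz0 : 0 < z0.im) :
    AnalyticAt ℂ (fun z => gc M lam z ω x y) z0 :=
  analyticAt_green _ (bdd_potc hM ω) x y hz0

lemma him {ε : ℝ} (hε : 0 < ε) (E : ℝ) : 0 < ((E : ℂ) + ε * Complex.I).im := by simpa using hε

lemma him' {ε δ : ℝ} (hε : 0 < ε) (hδ : 0 < δ) (E : ℝ) :
    0 < ((E : ℂ) + ((ε + δ : ℝ) : ℂ) * Complex.I).im := by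
  simp
  linarith

lemma log_gc_le (hM : 0 ≤ M) {ε : ℝ} (hε : 0 < ε) (hε1 : ε ≤ 1) (ω : Site d → ℝ) (x y : Site d)
    (z : ℂ) (hz : ε ≤ z.im) : Real.log ‖gc M lam z ω x y‖ ≤ Real.log (1 / ε) := by
  have hz0 : 0 < z.im := lt_of_lt_of_le hε hz
  have h1 := norm_gc_le (lam := lam) hM hz0 ω x y
  have h2 : 1 / z.im ≤ 1 / ε := by gcongr
  rcases eq_or_ne (gc M lam z ω x y) 0 with h | h
  · rw [h, norm_zero, Real.log_zero]
    apply Real.log_nonneg
    rw [le_div_iff₀ hε]
    linarith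
  · exact Real.log_le_log (norm_pos_iff.2 h) (h1.trans h2)

lemma measurable_gc_uncurry (hM : 0 ≤ M) {ε : ℝ} (hε : 0 < ε) (x y : Site d) :
    Measurable (Function.uncurry fun (E : ℝ) (ω : Site d → ℝ) =>
      gc M lam ((E : ℂ) + ε * Complex.I) ω x y) := by
  apply measurable_uncurry_of_continuous_of_measurable
  · intro ω
    rw [continuous_iff_continuousAt]
    intro E
    have h1 : ContinuousAt (fun z => gc M lam z ω x y) ((E : ℂ) + ε * Complex.I) :=
      (analyticAt_gc hM ω x y (him hε E)).continuousAt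
    have h2 : ContinuousAt (fun E : ℝ => (E : ℂ) + ε * Complex.I) E := by fun_prop
    exact ContinuousAt.comp (g := fun z => gc M lam z ω x y) h1 h2
  · intro E
    exact measurable_gc hM (him hε E) x y

lemma measurable_uu (hM : 0 ≤ M) {ε : ℝ} (hε : 0 < ε) (x : Site d) :
    Measurable fun E : ℝ => uu μ M lam ((E : ℂ) + ε * Complex.I) x := by
  have h1 : StronglyMeasurable (Function.uncurry fun (E : ℝ) (ω : Site d → ℝ) =>
      Real.log ‖gc M lam ((E : ℂ) + ε * Complex.I) ω x 0‖) :=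
    ((measurable_gc_uncurry hM hε x 0).norm.log).stronglyMeasurable
  exact (h1.integral_prod_right (ν := PP d μ)).measurable

theorem avg_uu (hμ : GoodLaw μ M K) (hlam : 0 < lam) {ε δ : ℝ} (hε : 0 < ε) (hε1 : ε ≤ 1)
    (hδ : 0 < δ) (E0 : ℝ) (x : Site d) :
    ∫⁻ E in Icc (E0 - δ) (E0 + δ),
        ENNReal.ofReal (Real.log (1 / ε) - uu μ M lam ((E : ℂ) + ε * Complex.I) x) ≤
      ENNReal.ofReal (δ * (2 * π * (Real.log (1 / ε) -
        uu μ M lam ((E0 : ℂ) + ((ε + δ : ℝ) : ℂ) * Complex.I) x))) := by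
  have hM : 0 ≤ M := by linarith [hμ.one_le]
  set B : ℝ := Real.log (1 / ε) with hB
  have hz1 := him' hε hδ E0
  have key : ∀ z : ℂ, 0 < z.im → ε ≤ z.im →
      ENNReal.ofReal (B - uu μ M lam z x) =
        ∫⁻ ω, ENNReal.ofReal (B - Real.log ‖gc M lam z ω x 0‖) ∂(PP d μ) := by
    intro z hz0 hz
    have hint := integrable_log (d := d) hμ hlam hz0 x 0
    have hint2 : Integrable (fun ω => B - Real.log ‖gc M lam z ω x 0‖) (PP d μ) :=
      (integrable_const B).sub hint
    have hnn : 0 ≤ᵐ[PP d μ] fun ω => B - Real.log ‖gc M lam z ω x 0‖ :=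
      Filter.Eventually.of_forall fun ω => sub_nonneg.2 (log_gc_le hM hε hε1 ω x 0 z hz)
    rw [← ofReal_integral_eq_lintegral_ofReal hint2 hnn]
    congr 1
    rw [integral_sub (integrable_const B) hint, integral_const, probReal_univ, one_smul]
    rfl
  have hmeas : Measurable (Function.uncurry fun (E : ℝ) (ω : Site d → ℝ) =>
      ENNReal.ofReal (B - Real.log ‖gc M lam ((E : ℂ) + ε * Complex.I) ω x 0‖)) :=
    (measurable_const.sub ((measurable_gc_uncurry hM hε x 0).norm.log)).ennreal_ofReal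
  calc ∫⁻ E in Icc (E0 - δ) (E0 + δ),
        ENNReal.ofReal (B - uu μ M lam ((E : ℂ) + ε * Complex.I) x)
      = ∫⁻ E in Icc (E0 - δ) (E0 + δ), ∫⁻ ω,
          ENNReal.ofReal (B - Real.log ‖gc M lam ((E : ℂ) + ε * Complex.I) ω x 0‖) ∂(PP d μ) := by
        apply lintegral_congr
        intro E
        exact key _ (him hε E) (by simp)
    _ = ∫⁻ ω, (∫⁻ E in Icc (E0 - δ) (E0 + δ),
          ENNReal.ofReal (B - Real.log ‖gc M lam ((E : ℂ) + ε * Complex.I) ω x 0‖)) ∂(PP d μ) :=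
        lintegral_lintegral_swap hmeas.aemeasurable
    _ ≤ ∫⁻ ω, ENNReal.ofReal (δ * (2 * π)) * ENNReal.ofReal (B - Real.log
          ‖gc M lam ((E0 : ℂ) + ((ε + δ : ℝ) : ℂ) * Complex.I) ω x 0‖) ∂(PP d μ) := by
        apply lintegral_mono_ae
        filter_upwards [(good_all (d := d) hμ hlam hz1 x 0).1] with ω hω
        have h1 := half_plane (G := fun z => gc M lam z ω x 0) (E0 := E0) (ε := ε) (δ := δ)
          (B := B) (fun z hz => analyticAt_gc hM ω x 0 hz) hε hδ
          (fun z hz => log_gc_le hM hε hε1 ω x 0 z hz) hω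
        refine h1.trans (le_of_eq ?_)
        rw [← ENNReal.ofReal_mul (by positivity)]
        congr 1
        ring
    _ = ENNReal.ofReal (δ * (2 * π)) * ENNReal.ofReal (B -
          uu μ M lam ((E0 : ℂ) + ((ε + δ : ℝ) : ℂ) * Complex.I) x) := by
        rw [lintegral_const_mul' _ _ ENNReal.ofReal_ne_top, ← key _ hz1 (by simp; linarith)]
    _ = _ := by
        rw [← ENNReal.ofReal_mul (by positivity)]
        congr 1
        ring

/-- The average of the Lyapunov norm over an energy window is bounded by its value above the centre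
of the window. -/
theorem avg_LL (hμ : GoodLaw μ M K) (hlam : 0 < lam) {ε δ : ℝ} (hε : 0 < ε) (hε1 : ε ≤ 1)
    (hδ : 0 < δ) (E0 : ℝ) (x : Site d) :
    ∫⁻ E in Icc (E0 - δ) (E0 + δ), ENNReal.ofReal
        (LL μ M lam K ((E : ℂ) + ε * Complex.I) hμ hlam (him hε E) x) ≤
      ENNReal.ofReal (2 * π * δ * LL μ M lam K ((E0 : ℂ) + ((ε + δ : ℝ) : ℂ) * Complex.I) hμ hlam
        (him' hε hδ E0) x) := by
  set B : ℝ := Real.log (1 / ε) with hB
  have hB0 : 0 ≤ B := by
    apply Real.log_nonneg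
    rw [le_div_iff₀ hε]; linarith
  set L1 : ℝ := LL μ M lam K ((E0 : ℂ) + ((ε + δ : ℝ) : ℂ) * Complex.I) hμ hlam
    (him' hε hδ E0) x with hL1
  set I : ℝ≥0∞ := ∫⁻ E in Icc (E0 - δ) (E0 + δ), ENNReal.ofReal
        (LL μ M lam K ((E : ℂ) + ε * Complex.I) hμ hlam (him hε E) x) with hI
  set Cl : ℝ := |Clog M lam K| with hCl
  have hstep : ∀ n : ℕ, 0 < n → I ≤ ENNReal.ofReal (2 * δ * Cl / n + 2 * π * δ * (B / n) +
      2 * π * δ * (-(uu μ M lam ((E0 : ℂ) + ((ε + δ : ℝ) : ℂ) * Complex.I) (n • x)) / n)) := by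
    intro n hn
    have hn' : (0 : ℝ) < n := by exact_mod_cast hn
    have h1 : ∀ E : ℝ, ENNReal.ofReal n * ENNReal.ofReal
        (LL μ M lam K ((E : ℂ) + ε * Complex.I) hμ hlam (him hε E) x) ≤
        ENNReal.ofReal Cl + ENNReal.ofReal (B - uu μ M lam ((E : ℂ) + ε * Complex.I) (n • x)) := by
      intro E
      rw [← ENNReal.ofReal_mul hn'.le, ← LL_nsmul hμ hlam (him hε E) n x]
      have h2 := uu_le_LL hμ hlam (him hε E) (n • x)
      have h3 : Clog M lam K ≤ Cl := le_abs_self _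
      calc ENNReal.ofReal (LL μ M lam K ((E : ℂ) + ε * Complex.I) hμ hlam (him hε E) (n • x))
          ≤ ENNReal.ofReal (Cl + (B - uu μ M lam ((E : ℂ) + ε * Complex.I) (n • x))) := by
            apply ENNReal.ofReal_le_ofReal
            linarith
        _ ≤ _ := ENNReal.ofReal_add_le
    have h4 : ENNReal.ofReal n * I ≤ ENNReal.ofReal (2 * δ * Cl) + ENNReal.ofReal (δ * (2 * π *
        (B - uu μ M lam ((E0 : ℂ) + ((ε + δ : ℝ) : ℂ) * Complex.I) (n • x)))) := by
      calc ENNReal.ofReal n * I = ∫⁻ E in Icc (E0 - δ) (E0 + δ), ENNReal.ofReal n *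
            ENNReal.ofReal (LL μ M lam K ((E : ℂ) + ε * Complex.I) hμ hlam (him hε E) x) := by
            rw [lintegral_const_mul' _ _ ENNReal.ofReal_ne_top]
        _ ≤ ∫⁻ E in Icc (E0 - δ) (E0 + δ), (ENNReal.ofReal Cl +
            ENNReal.ofReal (B - uu μ M lam ((E : ℂ) + ε * Complex.I) (n • x))) :=
            lintegral_mono h1
        _ = (∫⁻ _E in Icc (E0 - δ) (E0 + δ), ENNReal.ofReal Cl) +
            ∫⁻ E in Icc (E0 - δ) (E0 + δ),
              ENNReal.ofReal (B - uu μ M lam ((E : ℂ) + ε * Complex.I) (n • x)) :=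
            lintegral_add_left measurable_const _
        _ ≤ _ := by
            apply add_le_add
            · rw [setLIntegral_const, Real.volume_Icc, ← ENNReal.ofReal_mul (abs_nonneg _)]
              apply ENNReal.ofReal_le_ofReal
              apply le_of_eq
              ring
            · exact avg_uu hμ hlam hε hε1 hδ E0 (n • x)
    have hzi : ε ≤ ((E0 : ℂ) + ((ε + δ : ℝ) : ℂ) * Complex.I).im := by simp; linarith
    have h5 : 0 ≤ B - uu μ M lam ((E0 : ℂ) + ((ε + δ : ℝ) : ℂ) * Complex.I) (n • x) := by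
      have hM : 0 ≤ M := by linarith [hμ.one_le]
      rw [sub_nonneg]
      unfold uu
      calc ∫ ω, Real.log ‖gc M lam ((E0 : ℂ) + ((ε + δ : ℝ) : ℂ) * Complex.I) ω (n • x) 0‖
            ∂(PP d μ) ≤ ∫ _ω, B ∂(PP d μ) :=
            integral_mono (integrable_log hμ hlam (him' hε hδ E0) _ _) (integrable_const B)
              (fun ω => log_gc_le hM hε hε1 ω (n • x) 0 _ hzi)
        _ = B := by rw [integral_const, probReal_univ, one_smul]
    rw [← ENNReal.ofReal_add (by positivity) (by positivity)] at h4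
    have h6 : I ≤ ENNReal.ofReal (2 * δ * Cl + δ * (2 * π *
        (B - uu μ M lam ((E0 : ℂ) + ((ε + δ : ℝ) : ℂ) * Complex.I) (n • x)))) /
        ENNReal.ofReal n := by
      rw [ENNReal.le_div_iff_mul_le (Or.inl (by simpa using hn.ne')) (Or.inl ENNReal.ofReal_ne_top),
        mul_comm]
      exact h4
    rw [← ENNReal.ofReal_div_of_pos hn'] at h6
    refine h6.trans (ENNReal.ofReal_le_ofReal (le_of_eq ?_))
    field_simp
    ring
  have ht : Tendsto (fun n : ℕ => ENNReal.ofReal (2 * δ * Cl / n + 2 * π * δ * (B / n) +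
      2 * π * δ * (-(uu μ M lam ((E0 : ℂ) + ((ε + δ : ℝ) : ℂ) * Complex.I) (n • x)) / n)))
      atTop (𝓝 (ENNReal.ofReal (2 * π * δ * L1))) := by
    apply ENNReal.tendsto_ofReal
    have e1 : Tendsto (fun n : ℕ => 2 * δ * Cl / (n : ℝ)) atTop (𝓝 0) :=
      tendsto_const_div_atTop_nhds_zero_nat _
    have e2 : Tendsto (fun n : ℕ => 2 * π * δ * (B / (n : ℝ))) atTop (𝓝 (2 * π * δ * 0)) :=
      (tendsto_const_div_atTop_nhds_zero_nat _).const_mul _
    have e3 := (tendsto_LL hμ hlam (him' hε hδ E0) x).const_mul (2 * π * δ)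
    have e4 := (e1.add e2).add e3
    rw [mul_zero, zero_add, zero_add] at e4
    exact e4
  refine ge_of_tendsto ht ?_
  filter_upwards [eventually_gt_atTop 0] with n hn
  exact hstep n hn

lemma measurable_LL (hμ : GoodLaw μ M K) (hlam : 0 < lam) {ε : ℝ} (hε : 0 < ε) (x : Site d) :
    Measurable fun E : ℝ => LL μ M lam K ((E : ℂ) + ε * Complex.I) hμ hlam (him hε E) x := by
  have hM : 0 ≤ M := by linarith [hμ.one_le]
  refine measurable_of_tendsto_metrizable
    (f := fun (n : ℕ) (E : ℝ) => -(uu μ M lam ((E : ℂ) + ε * Complex.I) (n • x)) / n) ?_ ?_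
  · intro n
    exact ((measurable_uu hM hε (n • x)).neg).div_const _
  · rw [tendsto_pi_nhds]
    intro E
    exact tendsto_LL hμ hlam (him hε E) x

end Pool.Agent.Helper3.Weak
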