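import Pool.Agent.Helper3.Weak.PtMain
import Pool.Agent.Helper3.Weak.Avg

/-!
# Weak disorder bound for the Lyapunov norm
-/

open scoped ENNReal NNReal
open MeasureTheory Set Real Filter Topology

noncomputable section

namespace Pool.Agent.Helper3.Weak

open Pool.Agent.Helper3.Anderson

variable {d : ℕ} {μ : Measure ℝ} [IsProbabilityMeasure μ] {M lam a C η Z : ℝ} {K : ℝ≥0}

/-- An explicit threshold for the disorder. -/
def lam0 (d : ℕ) (a M Z : ℝ) (K : ℝ≥0) : ℝ :=
  min (min (Real.exp (-1)) (1 / (16 * (KR d : ℝ) + 5)))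
    (min (min (c1 d a / (96 * d)) (√(cD d a) / (16 * d)))
      (min (1 / (128 * (1 + cP d M Z K + 2 * (C1 M K).toReal))) (c1 d a / 2)))

lemma lam0_pos (hd : 0 < d) (ha : 0 < a) (hM : 1 ≤ M) (hZ : 1 ≤ Z) : 0 < lam0 d a M Z K := by
  have h1 := c1_pos hd ha
  have h2 := cD_pos hd ha
  have h3 := cP_nonneg (d := d) (K := K) hM hZ
  have h4 : 0 ≤ (C1 M K).toReal := ENNReal.toReal_nonneg
  have h5 : (0 : ℝ) < d := by exact_mod_cast hd
  unfold lam0
  refine lt_min (lt_min (Real.exp_pos _) (by positivity)) (lt_min (lt_min (by positivity)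
    (by positivity)) (lt_min (by positivity) (by positivity)))

lemma sm_of_le (hd : 0 < d) (hM : 1 ≤ M) (hZ : 1 ≤ Z) (hlam : 0 < lam)
    (h : lam ≤ lam0 d a M Z K) : Sm d a lam ∧ Sm2 d a M Z lam K := by
  have h3 := cP_nonneg (d := d) (K := K) hM hZ
  have h4 : 0 ≤ (C1 M K).toReal := ENNReal.toReal_nonneg
  have h5 : (0 : ℝ) < d := by exact_mod_cast hd
  have e1 : lam ≤ Real.exp (-1) := h.trans ((min_le_left _ _).trans (min_le_left _ _))
  have e2 : lam ≤ 1 / (16 * (KR d : ℝ) + 5) := h.trans ((min_le_left _ _).trans (min_le_right _ _))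
  have e3 : lam ≤ c1 d a / (96 * d) :=
    h.trans ((min_le_right _ _).trans ((min_le_left _ _).trans (min_le_left _ _)))
  have e4 : lam ≤ √(cD d a) / (16 * d) :=
    h.trans ((min_le_right _ _).trans ((min_le_left _ _).trans (min_le_right _ _)))
  have e5 : lam ≤ 1 / (128 * (1 + cP d M Z K + 2 * (C1 M K).toReal)) :=
    h.trans ((min_le_right _ _).trans ((min_le_right _ _).trans (min_le_left _ _)))
  have e6 : lam ≤ c1 d a / 2 :=
    h.trans ((min_le_right _ _).trans ((min_le_right _ _).trans (min_le_right _ _)))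
  have e7 : lam ≤ 1 := e1.trans (Real.exp_le_one_iff.2 (by norm_num))
  have hl1 : 1 ≤ ell lam := by
    unfold ell
    rw [one_div, Real.log_inv]
    have := Real.log_le_log hlam e1
    rw [Real.log_exp] at this
    linarith
  have hl2 : ell lam * lam ≤ 1 := by
    unfold ell
    have h6 := Real.log_le_self (show 0 ≤ 1 / lam by positivity)
    calc Real.log (1 / lam) * lam ≤ 1 / lam * lam := by gcongr
      _ = 1 := by field_simp
  rw [le_div_iff₀ (by positivity)] at e2 e3 e4 e5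
  refine ⟨⟨hlam, e7, hl1, ?_, by linarith, by linarith⟩, ⟨by linarith, by linarith⟩⟩
  calc (16 * (KR d : ℝ) + 5) * ell lam * lam ^ 2
      = (lam * (16 * (KR d : ℝ) + 5)) * (ell lam * lam) := by ring
    _ ≤ 1 * 1 := by
        have : 0 ≤ ell lam * lam := by positivity
        gcongr
    _ = 1 := by norm_num

lemma LL_zero (hμ : GoodLaw μ M K) (hlam : 0 < lam) {z : ℂ} (hz0 : 0 < z.im) :
    LL μ M lam K z hμ hlam hz0 (0 : Site d) = 0 := by
  have := LL_nsmul hμ hlam hz0 0 (0 : Site d)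
  simpa using this

lemma LL_single (hμ : GoodLaw μ M K) (hlam : 0 < lam) {z : ℂ} (hz0 : 0 < z.im) (j : Fin d)
    (m : ℤ) : LL μ M lam K z hμ hlam hz0 (Pi.single j m : Site d) =
      |(m : ℝ)| * LL μ M lam K z hμ hlam hz0 (Pi.single j 1 : Site d) := by
  obtain ⟨n, rfl | rfl⟩ := m.eq_nat_or_neg
  · have h1 : (Pi.single j (n : ℤ) : Site d) = n • (Pi.single j 1 : Site d) := by
      rw [← Pi.single_smul]
      congr 1
      simp
    rw [h1, LL_nsmul]
    simp
  · have h1 : (Pi.single j (-(n : ℤ)) : Site d) = -(n • (Pi.single j 1 : Site d)) := by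
      rw [← Pi.single_smul, ← Pi.single_neg]
      congr 1
      simp
    rw [h1, LL_neg, LL_nsmul]
    simp

lemma LL_le_sum (hμ : GoodLaw μ M K) (hlam : 0 < lam) {z : ℂ} (hz0 : 0 < z.im) (B : ℝ)
    (hB : ∀ j : Fin d, LL μ M lam K z hμ hlam hz0 (Pi.single j 1 : Site d) ≤ B) (x : Site d) :
    LL μ M lam K z hμ hlam hz0 x ≤ B * ∑ j, |(x j : ℝ)| := by
  have h1 : ∀ s : Finset (Fin d), LL μ M lam K z hμ hlam hz0 (∑ j ∈ s, Pi.single j (x j)) ≤
      B * ∑ j ∈ s, |(x j : ℝ)| := by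
    classical
    intro s
    induction s using Finset.induction_on with
    | empty => simp [LL_zero hμ hlam hz0]
    | insert j s hj ih =>
      rw [Finset.sum_insert hj, Finset.sum_insert hj]
      have h2 := LL_add_le hμ hlam hz0 (Pi.single j (x j)) (∑ j ∈ s, Pi.single j (x j))
      rw [LL_single hμ hlam hz0 j (x j)] at h2
      have h3 : |(x j : ℝ)| * LL μ M lam K z hμ hlam hz0 (Pi.single j 1 : Site d) ≤
          |(x j : ℝ)| * B := by
        gcongr
        exact hB j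
      linarith
  have h4 := h1 Finset.univ
  rwa [Finset.univ_sum_single] at h4

lemma LL_unique (hμ : GoodLaw μ M K) (hlam : 0 < lam) {z : ℂ} (hz0 : 0 < z.im) {L : Site d → ℝ}
    (hL : IsLyapunovNorm d μ lam z L) : L = LL μ M lam K z hμ hlam hz0 := by
  have hL' := isLyapunovNorm_LL hμ hlam d hz0
  funext x
  have hae := ae_rand_eq (d := d) hμ.supp lam hz0
  set f : ℕ → (Site d → ℝ) → ℝ := fun n ω => -Real.log ‖randGreen lam z (n • x) 0 ω‖ / n with hf
  have hint : ∀ n, Integrable (f n) (siteLaw d μ) := by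
    intro n
    have h1 : Integrable (fun ω => -Real.log ‖gc M lam z ω (n • x) 0‖ / n) (siteLaw d μ) :=
      ((integrable_log (d := d) hμ hlam hz0 (n • x) 0).neg).div_const _
    refine h1.congr ?_
    filter_upwards [hae] with ω hω
    rw [hf]
    simp only
    rw [hω]
  have hprob : IsProbabilityMeasure (siteLaw d μ) := by unfold siteLaw; infer_instance
  have h2 : ∀ n, |L x - LL μ M lam K z hμ hlam hz0 x| ≤
      ∫ ω, |f n ω - L x| ∂(siteLaw d μ) + ∫ ω, |f n ω - LL μ M lam K z hμ hlam hz0 x|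
        ∂(siteLaw d μ) := by
    intro n
    have i1 : Integrable (fun ω => |f n ω - L x|) (siteLaw d μ) :=
      ((hint n).sub (integrable_const _)).abs
    have i2 : Integrable (fun ω => |f n ω - LL μ M lam K z hμ hlam hz0 x|) (siteLaw d μ) :=
      ((hint n).sub (integrable_const _)).abs
    rw [← integral_add i1 i2]
    calc |L x - LL μ M lam K z hμ hlam hz0 x| =
          ∫ _ω, |L x - LL μ M lam K z hμ hlam hz0 x| ∂(siteLaw d μ) := by
          rw [integral_const, probReal_univ, one_smul]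
      _ ≤ _ := by
          apply integral_mono (integrable_const _) (i1.add i2)
          intro ω
          simp only [Pi.add_apply]
          calc |L x - LL μ M lam K z hμ hlam hz0 x| =
                |(L x - f n ω) + (f n ω - LL μ M lam K z hμ hlam hz0 x)| := by ring_nf
            _ ≤ |L x - f n ω| + |f n ω - LL μ M lam K z hμ hlam hz0 x| := abs_add_le _ _
            _ = _ := by rw [abs_sub_comm (L x)]
  have h3 := (hL.tendsto x).add (hL'.tendsto x)
  rw [add_zero] at h3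
  have h4 : |L x - LL μ M lam K z hμ hlam hz0 x| ≤ 0 :=
    ge_of_tendsto' h3 h2
  have h5 := abs_nonneg (L x - LL μ M lam K z hμ hlam hz0 x)
  have h6 : L x - LL μ M lam K z hμ hlam hz0 x = 0 := abs_eq_zero.1 (le_antisymm h4 h5)
  linarith

/-- The core statement, for an abstract set of free energies. -/
theorem core (hμ : GoodLaw μ M K) (hd : 0 < d) (ha : 0 < a) (Cc : ℝ) (hCc : 0 ≤ Cc) (S : Set ℝ)
    (hCB : CB d Cc S) (P : ℝ → Prop)
    (hP : ∀ E0 E1 : ℝ, P E0 → |E1 - E0| ≤ a / 2 → E1 ∈ S) :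
    ∃ C c lam1 : ℝ, 0 < C ∧ 0 < c ∧ 0 < lam1 ∧ ∀ lam : ℝ, 0 < lam → lam ≤ lam1 →
      ∀ E0 ε δ : ℝ, a ≤ E0 → E0 ≤ 4 * d - a → P E0 → 0 < ε → ε ≤ c →
      lam ^ 2 * Real.log (1 / lam) ^ 3 ≤ δ → δ ≤ c →
      ∀ L : ℝ → Site d → ℝ, (∀ E : ℝ, IsLyapunovNorm d μ lam (E + ε * Complex.I) (L E)) →
      ∀ x : Site d, IntervalIntegrable (fun E => L E x) volume (E0 - δ) (E0 + δ) ∧
        (2 * δ)⁻¹ * ∫ E in (E0 - δ)..(E0 + δ), L E x ≤
          C * (ε + δ) * Real.log (1 / lam) * ∑ j, |(x j : ℝ)| := by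
  have hM := hμ.one_le
  have hd' : (0 : ℝ) < d := by exact_mod_cast hd
  set a' : ℝ := min (a / 2) d with ha'
  have ha'0 : 0 < a' := lt_min (by positivity) hd'
  have ha'1 : a' ≤ d := min_le_right _ _
  have ha'2 : a' ≤ a / 2 := min_le_left _ _
  set A : ℝ := A0 d a' Cc M with hA
  have hA1 : 1 ≤ A := A0_ge_one hd ha'0 ha'1 hCc hM
  have hZ : (1 : ℝ) ≤ 4 * d + M + 1 := by linarith
  have hη0 := eta0_pos (C := Cc) hd ha'0 hCc
  have hη1 : eta0 d a' Cc ≤ 1 / 2 := (min_le_right _ _).trans (min_le_left _ _)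
  set c : ℝ := eta0 d a' Cc / (2 * A) with hc
  have hc0 : 0 < c := by positivity
  have hs0 := s0_pos (C := Cc) hd ha'0 hCc
  set CP : ℝ := CC d a' Cc with hCP
  have hCP0 : 0 < CP := by rw [hCP]; unfold CC; positivity
  refine ⟨π * A ^ 2 * CP, c, min (lam0 d a' M (4 * d + M + 1) K) (a / (2 * M)), by positivity, hc0,
    lt_min (lam0_pos hd ha'0 hM hZ) (by positivity), ?_⟩
  intro lam hlam hlam1 E0 ε δ hE1 hE2 hPE hε hεc hδ hδc L hL x
  obtain ⟨hs, hs2⟩ := sm_of_le (K := K) hd hM hZ hlam (hlam1.trans (min_le_left _ _))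
  have hl := hs.hl
  have hlM : lam * M ≤ a / 2 := by
    have := hlam1.trans (min_le_right _ _)
    rw [le_div_iff₀ (by positivity)] at this
    linarith
  have hδ0 : 0 < δ := by
    have h1 : 0 < lam ^ 2 * Real.log (1 / lam) ^ 3 := by
      have : 0 < Real.log (1 / lam) := by
        have := hl
        unfold ell at this
        linarith
      positivity
    linarith
  set δ' : ℝ := A * δ with hδ'
  have hδ'0 : 0 < δ' := by positivity
  have hδδ' : δ ≤ δ' := by nlinarith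
  set η : ℝ := ε + δ' with hη
  have hηlow : A * (lam ^ 2 * ell lam ^ 3) ≤ η := by
    have : A * (lam ^ 2 * ell lam ^ 3) ≤ A * δ := by
      unfold ell
      gcongr
    linarith
  have hAc : A * c = eta0 d a' Cc / 2 := by rw [hc]; field_simp
  have hηup : η ≤ eta0 d a' Cc := by
    have h1 : A * δ ≤ A * c := by gcongr
    have h2 : c ≤ A * c := by nlinarith
    linarith
  have hε1 : ε ≤ 1 := by
    have h2 : c ≤ A * c := by nlinarith
    linarith
  have hmean : |lam * ∫ t, t ∂μ| ≤ a / 2 := by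
    rw [abs_mul, abs_of_pos hlam]
    have := abs_mean_le hμ
    calc lam * |∫ t, t ∂μ| ≤ lam * M := by gcongr
      _ ≤ a / 2 := hlM
  have hmean' := abs_le.1 hmean
  have hpt : ∀ j : Fin d, LL μ M lam K ((E0 : ℂ) + ((ε + δ' : ℝ) : ℂ) * Complex.I) hμ hlam
      (him' hε hδ'0 E0) (Pi.single j 1) ≤ CP * η * ell lam := by
    intro j
    refine pointwise hμ hlam hd ha'0 ha'1 hCc S hCB hs hs2 hηlow hηup E0 ?_ ?_ ?_ _ j
    · apply hP E0 _ hPE
      rw [show E0 - lam * ∫ t, t ∂μ - E0 = -(lam * ∫ t, t ∂μ) by ring, abs_neg]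
      exact hmean
    · linarith
    · linarith
  have hLLx := LL_le_sum hμ hlam (him' hε hδ'0 E0) _ hpt x
  have havg := avg_LL hμ hlam hε hε1 hδ'0 E0 x
  have hLeq : ∀ E : ℝ, L E x = LL μ M lam K ((E : ℂ) + ε * Complex.I) hμ hlam (him hε E) x := by
    intro E
    rw [LL_unique hμ hlam (him hε E) (hL E)]
  have hmeasL : Measurable fun E => L E x := by
    have h1 : (fun E => L E x) = fun E : ℝ =>
        LL μ M lam K ((E : ℂ) + ε * Complex.I) hμ hlam (him hε E) x := funext hLeq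
    rw [h1]
    exact measurable_LL hμ hlam hε x
  have hLnn : ∀ E, 0 ≤ L E x := by
    intro E
    rw [hLeq]
    exact LL_nonneg hμ hlam (him hε E) x
  set X : ℝ := ∑ j, |(x j : ℝ)| with hX
  have hX0 : 0 ≤ X := Finset.sum_nonneg fun j _ => abs_nonneg _
  have hbound : ∫⁻ E in Icc (E0 - δ) (E0 + δ), ENNReal.ofReal (L E x) ≤
      ENNReal.ofReal (2 * π * δ' * (CP * η * ell lam * X)) := by
    calc ∫⁻ E in Icc (E0 - δ) (E0 + δ), ENNReal.ofReal (L E x)
        ≤ ∫⁻ E in Icc (E0 - δ') (E0 + δ'), ENNReal.ofReal (L E x) :=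
          lintegral_mono_set (Icc_subset_Icc (by linarith) (by linarith))
      _ = ∫⁻ E in Icc (E0 - δ') (E0 + δ'), ENNReal.ofReal
          (LL μ M lam K ((E : ℂ) + ε * Complex.I) hμ hlam (him hε E) x) := by
          simp only [hLeq]
      _ ≤ _ := havg
      _ ≤ _ := by
          apply ENNReal.ofReal_le_ofReal
          gcongr
  have hInt : IntegrableOn (fun E => L E x) (Icc (E0 - δ) (E0 + δ)) := by
    refine ⟨hmeasL.aestronglyMeasurable, ?_⟩
    rw [hasFiniteIntegral_iff_ofReal (Filter.Eventually.of_forall hLnn)]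
    exact lt_of_le_of_lt hbound ENNReal.ofReal_lt_top
  have hle : E0 - δ ≤ E0 + δ := by linarith
  refine ⟨?_, ?_⟩
  · rw [intervalIntegrable_iff_integrableOn_Icc_of_le hle]
    exact hInt
  · have h1 : ∫ E in (E0 - δ)..(E0 + δ), L E x ≤ 2 * π * δ' * (CP * η * ell lam * X) := by
      rw [intervalIntegral.integral_of_le hle, ← integral_Icc_eq_integral_Ioc,
        integral_eq_lintegral_of_nonneg_ae (Filter.Eventually.of_forall hLnn)
          hmeasL.aestronglyMeasurable]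
      have hl0 : 0 ≤ ell lam := by linarith
      exact ENNReal.toReal_le_of_le_ofReal (by positivity) hbound
    have hηle : η ≤ A * (ε + δ) := by
      rw [hη, hδ']
      nlinarith
    have hl0 : 0 ≤ ell lam := by linarith
    calc (2 * δ)⁻¹ * ∫ E in (E0 - δ)..(E0 + δ), L E x
        ≤ (2 * δ)⁻¹ * (2 * π * δ' * (CP * η * ell lam * X)) := by gcongr
      _ = π * A * CP * η * ell lam * X := by
          rw [hδ']
          field_simp
      _ ≤ π * A * CP * (A * (ε + δ)) * ell lam * X := by gcongr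
      _ = π * A ^ 2 * CP * (ε + δ) * Real.log (1 / lam) * X := by
          unfold ell
          ring

/-- Weak disorder bound for the averages of the Lyapunov norm. -/
theorem weak (hμ : BoundedDensity μ) (d : ℕ) (a : ℝ) (ha : 0 < a) :
    ∃ C c lam1 : ℝ, 0 < C ∧ 0 < c ∧ 0 < lam1 ∧ ∀ lam : ℝ, 0 < lam → lam ≤ lam1 →
      ∀ E0 ε δ : ℝ, a ≤ E0 → E0 ≤ 4 * d - a →
      (3 ≤ d ∨ ∀ i : ℕ, i ≤ d → a ≤ |E0 - 4 * i|) → 0 < ε → ε ≤ c →
      lam ^ 2 * Real.log (1 / lam) ^ 3 ≤ δ → δ ≤ c →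
      ∀ L : ℝ → Site d → ℝ, (∀ E : ℝ, IsLyapunovNorm d μ lam (E + ε * Complex.I) (L E)) →
      ∀ x : Site d, IntervalIntegrable (fun E => L E x) volume (E0 - δ) (E0 + δ) ∧
        (2 * δ)⁻¹ * ∫ E in (E0 - δ)..(E0 + δ), L E x ≤
          C * (ε + δ) * Real.log (1 / lam) * ∑ j, |(x j : ℝ)| := by
  obtain ⟨M, K, h⟩ := goodLaw_of hμ.supp hμ.dens
  rcases Nat.eq_zero_or_pos d with rfl | hd
  · refine ⟨1, 1, 1, one_pos, one_pos, one_pos, ?_⟩
    intro lam hlam hlam1 E0 ε δ hE1 hE2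
    exfalso
    push_cast at hE2
    linarith
  by_cases h3 : 3 ≤ d
  · obtain ⟨m, rfl⟩ := Nat.exists_eq_add_of_le h3
    rw [Nat.add_comm 3 m] at hd ⊢
    obtain ⟨C, c, lam1, hC, hc, hlam1, hmain⟩ := core (a := a) h hd ha
      ((m + 3) * (12 ^ (m + 2) + 2)) (by positivity) Set.univ (CB_all m) (fun _ => True)
      (fun _ _ _ _ => Set.mem_univ _)
    exact ⟨C, c, lam1, hC, hc, hlam1, fun lam h1 h2 E0 ε δ h4 h5 _ => hmain lam h1 h2 E0 ε δ h4 h5
      trivial⟩
  · obtain ⟨C, c, lam1, hC, hc, hlam1, hmain⟩ := core (a := a) h hd ha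
      (d * (1 / √(a / 2 / (8 * d)) + 2) + 2 / (a / 2)) (by positivity)
      (Pool.Agent.Helper2.AM.bulk d (a / 2)) (CB_bulk hd (a / 2) (by positivity))
      (fun E0 => ∀ i : ℕ, i ≤ d → a ≤ |E0 - 4 * i|) (by
        intro E0 E1 hE hE1 i hi
        have h6 := hE i hi
        have h7 : |E0 - 4 * i| ≤ |E1 - 4 * i| + |E1 - E0| := by
          calc |E0 - 4 * i| = |(E1 - 4 * i) - (E1 - E0)| := by ring_nf
            _ ≤ _ := abs_sub _ _
        linarith)
    exact ⟨C, c, lam1, hC, hc, hlam1, fun lam h1 h2 E0 ε δ h4 h5 h6 => hmain lam h1 h2 E0 ε δ h4 h5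
      (h6.resolve_left h3)⟩

end Pool.Agent.Helper3.Weak
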