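import Pool.Agent.Helper3.Weak.Trunc
import Pool.Agent.Helper3.Anderson.FinalA

/-!
# Reflection symmetry of the free Green function, and its mass in the orthants
-/

open Finset Real Matrix

noncomputable section

namespace Pool.Agent.Helper3.Weak

open Pool.Agent.Helper2.AM

variable {d : ℕ}

/-- reflection -/
def rf (s : Fin d → ℤˣ) (x : Fin d → ℤ) : Fin d → ℤ := fun i => (s i : ℤ) * x i

lemma rf_rf (s : Fin d → ℤˣ) (x : Fin d → ℤ) : rf s (rf s x) = x := by
  funext i
  simp only [rf]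
  rw [← mul_assoc]
  rcases Int.units_eq_one_or (s i) with h | h <;> simp [h]

lemma rf_injective (s : Fin d → ℤˣ) : Function.Injective (rf s) := fun x y h => by
  rw [← rf_rf s x, h, rf_rf]

lemma rf_zero_iff (s : Fin d → ℤˣ) (x : Fin d → ℤ) : rf s x = 0 ↔ x = 0 := by
  constructor
  · intro h
    have h0 : rf s (0 : Fin d → ℤ) = 0 := by funext i; simp [rf]
    rw [← h0] at h
    exact rf_injective s h
  · rintro rfl; funext i; simp [rf]

lemma rf_add_single (s : Fin d → ℤˣ) (x : Fin d → ℤ) (j : Fin d) :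
    rf s (x + Pi.single j 1) = rf s x + Pi.single j (s j : ℤ) := by
  funext i
  simp only [rf, Pi.add_apply]
  by_cases h : i = j
  · subst h; simp [mul_add]
  · simp [h]

lemma rf_sub_single (s : Fin d → ℤˣ) (x : Fin d → ℤ) (j : Fin d) :
    rf s (x - Pi.single j 1) = rf s x - Pi.single j (s j : ℤ) := by
  funext i
  simp only [rf, Pi.sub_apply]
  by_cases h : i = j
  · subst h; simp [mul_sub]
  · simp [h]

open Pool.Agent.Helper3.Anderson in
lemma bdd_zero : Bdd (fun _ : Site d => (0 : ℝ)) := ⟨0, fun _ => by simp⟩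

open Pool.Agent.Helper3.Anderson in
/-- the free Green function is invariant under reflections -/
lemma green_rf (s : Fin d → ℤˣ) {z : ℂ} (hz0 : 0 < z.im) (x : Site d) :
    green (fun _ => 0) z (rf s x) 0 = green (fun _ => 0) z x 0 := by
  set G : Site d → ℂ := fun x => green (fun _ => 0) z x 0 with hG
  refine isGreen_unique (fun _ : Site d => (0 : ℝ)) bdd_zero hz0 (y := 0)
    (ψ := fun x => G (rf s x)) ⟨?_, fun x => ?_⟩ x
  · have hm : Memℓp G 2 := by
      have : G = fun x => res (fun _ : Site d => (0 : ℝ)) bdd_zero z (dl 0) x := by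
        funext x
        rw [hG]
        exact green_eq _ bdd_zero z x 0
      rw [this]
      exact lp.memℓp _
    have h2 : 0 < (2 : ENNReal).toReal := by norm_num
    have hs : Summable (fun x => ‖G x‖ ^ (2 : ENNReal).toReal) := hm.summable h2
    exact memℓp_gen (hs.comp_injective (rf_injective s))
  · have h := green_equation (fun _ : Site d => (0 : ℝ)) bdd_zero hz0 (rf s x) 0
    have h1 : lap (fun x => G (rf s x)) x = lap (fun w => green (fun _ => 0) z w 0) (rf s x) := by
      unfold lap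
      refine Finset.sum_congr rfl fun j _ => ?_
      beta_reduce
      rw [rf_add_single, rf_sub_single]
      rcases Int.units_eq_one_or (s j) with h | h
      · rw [h]; rfl
      · rw [h]
        simp only [Units.val_neg, Units.val_one, Pi.single_neg, sub_neg_eq_add,
          ← sub_eq_add_neg]
        rw [add_comm]
    rw [h1]
    have h2 : (if x = 0 then (1 : ℂ) else 0) = if rf s x = 0 then 1 else 0 := by
      simp only [rf_zero_iff]
    rw [h2, ← h]

/-- reflection of the indices -/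
def rfi (R : ℕ) (s : Fin d → ℤˣ) (x : Fin d → Fin (2 * R + 1)) : Fin d → Fin (2 * R + 1) :=
  fun i => if s i = 1 then x i else Fin.rev (x i)

lemma pos_rfi (R : ℕ) (s : Fin d → ℤˣ) (x : Fin d → Fin (2 * R + 1)) :
    pos R (rfi R s x) = rf s (pos R x) := by
  funext i
  simp only [pos, rfi, rf]
  rcases Int.units_eq_one_or (s i) with h | h
  · rw [h]; simp
  · rw [h, if_neg (by decide), Fin.val_rev]
    simp only [Units.val_neg, Units.val_one]
    have := (x i).2
    omega

lemma rfi_rfi (R : ℕ) (s : Fin d → ℤˣ) (x : Fin d → Fin (2 * R + 1)) :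
    rfi R s (rfi R s x) = x := by
  funext i
  simp only [rfi]
  split_ifs <;> simp

/-- the orthant of signs `σ`, at distance `T` in the direction `j` -/
def orth (R : ℕ) (σ : Fin d → ℤˣ) (j : Fin d) (T : ℝ) : Finset (Fin d → Fin (2 * R + 1)) :=
  univ.filter fun x => T ≤ (((σ j : ℤ) * pos R x j : ℤ) : ℝ) ∧ ∀ i, 0 ≤ (σ i : ℤ) * pos R x i

lemma orth_eq (R : ℕ) (σ : Fin d → ℤˣ) (j : Fin d) (T : ℝ) (F : (Fin d → ℤ) → ℝ)
    (hF : ∀ x, F (rf σ x) = F x) :
    ∑ x ∈ orth R σ j T, F (pos R x) = ∑ x ∈ orth R 1 j T, F (pos R x) := by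
  refine Finset.sum_bij' (fun x _ => rfi R σ x) (fun x _ => rfi R σ x) ?_ ?_ ?_ ?_ ?_
  · intro x hx
    rw [orth, Finset.mem_filter] at hx ⊢
    refine ⟨mem_univ _, ?_⟩
    rw [pos_rfi]
    simpa [rf] using hx.2
  · intro x hx
    rw [orth, Finset.mem_filter] at hx ⊢
    refine ⟨mem_univ _, ?_⟩
    have h1 : ∀ i, ((σ i : ℤˣ) : ℤ) * rf σ (pos R x) i = pos R x i := fun i =>
      congrFun (rf_rf σ (pos R x)) i
    rw [pos_rfi]
    simp only [h1]
    simpa using hx.2
  · intro x _; exact rfi_rfi R σ x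
  · intro x _; exact rfi_rfi R σ x
  · intro x _
    rw [pos_rfi, hF]

/-- the sign pattern of a point -/
def sgn (x : Fin d → ℤ) : Fin d → ℤˣ := fun i => if 0 ≤ x i then 1 else -1

lemma sgn_mul (x : Fin d → ℤ) (i : Fin d) : (sgn x i : ℤ) * x i = |x i| := by
  unfold sgn
  split_ifs with h
  · rw [abs_of_nonneg h]; simp
  · push Not at h
    rw [abs_of_neg h]; simp

lemma mass_orth (R : ℕ) (j : Fin d) (T : ℝ) (F : (Fin d → ℤ) → ℝ)
    (hF0 : ∀ x, 0 ≤ F x) (hF : ∀ (s : Fin d → ℤˣ) x, F (rf s x) = F x) (σ : Fin d → ℤˣ) :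
    ∑ x : Fin d → Fin (2 * R + 1), (if T ≤ |((pos R x j : ℤ) : ℝ)| then F (pos R x) else 0) ≤
      2 ^ d * ∑ x ∈ orth R σ j T, F (pos R x) := by
  have h1 : ∑ x : Fin d → Fin (2 * R + 1),
      (if T ≤ |((pos R x j : ℤ) : ℝ)| then F (pos R x) else 0) ≤
      ∑ x : Fin d → Fin (2 * R + 1), ∑ τ : Fin d → ℤˣ,
        (if x ∈ orth R τ j T then F (pos R x) else 0) := by
    refine Finset.sum_le_sum fun x _ => ?_
    have hnn : ∀ τ : Fin d → ℤˣ, 0 ≤ (if x ∈ orth R τ j T then F (pos R x) else 0) := by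
      intro τ
      split_ifs
      · exact hF0 _
      · exact le_rfl
    split_ifs with h
    · have h2 : x ∈ orth R (sgn (pos R x)) j T := by
        rw [orth, Finset.mem_filter]
        refine ⟨mem_univ _, ?_, fun i => ?_⟩
        · rw [sgn_mul, Int.cast_abs]; exact h
        · rw [sgn_mul]; exact abs_nonneg _
      have h3 := Finset.single_le_sum (f := fun τ : Fin d → ℤˣ =>
        (if x ∈ orth R τ j T then F (pos R x) else 0)) (fun τ _ => hnn τ)
        (mem_univ (sgn (pos R x)))
      simp only [if_pos h2] at h3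
      exact h3
    · exact Finset.sum_nonneg fun τ _ => hnn τ
  refine h1.trans (le_of_eq ?_)
  rw [Finset.sum_comm]
  have h2 : ∀ τ : Fin d → ℤˣ, ∑ x : Fin d → Fin (2 * R + 1),
      (if x ∈ orth R τ j T then F (pos R x) else 0) = ∑ x ∈ orth R 1 j T, F (pos R x) := by
    intro τ
    rw [Finset.sum_ite_mem, Finset.univ_inter]
    exact orth_eq R τ j T F (hF τ)
  rw [Finset.sum_congr rfl fun τ _ => h2 τ, Finset.sum_const, card_univ, nsmul_eq_mul,
    orth_eq R σ j T F (hF σ)]
  congr 1
  rw [Fintype.card_fun]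
  simp

end Pool.Agent.Helper3.Weak
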