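import Pool.Agent.Helper3.Weak.Pt

/-!
# The pointwise bound for the Lyapunov norm off the real axis, main statement
-/

open scoped ENNReal NNReal
open MeasureTheory Set Real Filter Topology

noncomputable section

namespace Pool.Agent.Helper3.Weak

open Pool.Agent.Helper3.Anderson

variable {d : ℕ} {μ : Measure ℝ} [IsProbabilityMeasure μ] {M lam a C η Z : ℝ} {K : ℝ≥0}

lemma abs_mean_le (hμ : GoodLaw μ M K) : |∫ t, t ∂μ| ≤ M := by
  have h1 : ∀ᵐ t ∂μ, ‖t‖ ≤ M := by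
    have h2 : μ (Icc (-M) M)ᶜ = 0 := hμ.supp
    have h3 : ∀ᵐ t ∂μ, t ∈ Icc (-M) M := by
      rw [ae_iff]
      exact h2
    filter_upwards [h3] with t ht
    rw [Real.norm_eq_abs, abs_le]
    exact ht
  have h4 := norm_integral_le_of_norm_le_const h1
  rw [Real.norm_eq_abs] at h4
  simpa using h4

/-- The constant of the pointwise bound. -/
def CC (d : ℕ) (a C : ℝ) : ℝ := (68 * d + 20) / s0 d a C

theorem pointwise (hμ : GoodLaw μ M K) (hlam : 0 < lam) (hd : 0 < d) (ha : 0 < a) (ha1 : a ≤ d)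
    (hC : 0 ≤ C) (S : Set ℝ) (hCB : CB d C S) (hs : Sm d a lam)
    (hs2 : Sm2 d a M (4 * d + M + 1) lam K) (hA : A0 d a C M * (lam ^ 2 * ell lam ^ 3) ≤ η)
    (hη0 : η ≤ eta0 d a C) (E : ℝ) (hE : E - lam * ∫ t, t ∂μ ∈ S)
    (hE1 : a ≤ E - lam * ∫ t, t ∂μ) (hE2 : E - lam * ∫ t, t ∂μ ≤ 4 * d - a)
    (hz0 : 0 < ((E : ℂ) + η * Complex.I).im) (j : Fin d) :
    LL μ M lam K ((E : ℂ) + η * Complex.I) hμ hlam hz0 (Pi.single j 1) ≤
      CC d a C * η * ell lam := by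
  have hM := hμ.one_le
  have hl := hs.hl
  have hlam1 := hs.h1
  have hη2 : lam ^ 2 ≤ η := by
    have h1 := A0_ge_one (C := C) hd ha ha1 hC hM
    have h2 : 1 ≤ ell lam ^ 3 := one_le_pow₀ hl
    have h3 : lam ^ 2 * 1 ≤ lam ^ 2 * ell lam ^ 3 := by gcongr
    have h4 : 1 * (lam ^ 2 * ell lam ^ 3) ≤ A0 d a C M * (lam ^ 2 * ell lam ^ 3) := by gcongr
    linarith
  have hη : 0 < η := lt_of_lt_of_le (by positivity) hη2
  have hLH := locHyp hd ha ha1 hC S hCB hs hη2 hη0 _ hE hE1 hE2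
  have hη1 : η ≤ 1 := by
    have := hLH.hη3
    linarith
  have hs0 := s0_pos (C := C) hd ha hC
  have hs01 := s0_le_one (C := C) hd ha ha1 hC
  have hηs : η ≤ s0 d a C :=
    hη0.trans ((min_le_right _ _).trans ((min_le_right _ _).trans (min_le_left _ _)))
  obtain ⟨hp0, hp1, hp2⟩ := pp_spec hs
  set s : ℤ := ss d a C η with hsdef
  have hs1 : 1 ≤ s := by
    rw [hsdef]
    unfold ss
    rw [Int.le_floor]
    push_cast
    rw [le_div_iff₀ hη]
    linarith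
  obtain ⟨n, hn⟩ : ∃ n : ℕ, s = (n : ℤ) + 1 := ⟨(s - 1).toNat, by omega⟩
  have hsup : (s : ℝ) ≤ s0 d a C / η := Int.floor_le _
  have hslow : s0 d a C / η - 1 < (s : ℝ) := by
    have := Int.lt_floor_add_one (s0 d a C / η)
    rw [hsdef]
    unfold ss
    linarith
  have hs1' : (1 : ℝ) ≤ s := by exact_mod_cast hs1
  have hslow2 : s0 d a C / (2 * η) ≤ (s : ℝ) := by
    have h1 : s0 d a C / (2 * η) = (s0 d a C / η) / 2 := by
      rw [div_div]; ring
    rw [h1]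
    linarith
  have hR1 : 1 ≤ RR d lam η := hLH.hR
  -- norm of z
  have hZ : (1 : ℝ) ≤ 4 * d + M + 1 := by
    have : (0 : ℝ) ≤ d := Nat.cast_nonneg _
    linarith
  have hzZ : ‖(E : ℂ) + η * Complex.I‖ ≤ 4 * d + M + 1 := by
    have h1 : |lam * ∫ t, t ∂μ| ≤ M := by
      rw [abs_mul, abs_of_pos hlam]
      have := abs_mean_le hμ
      have h2 : 0 ≤ |∫ t, t ∂μ| := abs_nonneg _
      nlinarith
    rw [abs_le] at h1
    have h3 : |E| ≤ 4 * d + M := by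
      rw [abs_le]
      constructor <;> linarith [(Nat.cast_nonneg d : (0 : ℝ) ≤ d)]
    calc ‖(E : ℂ) + η * Complex.I‖ ≤ ‖(E : ℂ)‖ + ‖(η : ℂ) * Complex.I‖ := norm_add_le _ _
      _ = |E| + η := by
          rw [Complex.norm_real, norm_mul, Complex.norm_I, mul_one, Complex.norm_real,
            Real.norm_eq_abs, Real.norm_of_nonneg hη.le]
      _ ≤ _ := by linarith
  have himz : ((E : ℂ) + η * Complex.I).im = η := by simp
  have ht1 : (1 : ℝ) ≤ lam⁻¹ := (one_le_inv₀ hlam).2 hlam1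
  have hQ := integral_pl_sq (d := d) (Z := 4 * d + M + 1) (t := (lam⁻¹) ^ 2) hμ hlam hlam1 hz0 hZ
    hzZ (one_le_pow₀ ht1) (le_self_pow₀ ht1 (by norm_num)) (by
      rw [himz, inv_pow]
      gcongr) j n
  rw [← hn] at hQ
  have hcastn : ((n : ℝ) + 1) = (s : ℝ) := by
    have : ((s : ℤ) : ℝ) = (((n : ℤ) + 1 : ℤ) : ℝ) := by rw [← hn]
    rw [this]; push_cast; ring
  rw [hcastn] at hQ
  have hs2' : (s : ℝ) ≤ (lam⁻¹) ^ 2 := by
    refine hsup.trans ?_
    rw [inv_pow, div_eq_mul_inv]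
    calc s0 d a C * η⁻¹ ≤ 1 * (lam ^ 2)⁻¹ := by gcongr
      _ = _ := one_mul _
  have hQ2 := Q2_le (d := d) (K := K) hM hZ hlam hlam1 (s := (s : ℝ)) (by linarith) hs2' hs2.h5
  have hbound := chain_bound (M := M) (K := K) hμ hlam hz0 j s ((RR d lam η : ℤ) - 1) (by omega)
    (by omega) ((2 * d + 1) * ell lam) (lam ^ (K2 d) * (lam⁻¹) ^ (4 * d)) (lam ^ (K1 d))
    (128 * (s : ℝ) ^ 2 * (1 + PN d M (4 * d + M + 1) K ((lam⁻¹) ^ 2) + (C2 M lam K).toReal))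
    (by positivity) (by positivity) (fun y => by
      obtain ⟨B, hB1, hB2, hB3⟩ := bad_event hμ hlam j (RR d lam η) E (E - lam * ∫ t, t ∂μ) η
        (kk d a C lam) (WW C lam) a C s rfl hLH (pp d lam) hp0 y
      refine ⟨B, hB1, hB2.trans (prob_le hd ha hC hM hs hη hη1 hη2 hA), ?_⟩
      filter_upwards [hB3] with ω hω hωB σ hσ
      obtain ⟨x, h1, h2, h3, h4⟩ := hω hωB σ hσ
      exact ⟨x, h1, h2, h3, h4.trans (Lam_le hd ha hs hs2.h6 hη hη1 hη2)⟩) hQ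
  have hρ : (2 * (((RR d lam η : ℤ) - 1 : ℤ) : ℝ) + 1) ≤ ((2 * RR d lam η + 1 : ℕ) : ℝ) := by
    push_cast
    linarith
  have hρ0 : 0 ≤ (2 * (((RR d lam η : ℤ) - 1 : ℤ) : ℝ) + 1) := by
    have : (1 : ℝ) ≤ (RR d lam η : ℝ) := by exact_mod_cast hR1
    push_cast
    linarith
  have hN : (2 * (((RR d lam η : ℤ) - 1 : ℤ) : ℝ) + 1) ^ d ≤ (lam⁻¹) ^ (4 * d) := by
    rw [pow_mul]
    refine pow_le_pow_left₀ hρ0 (hρ.trans (RR_upper hs hη hη1 hη2)) d
  have hQ0 : 0 ≤ 128 * (s : ℝ) ^ 2 * (1 + PN d M (4 * d + M + 1) K ((lam⁻¹) ^ 2) +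
      (C2 M lam K).toReal) := by
    have h1 := PN_nonneg (d := d) (K := K) hM hZ (one_le_pow₀ ht1 : 1 ≤ (lam⁻¹) ^ 2)
    have h2 := (ENNReal.toReal_nonneg : 0 ≤ (C2 M lam K).toReal)
    positivity
  have hD := Dcost_le (d := d) (M := M) (K := K) (Z := 4 * d + M + 1) hlam hlam1 hl hM hZ hs2.h5
    (pow_nonneg hρ0 d) hN hQ0 hQ2
  have hLL := hbound.trans hD
  have hsm : (Pi.single j s : Site d) = (n + 1) • (Pi.single j 1 : Site d) := by
    rw [hn, ← Pi.single_smul]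
    congr 1
    simp
  rw [hsm, LL_nsmul] at hLL
  push_cast at hLL
  rw [hcastn] at hLL
  have h5 : LL μ M lam K ((E : ℂ) + η * Complex.I) hμ hlam hz0 (Pi.single j 1) ≤
      (34 * d + 10) * ell lam / s := by
    rw [le_div_iff₀ (by linarith), mul_comm]
    exact hLL
  refine h5.trans ?_
  calc (34 * d + 10) * ell lam / s ≤ (34 * d + 10) * ell lam / (s0 d a C / (2 * η)) := by gcongr
    _ = CC d a C * η * ell lam := by
        unfold CC
        field_simp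
        ring

end Pool.Agent.Helper3.Weak
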