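import Pool.Agent.Helper3.Weak.Mass

/-!
# Comparison of the Green function with the free one
-/

open Finset Real Matrix

noncomputable section

namespace Pool.Agent.Helper3.Weak

open Pool.Agent.Helper2.AM

variable {d : ℕ}

lemma Bm_FS (R : ℕ) (F : (Fin d → ℤ) → ℂ) (k : Fin d → Fin (2 * R + 1)) :
    (Bm d R *ᵥ fun x => F (pos R x)) k = (nc d R : ℂ) * FS R F k := by
  unfold FS nc
  rw [mulVec, dotProduct, Finset.mul_sum]
  refine Finset.sum_congr rfl fun x _ => ?_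
  simp only [Bm, of_apply, bv]
  ring

/-- the equation in the modes -/
lemma modes_eq (R : ℕ) (hR : 1 ≤ R) (V : (Fin d → ℤ) → ℝ) (v : (Fin d → Fin (2 * R + 1)) → ℝ)
    (c0 lam E η : ℝ) (hV : ∀ x, V (pos R x) = lam * v x + c0)
    (f : (Fin d → ℤ) → ℂ) (hf : Sup ((R : ℤ) - 1) f) (k : Fin d → Fin (2 * R + 1)) :
    (Bm d R *ᵥ fun x => (schr V f (pos R x) - ((E : ℂ) + η * Complex.I) * f (pos R x))) k =
      (((en (2 * R + 1) k - (E - c0) : ℝ) : ℂ) - η * Complex.I) * (Bm d R *ᵥ fun x => f (pos R x)) k +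
        lam * ∑ x, ((v x : ℝ) : ℂ) * f (pos R x) * bv R x k := by
  have e2 : (Bm d R *ᵥ fun x => (schr V f (pos R x) - E * f (pos R x))) k =
      ((en (2 * R + 1) k - E : ℝ) : ℂ) * (Bm d R *ᵥ fun x => f (pos R x)) k +
        (Bm d R *ᵥ fun x => (V (pos R x) : ℂ) * f (pos R x)) k := by
    rw [Bm_FS R (fun y => schr V f y - E * f y) k, Bm_FS R (fun y => (V y : ℂ) * f y) k,
      FS_schr R hR V E f hf k, Bm_FS R f k]
    ring
  have e3 : (Bm d R *ᵥ fun x => (V (pos R x) : ℂ) * f (pos R x)) k =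
      lam * (∑ x, ((v x : ℝ) : ℂ) * f (pos R x) * bv R x k) +
        c0 * (Bm d R *ᵥ fun x => f (pos R x)) k := by
    simp only [mulVec, dotProduct]
    rw [Finset.mul_sum, Finset.mul_sum, ← Finset.sum_add_distrib]
    refine Finset.sum_congr rfl fun x _ => ?_
    rw [hV]
    simp only [Bm, of_apply]
    push_cast
    ring
  have e1 : (Bm d R *ᵥ fun x => (schr V f (pos R x) - ((E : ℂ) + η * Complex.I) * f (pos R x))) k =
      (Bm d R *ᵥ fun x => (schr V f (pos R x) - E * f (pos R x))) k -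
        η * Complex.I * (Bm d R *ᵥ fun x => f (pos R x)) k := by
    simp only [mulVec, dotProduct]
    rw [Finset.mul_sum, ← Finset.sum_sub_distrib]
    refine Finset.sum_congr rfl fun x _ => ?_
    ring
  rw [e1, e2, e3]
  push_cast
  ring

/-- multiplying by the square root of the weight -/
lemma sqrt_wt_bound (R : ℕ) (E η : ℝ) (hη : 0 < η) (c : (Fin d → Fin (2 * R + 1)) → ℂ) :
    nr (fun k => ((√(wt (en (2 * R + 1) k) E η) : ℝ) : ℂ) * c k) ≤ (√η)⁻¹ * nr c := by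
  apply le_of_sq_le_sq _ (mul_nonneg (by positivity) (nr_nonneg _))
  rw [mul_pow, nr_sq, nr_sq, inv_pow, sq_sqrt hη.le]
  unfold nsq
  rw [Finset.mul_sum]
  refine Finset.sum_le_sum fun k _ => ?_
  rw [norm_mul, mul_pow, Complex.norm_real, Real.norm_eq_abs, sq_abs,
    sq_sqrt (wt_pos _ _ _ hη).le]
  have := wt_le_inv (en (2 * R + 1) k) E η hη
  rw [one_div] at this
  exact mul_le_mul_of_nonneg_right this (by positivity)

lemma sqrt_wt_delta (R : ℕ) (E η W : ℝ) (hη : 0 < η)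
    (hW : (((2 * R + 1 : ℕ) : ℝ) ^ d)⁻¹ *
        ∑ k : Fin d → Fin (2 * R + 1), wt (en (2 * R + 1) k) E η ≤ W) :
    nr (fun k => ((√(wt (en (2 * R + 1) k) E η) : ℝ) : ℂ) * (Bm d R *ᵥ d0 R) k) ≤ √W := by
  apply Real.le_sqrt_of_sq_le
  refine le_trans (le_of_eq ?_) hW
  rw [nr_sq]
  unfold nsq
  rw [Finset.mul_sum]
  refine Finset.sum_congr rfl fun k _ => ?_
  rw [norm_mul, mul_pow, Complex.norm_real, Real.norm_eq_abs, sq_abs,
    sq_sqrt (wt_pos _ _ _ hη).le, Bm_d0, Complex.norm_real, Real.norm_eq_abs, sq_abs, nc_sq]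
  ring

theorem compare (R : ℕ) (hR : 1 ≤ R) (V : (Fin d → ℤ) → ℝ)
    (v : (Fin d → Fin (2 * R + 1)) → ℝ) (c0 lam E η κ W : ℝ) (hη : 0 < η) (hlam : 0 < lam)
    (hκ0 : 0 ≤ κ) (hκ : κ ≤ 1 / 2)
    (hV : ∀ x, V (pos R x) = lam * v x + c0)
    (hX : ∀ u, nsq ((∑ x, ((v x : ℝ) : ℂ) • ro (av R (E - c0) η x)) *ᵥ u) ≤
      (κ / lam) ^ 2 * nsq u)
    (hW : (((2 * R + 1 : ℕ) : ℝ) ^ d)⁻¹ *
        ∑ k : Fin d → Fin (2 * R + 1), wt (en (2 * R + 1) k) (E - c0) η ≤ W)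
    (f φ : (Fin d → ℤ) → ℂ) (hf : Sup ((R : ℤ) - 1) f) (hφ : Sup ((R : ℤ) - 1) φ)
    (g g0 : (Fin d → Fin (2 * R + 1)) → ℂ)
    (hf2 : ∀ x, schr V f (pos R x) - ((E : ℂ) + η * Complex.I) * f (pos R x) = d0 R x + g x)
    (hφ2 : ∀ x, schr (fun _ => 0) φ (pos R x) - (((E - c0 : ℝ) : ℂ) + η * Complex.I) *
      φ (pos R x) = d0 R x + g0 x) :
    nr ((fun x => f (pos R x)) - fun x : Fin d → Fin (2 * R + 1) => φ (pos R x)) ≤
      (√η)⁻¹ * (2 * (κ * √W + (√η)⁻¹ * (nr g + 2 * nr g0))) := by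
  set E0 := E - c0 with hE0
  set w : (Fin d → Fin (2 * R + 1)) → ℝ := fun k => wt (en (2 * R + 1) k) E0 η with hw
  have hwpos : ∀ k, 0 < w k := fun k => wt_pos _ _ _ hη
  have hswpos : ∀ k, 0 < √(w k) := fun k => sqrt_pos.2 (hwpos k)
  have hsw : ∀ k, ((√(w k) : ℝ) : ℂ) ≠ 0 := fun k => by exact_mod_cast (hswpos k).ne'
  have hsw2 : ∀ k, ((√(w k) : ℝ) : ℂ) * ((√(w k) : ℝ) : ℂ) = (w k : ℂ) := by
    intro k
    rw [← Complex.ofReal_mul, mul_self_sqrt (hwpos k).le]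
  set fp : (Fin d → Fin (2 * R + 1)) → ℂ := fun x => f (pos R x) with hfp
  set φp : (Fin d → Fin (2 * R + 1)) → ℂ := fun x => φ (pos R x) with hφp
  -- the two equations in the modes
  have h1 : ∀ k, (((en (2 * R + 1) k - E0 : ℝ) : ℂ) - η * Complex.I) * (Bm d R *ᵥ fp) k =
      (Bm d R *ᵥ d0 R) k + (Bm d R *ᵥ g) k - lam * ∑ x, ((v x : ℝ) : ℂ) * fp x * bv R x k := by
    intro k
    have e := modes_eq R hR V v c0 lam E η hV f hf k
    have e' : (fun x : Fin d → Fin (2 * R + 1) =>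
        (schr V f (pos R x) - ((E : ℂ) + η * Complex.I) * f (pos R x))) = d0 R + g := by
      funext x; rw [hf2 x]; rfl
    rw [e', mulVec_add, Pi.add_apply] at e
    rw [e]
    ring
  have h2 : ∀ k, (((en (2 * R + 1) k - E0 : ℝ) : ℂ) - η * Complex.I) * (Bm d R *ᵥ φp) k =
      (Bm d R *ᵥ d0 R) k + (Bm d R *ᵥ g0) k := by
    intro k
    have e := modes_eq R hR (fun _ => 0) (fun _ => 0) 0 lam E0 η (fun x => by simp) φ hφ k
    have e' : (fun x : Fin d → Fin (2 * R + 1) =>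
        (schr (fun _ => 0) φ (pos R x) - ((E0 : ℂ) + η * Complex.I) * φ (pos R x))) = d0 R + g0 := by
      funext x; rw [hφ2 x]; rfl
    rw [e', mulVec_add, Pi.add_apply] at e
    rw [e]
    simp only [sub_zero, Complex.ofReal_zero, zero_mul, Finset.sum_const_zero, mul_zero, add_zero]
    rfl
  -- the rescaled vectors
  set u : (Fin d → Fin (2 * R + 1)) → ℂ := fun k => (Bm d R *ᵥ fp) k / ((√(w k) : ℝ) : ℂ) with hu
  set u0 : (Fin d → Fin (2 * R + 1)) → ℂ := fun k => (Bm d R *ᵥ φp) k / ((√(w k) : ℝ) : ℂ) with hu0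
  have hswu : ∀ k, ((√(w k) : ℝ) : ℂ) * u k = (Bm d R *ᵥ fp) k := by
    intro k
    rw [hu]
    simp only
    rw [mul_div_cancel₀ _ (hsw k)]
  have hswu0 : ∀ k, ((√(w k) : ℝ) : ℂ) * u0 k = (Bm d R *ᵥ φp) k := by
    intro k
    rw [hu0]
    simp only
    rw [mul_div_cancel₀ _ (hsw k)]
  have hrec : ∀ x, fp x = star (av R E0 η x) ⬝ᵥ u := by
    intro x
    have e1 : star (av R E0 η x) ⬝ᵥ u = ((Bm d R)ᴴ *ᵥ (Bm d R *ᵥ fp)) x := by
      simp only [dotProduct, mulVec, Pi.star_apply, av, star_mul', conjTranspose_apply, Bm,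
        of_apply]
      refine Finset.sum_congr rfl fun k _ => ?_
      have := hswu k
      simp only [mulVec, dotProduct, Bm, of_apply] at this
      rw [← this, Complex.star_def, Complex.conj_ofReal]
      ring
    rw [e1, mulVec_mulVec, Bm_orth, one_mulVec]
  set X : Matrix (Fin d → Fin (2 * R + 1)) (Fin d → Fin (2 * R + 1)) ℂ :=
    ∑ x, ((v x : ℝ) : ℂ) • ro (av R E0 η x) with hXdef
  have hXu : ∀ k, (X *ᵥ u) k = ((√(w k) : ℝ) : ℂ) *
      ∑ x, ((v x : ℝ) : ℂ) * fp x * bv R x k := by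
    intro k
    rw [hXdef, sum_mulVec, Finset.sum_apply, Finset.mul_sum]
    refine Finset.sum_congr rfl fun x _ => ?_
    rw [smul_mulVec, Pi.smul_apply, ro, vecMulVec_mulVec, ← hrec x, op_smul_eq_smul, Pi.smul_apply,
      smul_eq_mul, smul_eq_mul]
    simp only [av]
    ring
  -- the modulus-one factor
  set θ : (Fin d → Fin (2 * R + 1)) → ℂ := fun k =>
    (((en (2 * R + 1) k - E0 : ℝ) : ℂ) - η * Complex.I) * (w k : ℂ) with hθ
  have hθ1 : ∀ k, ‖θ k‖ = 1 := by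
    intro k
    rw [hθ]
    simp only
    have hpos : 0 < (en (2 * R + 1) k - E0) ^ 2 + η ^ 2 := by positivity
    rw [norm_mul, den_norm, Complex.norm_real, Real.norm_eq_abs, abs_of_pos (hwpos k), hw]
    simp only [wt]
    rw [mul_one_div, div_self (sqrt_pos.2 hpos).ne']
  have hθn : ∀ c : (Fin d → Fin (2 * R + 1)) → ℂ, nr (fun k => θ k * c k) = nr c := by
    intro c
    have : nr (fun k => θ k * c k) ^ 2 = nr c ^ 2 := by
      rw [nr_sq, nr_sq]
      unfold nsq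
      refine Finset.sum_congr rfl fun k _ => ?_
      rw [norm_mul, hθ1, one_mul]
    exact (pow_left_inj₀ (nr_nonneg _) (nr_nonneg _) two_ne_zero).1 this
  have h3 : (fun k => θ k * (u - u0) k) =
      ((fun k => ((√(w k) : ℝ) : ℂ) * (Bm d R *ᵥ g) k) -
        (fun k => ((√(w k) : ℝ) : ℂ) * (Bm d R *ᵥ g0) k)) - ((lam : ℝ) : ℂ) • (X *ᵥ u) := by
    funext k
    have e1 := h1 k
    have e2 := h2 k
    rw [← hswu k] at e1
    rw [← hswu0 k] at e2
    rw [Pi.sub_apply, Pi.sub_apply, Pi.sub_apply, Pi.smul_apply, hXu, smul_eq_mul, hθ]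
    simp only
    rw [← hsw2 k]
    linear_combination ((√(w k) : ℝ) : ℂ) * (e1 - e2)
  have h4 : (fun k => θ k * u0 k) =
      (fun k => ((√(w k) : ℝ) : ℂ) * (Bm d R *ᵥ d0 R) k) +
        (fun k => ((√(w k) : ℝ) : ℂ) * (Bm d R *ᵥ g0) k) := by
    funext k
    have e2 := h2 k
    rw [← hswu0 k] at e2
    rw [Pi.add_apply, hθ]
    simp only
    rw [← hsw2 k]
    linear_combination ((√(w k) : ℝ) : ℂ) * e2
  have hXn : nr (X *ᵥ u) ≤ κ / lam * nr u := by
    apply le_of_sq_le_sq _ (by have := nr_nonneg u; positivity)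
    rw [mul_pow, nr_sq, nr_sq]
    exact hX u
  have h5 : nr u0 ≤ √W + (√η)⁻¹ * nr g0 := by
    rw [← hθn u0, h4]
    refine (nr_add_le _ _).trans (add_le_add (sqrt_wt_delta R E0 η W hη hW) ?_)
    refine (sqrt_wt_bound R E0 η hη _).trans (le_of_eq ?_)
    rw [nr_Bm]
  have h6 : nr (u - u0) ≤ (√η)⁻¹ * nr g + (√η)⁻¹ * nr g0 + κ * nr u := by
    rw [← hθn (u - u0), h3]
    refine (nr_sub_le _ _).trans (add_le_add ((nr_sub_le _ _).trans (add_le_add ?_ ?_)) ?_)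
    · refine (sqrt_wt_bound R E0 η hη _).trans (le_of_eq ?_)
      rw [nr_Bm]
    · refine (sqrt_wt_bound R E0 η hη _).trans (le_of_eq ?_)
      rw [nr_Bm]
    · rw [nr_smul lam hlam.le]
      calc lam * nr (X *ᵥ u) ≤ lam * (κ / lam * nr u) := mul_le_mul_of_nonneg_left hXn hlam.le
        _ = κ * nr u := by field_simp
  have h7 : nr u ≤ nr (u - u0) + nr u0 := by
    have : u = (u - u0) + u0 := by abel
    calc nr u = nr ((u - u0) + u0) := by rw [← this]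
      _ ≤ _ := nr_add_le _ _
  have h8 : nr (u - u0) ≤ 2 * (κ * √W + (√η)⁻¹ * (nr g + 2 * nr g0)) := by
    have hn1 := nr_nonneg (u - u0)
    have hn2 := nr_nonneg u0
    have hn3 : 0 ≤ (√η)⁻¹ * nr g0 := mul_nonneg (by positivity) (nr_nonneg _)
    have h9 : κ * nr u ≤ 1 / 2 * nr (u - u0) + κ * (√W + (√η)⁻¹ * nr g0) := by
      calc κ * nr u ≤ κ * (nr (u - u0) + nr u0) := mul_le_mul_of_nonneg_left h7 hκ0
        _ = κ * nr (u - u0) + κ * nr u0 := by ring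
        _ ≤ 1 / 2 * nr (u - u0) + κ * (√W + (√η)⁻¹ * nr g0) := by gcongr
    have h10 : κ * ((√η)⁻¹ * nr g0) ≤ 1 / 2 * ((√η)⁻¹ * nr g0) := by gcongr
    nlinarith
  have h9 : nr (fp - φp) ≤ (√η)⁻¹ * nr (u - u0) := by
    have e : Bm d R *ᵥ (fp - φp) = fun k => ((√(w k) : ℝ) : ℂ) * (u - u0) k := by
      rw [mulVec_sub]
      funext k
      rw [Pi.sub_apply, Pi.sub_apply, ← hswu k, ← hswu0 k]
      ring
    rw [← nr_Bm, e]
    exact sqrt_wt_bound R E0 η hη _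
  exact h9.trans (mul_le_mul_of_nonneg_left h8 (by positivity))

end Pool.Agent.Helper3.Weak
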