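import Pool.Agent.Helper2.AM.Diag

/-!
# Lower bounds for the number of modes near an energy
-/

open Finset Real

noncomputable section

namespace Pool.Agent.Helper3.Weak

open Pool.Agent.Helper2.AM

/-- one-dimensional count from below -/
lemma count_low (L : ℕ) (hL : 3 ≤ L) (α t : ℝ) (hα0 : 0 ≤ α) (hα4 : α ≤ 4) (_ht0 : 0 ≤ t) (htπ : t ≤ π)
    (htL : 8 * π ≤ t * L) :
    t * L / (8 * π) ≤ ((univ.filter fun k : Fin L => |2 - 2 * cos (th L k) - α| ≤ t).card : ℝ) := by
  have hL0 : (0 : ℝ) < L := by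
    have : 0 < L := by omega
    exact_mod_cast this
  have hL3 : (3 : ℝ) ≤ L := by exact_mod_cast hL
  have hπ := pi_pos
  set T := arccos (1 - α / 2) with hT
  have hT0 : 0 ≤ T := arccos_nonneg _
  have hTπ : T ≤ π := arccos_le_pi _
  have hcT : cos T = 1 - α / 2 := cos_arccos (by linarith) (by linarith)
  set A : ℝ := T * L / (2 * π) - 1 / 4 with hA
  set ℓ : ℝ := t * L / (4 * π) with hℓ
  have hA0 : -(1 / 4) ≤ A := by
    have : 0 ≤ T * L / (2 * π) := by positivity
    linarith
  have hℓ2 : 2 ≤ ℓ := by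
    rw [hℓ, le_div_iff₀ (by positivity)]; linarith
  have hAℓ : A + ℓ ≤ L - 1 := by
    have h1 : A + ℓ ≤ π * L / (2 * π) - 1 / 4 + π * L / (4 * π) := by
      have h2 : T * L / (2 * π) ≤ π * L / (2 * π) := by gcongr
      have h3 : t * L / (4 * π) ≤ π * L / (4 * π) := by gcongr
      rw [hA, hℓ]; linarith
    have h2 : π * L / (2 * π) = L / 2 := by field_simp
    have h3 : π * L / (4 * π) = L / 4 := by field_simp
    rw [h2, h3] at h1
    linarith
  -- the integers in the window
  have hsub : Finset.Icc ⌈A⌉₊ ⌊A + ℓ⌋₊ ⊆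
      (univ.filter fun k : Fin L => |2 - 2 * cos (th L k) - α| ≤ t).image (fun k : Fin L => (k : ℕ)) := by
    intro n hn
    rw [Finset.mem_Icc] at hn
    have hn1 : A ≤ n := (Nat.le_ceil A).trans (by exact_mod_cast hn.1)
    have hn2 : (n : ℝ) ≤ A + ℓ := by
      have h1 : (n : ℝ) ≤ ⌊A + ℓ⌋₊ := by exact_mod_cast hn.2
      exact h1.trans (Nat.floor_le (by linarith))
    have hnL : n < L := by
      have : (n : ℝ) ≤ L - 1 := hn2.trans hAℓ
      have h2 : (n : ℝ) < L := by linarith
      exact_mod_cast h2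
    refine Finset.mem_image.2 ⟨⟨n, hnL⟩, ?_, rfl⟩
    rw [Finset.mem_filter]
    refine ⟨mem_univ _, ?_⟩
    have hth : th L ⟨n, hnL⟩ = 2 * π * ((n : ℝ) + 1 / 4) / L := rfl
    have h1 : T ≤ th L ⟨n, hnL⟩ := by
      rw [hth, le_div_iff₀ hL0]
      have : T * L / (2 * π) ≤ n + 1 / 4 := by linarith
      rw [div_le_iff₀ (by positivity)] at this
      linarith
    have h2 : th L ⟨n, hnL⟩ ≤ T + t / 2 := by
      rw [hth, div_le_iff₀ hL0]
      have h3 : (n : ℝ) + 1 / 4 ≤ T * L / (2 * π) + t * L / (4 * π) := by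
        rw [hA, hℓ] at hn2; linarith
      have h4 : T * L / (2 * π) + t * L / (4 * π) = (T + t / 2) * L / (2 * π) := by
        field_simp; ring
      rw [h4, le_div_iff₀ (by positivity)] at h3
      linarith
    have h5 : |cos (th L ⟨n, hnL⟩) - cos T| ≤ |th L ⟨n, hnL⟩ - T| := by
      have := Real.abs_cos_sub_cos_le (th L ⟨n, hnL⟩) T
      exact this
    have h6 : |th L ⟨n, hnL⟩ - T| ≤ t / 2 := by
      rw [abs_of_nonneg (by linarith)]; linarith
    have h7 : 2 - 2 * cos (th L ⟨n, hnL⟩) - α = -2 * (cos (th L ⟨n, hnL⟩) - cos T) := by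
      rw [hcT]; ring
    rw [h7, abs_mul, abs_neg, abs_two]
    linarith
  have hcard : (Finset.Icc ⌈A⌉₊ ⌊A + ℓ⌋₊).card ≤
      (univ.filter fun k : Fin L => |2 - 2 * cos (th L k) - α| ≤ t).card :=
    (Finset.card_le_card hsub).trans Finset.card_image_le
  have h1 : ℓ - 1 ≤ ((Finset.Icc ⌈A⌉₊ ⌊A + ℓ⌋₊).card : ℝ) := by
    rw [Nat.card_Icc]
    have h2 : (⌈A⌉₊ : ℝ) ≤ A + 1 := by
      rcases le_or_gt 0 A with h | h
      · exact (Nat.ceil_lt_add_one h).le
      · rw [Nat.ceil_eq_zero.2 h.le]; push_cast; linarith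
    have h3 : A + ℓ < ⌊A + ℓ⌋₊ + 1 := Nat.lt_floor_add_one _
    have h4 : ((⌊A + ℓ⌋₊ + 1 - ⌈A⌉₊ : ℕ) : ℝ) ≥ (⌊A + ℓ⌋₊ : ℝ) + 1 - ⌈A⌉₊ := by
      have : ((⌊A + ℓ⌋₊ + 1 : ℕ) : ℝ) ≤ ((⌊A + ℓ⌋₊ + 1 - ⌈A⌉₊ : ℕ) : ℝ) + ⌈A⌉₊ := by
        have h5 : ⌊A + ℓ⌋₊ + 1 ≤ (⌊A + ℓ⌋₊ + 1 - ⌈A⌉₊) + ⌈A⌉₊ := by omega
        exact_mod_cast h5
      push_cast at this
      linarith
    linarith
  have h2 : t * L / (8 * π) = ℓ / 2 := by rw [hℓ]; field_simp; ring
  have h3 : ((Finset.Icc ⌈A⌉₊ ⌊A + ℓ⌋₊).card : ℝ) ≤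
      ((univ.filter fun k : Fin L => |2 - 2 * cos (th L k) - α| ≤ t).card : ℝ) := by
    exact_mod_cast hcard
  rw [h2]
  linarith

/-- averaging over one coordinate -/
lemma sum_update {d L : ℕ} (j : Fin d) (f : (Fin d → Fin L) → ℝ) :
    ∑ k : Fin d → Fin L, ∑ t : Fin L, f (Function.update k j t) = L * ∑ k, f k := by
  have h1 : ∑ k : Fin d → Fin L, ∑ t : Fin L, f (Function.update k j t)
      = ∑ p : (Fin d → Fin L) × Fin L, f (Function.update p.1 j p.2) := by
    rw [← Finset.univ_product_univ, Finset.sum_product]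
  have h2 : ∑ p : (Fin d → Fin L) × Fin L, f (Function.update p.1 j p.2)
      = ∑ p : (Fin d → Fin L) × Fin L, f p.1 := by
    let e : (Fin d → Fin L) × Fin L ≃ (Fin d → Fin L) × Fin L :=
      { toFun := fun p => (Function.update p.1 j p.2, p.1 j)
        invFun := fun p => (Function.update p.1 j p.2, p.1 j)
        left_inv := by
          rintro ⟨k, t⟩
          simp
        right_inv := by
          rintro ⟨k, t⟩
          simp }
    exact e.sum_comp (fun p => f p.1)
  rw [h1, h2, ← Finset.univ_product_univ, Finset.sum_product]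
  simp only [Finset.sum_const, card_univ, Fintype.card_fin, nsmul_eq_mul]
  rw [← Finset.mul_sum]

/-- The modes near the energy `E` whose `j`-th coordinate is not critical. -/
def shell (d L : ℕ) (j : Fin d) (E η b : ℝ) : Finset (Fin d → Fin L) :=
  univ.filter fun k => |en L k - E| ≤ η ∧ b ≤ 2 - 2 * cos (th L (k j)) ∧
    2 - 2 * cos (th L (k j)) ≤ 4 - b

lemma shell_card (d L : ℕ) (hL : 3 ≤ L) (j : Fin d) (E η a : ℝ) (ha : 0 < a) (ha1 : a ≤ d)
    (hE1 : a ≤ E) (hE2 : E ≤ 4 * d - a) (hη : 0 < η) (hη1 : η ≤ a / (4 * d))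
    (hηL : 8 * π ≤ η * L) (hδL : 8 * π ≤ a / (2 * d ^ 2) * L) :
    (a / (16 * π * d ^ 2)) ^ (d - 1) * (η / (8 * π)) * (L : ℝ) ^ d ≤
      ((shell d L j E η (a / (4 * d))).card : ℝ) := by
  classical
  have hd : 0 < d := Fin.pos j
  have hd0 : (0 : ℝ) < d := by exact_mod_cast hd
  have hd1 : (1 : ℝ) ≤ d := by exact_mod_cast hd
  have hπ := pi_pos
  have hπ3 := pi_gt_three
  have hL0 : (0 : ℝ) < L := by
    have : 0 < L := by omega
    exact_mod_cast this
  set α := E / d with hα
  set δ := a / (2 * d ^ 2) with hδ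
  have hEα : E = d * α := by rw [hα]; field_simp
  have had : 0 < a / d := by positivity
  have had1 : a / d ≤ 1 := by rw [div_le_one hd0]; exact ha1
  have hα1 : a / d ≤ α := by rw [hα]; gcongr
  have hα2 : α ≤ 4 - a / d := by
    rw [hα, div_le_iff₀ hd0]
    have : (4 - a / d) * d = 4 * d - a := by field_simp
    linarith
  have hδ0 : 0 < δ := by positivity
  have hhalf : a / (2 * d) = (a / d) / 2 := by field_simp
  have hquart : a / (4 * d) = (a / d) / 4 := by field_simp
  have hδd : (d - 1) * δ ≤ a / (2 * d) := by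
    have : a / (2 * d) = d * δ := by rw [hδ]; field_simp
    rw [this]; nlinarith
  have hδ1 : δ ≤ π := by
    have h1 : δ ≤ a / d := by
      rw [hδ, div_le_div_iff₀ (by positivity) hd0]
      nlinarith [mul_pos ha hd0, mul_nonneg (mul_pos ha hd0).le (by linarith : (0:ℝ) ≤ d - 1)]
    linarith
  -- good coordinates
  set G : Finset (Fin L) := univ.filter fun k : Fin L => |2 - 2 * cos (th L k) - α| ≤ δ with hG
  have hGc : δ * L / (8 * π) ≤ (G.card : ℝ) :=
    count_low L hL α δ (by linarith) (by linarith) hδ0.le hδ1 hδL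
  set S := shell d L j E η (a / (4 * d)) with hS
  set P : Finset (Fin d → Fin L) := Fintype.piFinset fun i => if i = j then univ else G with hP
  have hPc : (P.card : ℝ) = L * (G.card : ℝ) ^ (d - 1) := by
    rw [hP, Fintype.card_piFinset, ← Finset.mul_prod_erase univ _ (mem_univ j)]
    rw [if_pos rfl, card_univ, Fintype.card_fin]
    rw [Finset.prod_congr rfl (g := fun _ => G.card)
      (fun i hi => by rw [if_neg (Finset.ne_of_mem_erase hi)])]
    rw [Finset.prod_const, Finset.card_erase_of_mem (mem_univ j), card_univ, Fintype.card_fin]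
    push_cast
    ring
  have hmain : ∀ k ∈ P, η * L / (8 * π) ≤
      ∑ t : Fin L, (if Function.update k j t ∈ S then (1 : ℝ) else 0) := by
    intro k hk
    have hk' : ∀ i, i ≠ j → |2 - 2 * cos (th L (k i)) - α| ≤ δ := by
      intro i hi
      have := (Fintype.mem_piFinset.1 hk) i
      rw [if_neg hi, hG, Finset.mem_filter] at this
      exact this.2
    set E' := E - ∑ i ∈ univ.erase j, (2 - 2 * cos (th L (k i))) with hE'
    have hE'α : |E' - α| ≤ a / (2 * d) := by
      have h1 : E' - α = -∑ i ∈ univ.erase j, (2 - 2 * cos (th L (k i)) - α) := by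
        rw [Finset.sum_sub_distrib, Finset.sum_const, Finset.card_erase_of_mem (mem_univ j),
          card_univ, Fintype.card_fin, nsmul_eq_mul, hE', hEα, Nat.cast_sub hd]
        push_cast
        ring
      rw [h1, abs_neg]
      refine (Finset.abs_sum_le_sum_abs _ _).trans ?_
      refine (Finset.sum_le_sum (g := fun _ => δ) fun i hi =>
        hk' i (Finset.ne_of_mem_erase hi)).trans ?_
      rw [Finset.sum_const, Finset.card_erase_of_mem (mem_univ j), card_univ, Fintype.card_fin,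
        nsmul_eq_mul, Nat.cast_sub hd]
      push_cast
      exact hδd
    have h2 := abs_le.1 hE'α
    rw [hhalf] at h2
    have hc := count_low L hL E' η (by linarith) (by linarith) hη.le (by linarith [hη1, hquart]) hηL
    refine hc.trans ?_
    rw [Finset.sum_ite, Finset.sum_const_zero, add_zero, Finset.sum_const, nsmul_eq_mul, mul_one]
    have h3 : (univ.filter fun t : Fin L => |2 - 2 * cos (th L t) - E'| ≤ η).card ≤
        (univ.filter fun t : Fin L => Function.update k j t ∈ S).card := by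
      refine Finset.card_le_card fun t ht => ?_
      rw [Finset.mem_filter] at ht ⊢
      refine ⟨mem_univ _, ?_⟩
      have ht2 := abs_le.1 ht.2
      rw [hquart] at hη1
      rw [hS, shell, Finset.mem_filter]
      simp only [Function.update_self]
      refine ⟨mem_univ _, ?_, ?_, ?_⟩
      · have h5 : en L (Function.update k j t) - E = 2 - 2 * cos (th L t) - E' := by
          unfold en
          rw [← Finset.add_sum_erase univ _ (mem_univ j), Function.update_self,
            Finset.sum_congr rfl (g := fun i => 2 - 2 * cos (th L (k i)))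
              (fun i hi => by rw [Function.update_of_ne (Finset.ne_of_mem_erase hi)]), hE']
          ring
        rw [h5]; exact ht.2
      · rw [hquart]; linarith
      · rw [hquart]; linarith
    exact_mod_cast h3
  have hsum : (P.card : ℝ) * (η * L / (8 * π)) ≤ L * (S.card : ℝ) := by
    calc (P.card : ℝ) * (η * L / (8 * π)) = ∑ _k ∈ P, η * L / (8 * π) := by
          rw [Finset.sum_const, nsmul_eq_mul]
      _ ≤ ∑ k ∈ P, ∑ t : Fin L, (if Function.update k j t ∈ S then (1 : ℝ) else 0) :=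
          Finset.sum_le_sum hmain
      _ ≤ ∑ k, ∑ t : Fin L, (if Function.update k j t ∈ S then (1 : ℝ) else 0) := by
          refine Finset.sum_le_univ_sum_of_nonneg fun k => ?_
          exact Finset.sum_nonneg fun t _ => by split_ifs <;> norm_num
      _ = L * ∑ k, (if k ∈ S then (1 : ℝ) else 0) :=
          sum_update j (fun k => if k ∈ S then (1 : ℝ) else 0)
      _ = L * (S.card : ℝ) := by
          rw [Finset.sum_ite_mem, Finset.univ_inter, Finset.sum_const, nsmul_eq_mul, mul_one]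
  rw [hPc] at hsum
  have h6 : (G.card : ℝ) ^ (d - 1) * (η * L / (8 * π)) ≤ (S.card : ℝ) := by
    have : L * ((G.card : ℝ) ^ (d - 1) * (η * L / (8 * π))) ≤ L * (S.card : ℝ) := by
      linarith
    exact le_of_mul_le_mul_left this hL0
  refine le_trans ?_ h6
  have h7 : (δ * L / (8 * π)) ^ (d - 1) ≤ (G.card : ℝ) ^ (d - 1) :=
    pow_le_pow_left₀ (by positivity) hGc _
  have h8 : (a / (16 * π * d ^ 2)) ^ (d - 1) * (η / (8 * π)) * (L : ℝ) ^ d
      = (δ * L / (8 * π)) ^ (d - 1) * (η * L / (8 * π)) := by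
    have e1 : δ * L / (8 * π) = a / (16 * π * d ^ 2) * L := by
      rw [hδ]; field_simp; ring
    have e2 : (L : ℝ) ^ d = L ^ (d - 1) * L := by
      rw [← pow_succ]; congr 1; omega
    rw [e1, mul_pow, e2]
    ring
  rw [h8]
  exact mul_le_mul_of_nonneg_right h7 (by positivity)

end Pool.Agent.Helper3.Weak
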