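import Pool.Agent.Helper3.Weak.Local
import Pool.Agent.Helper3.Weak.Chain
import Pool.Agent.Helper2.AM.Prob

/-!
# The bad event of a box
-/

open scoped ENNReal NNReal
open MeasureTheory Set Real Filter Topology ProbabilityTheory Matrix

noncomputable section

namespace Pool.Agent.Helper3.Weak

open Pool.Agent.Helper3.Anderson
open Pool.Agent.Helper2.AM (pos en wt nsq ro av IIDPotential mean Xs bad prob_bad)

variable {d : ℕ}

/-- The conditions on the parameters of the local lower bound. -/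
structure LocHyp (d R : ℕ) (E0 η κ W a T C : ℝ) : Prop where
  hR : 1 ≤ R
  hd : 0 < d
  ha : 0 < a
  ha1 : a ≤ d
  hE1 : a ≤ E0
  hE2 : E0 ≤ 4 * d - a
  hη : 0 < η
  hη1 : η ≤ a / (4 * d)
  hηL : 8 * π ≤ η * (2 * R + 1 : ℕ)
  hδL : 8 * π ≤ a / (2 * d ^ 2) * (2 * R + 1 : ℕ)
  hη2 : 2 * η ≤ √(a / (4 * d) / 2)
  hη3 : 2 * η ≤ 1
  hC : 0 ≤ C
  hcount : ∀ t, η ≤ t → ((Finset.univ.filter fun k : Fin d → Fin (2 * R + 1) =>
    |en (2 * R + 1) k - E0| ≤ t).card : ℝ) ≤ C * t * ((2 * R + 1 : ℕ) : ℝ) ^ d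
  hκ0 : 0 < κ
  hκ : κ ≤ 1 / 2
  hW0 : 0 ≤ W
  hW : (((2 * R + 1 : ℕ) : ℝ) ^ d)⁻¹ *
      ∑ k : Fin d → Fin (2 * R + 1), wt (en (2 * R + 1) k) E0 η ≤ W
  hκW : 8 * (κ * √W) ≤ c1 d a
  hB1 : 24 * ((√η)⁻¹ * (√(((2 * R + 1 : ℕ) : ℝ) ^ d) * (2 * d * Bfar η R))) ≤ c1 d a
  hB2 : √(((2 * R + 1 : ℕ) : ℝ) ^ d) * (2 * d * Bfar η R) ≤ 1 / 4 * √(cD d a * η)
  hT0 : 0 ≤ T
  hT : (2 * η * T) ^ 2 * (16 * C + 3) ≤ cD d a / 8

variable {μ : Measure ℝ} [IsProbabilityMeasure μ] {M lam : ℝ} {K : ℝ≥0}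

lemma iidPotential (hμ : GoodLaw μ M K) :
    IIDPotential (PP d μ) M (fun (x : Site d) (ω : Site d → ℝ) => ω x) where
  indep := iIndepFun_infinitePi (P := fun _ : Site d => μ) (X := fun _ ω => ω)
    (fun _ => measurable_id)
  ident := by
    intro x
    refine ⟨(measurable_pi_apply x).aemeasurable, (measurable_pi_apply 0).aemeasurable, ?_⟩
    have h1 : (PP d μ).map (fun ω => ω x) = μ := Measure.infinitePi_map_eval (fun _ => μ) x
    have h2 : (PP d μ).map (fun ω => ω 0) = μ := Measure.infinitePi_map_eval (fun _ => μ) 0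
    rw [h1, h2]
  bdd := by
    intro x
    filter_upwards [ae_bdd (d := d) hμ.supp] with ω hω
    exact hω x

lemma mean_eq : mean (PP d μ) (fun (x : Site d) (ω : Site d → ℝ) => ω x) = ∫ t, t ∂μ := by
  unfold mean
  have h2 : (PP d μ).map (fun ω => ω 0) = μ := Measure.infinitePi_map_eval (fun _ => μ) 0
  conv_rhs => rw [← h2]
  rw [integral_map (measurable_pi_apply 0).aemeasurable (by fun_prop)]

/-- the logarithmic cost of a local step -/
def Lam (d R : ℕ) (a η : ℝ) : ℝ :=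
  posLog (1 / √(c1 d a ^ 2 / (4 * η * ((2 * R + 1 : ℕ) : ℝ) ^ d)))

theorem bad_event (hμ : GoodLaw μ M K) (hlam : 0 < lam) (j : Fin d) (R : ℕ) (E E0 η κ W a C : ℝ)
    (s : ℤ) (hE0 : E0 = E - lam * ∫ t, t ∂μ) (h : LocHyp d R E0 η κ W a s C) (p : ℕ) (hp : p ≠ 0)
    (y : Site d) :
    ∃ B : Set (Site d → ℝ), MeasurableSet B ∧
      (PP d μ).real B ≤ (64 * p * M ^ 2 * W * (lam / (2 * κ)) ^ 2 / η) ^ p *
        ((2 * R + 1 : ℕ) : ℝ) ^ d ∧
      ∀ᵐ ω ∂(PP d μ), ω ∉ B → ∀ σ : Fin d → ℤˣ, σ j = 1 → ∃ x : Site d,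
      (∀ l, |x l| ≤ (R : ℤ) - 1) ∧ s ≤ x j ∧ (∀ l, 0 ≤ (σ l : ℤ) * x l) ∧
        pl M lam ((E : ℂ) + η * Complex.I) ω (y + x) y ≤ Lam d R a η := by
  have hM : 0 ≤ M := by linarith [hμ.one_le]
  have hη := h.hη
  have hκ0 := h.hκ0
  have hW0 := h.hW0
  have ha := h.ha
  have hlam' : 0 < lam / (2 * κ) := by positivity
  set m : ℝ := ∫ t, t ∂μ with hm
  set X : Site d → (Site d → ℝ) → ℝ := fun x ω => ω x with hX
  have hiid : IIDPotential (PP d μ) M X := iidPotential hμ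
  have hmean : mean (PP d μ) X = m := mean_eq
  set Bd : Set (Site d → ℝ) := bad (PP d μ) X R E0 η (lam / (2 * κ)) y with hBd
  have hprob := prob_bad hiid R E0 η (lam / (2 * κ)) hη hlam' y p hp W hW0 h.hW
  refine ⟨toMeasurable (PP d μ) Bd, measurableSet_toMeasurable _ _, ?_, ?_⟩
  · rw [measureReal_def, measure_toMeasurable]
    exact ENNReal.toReal_le_of_le_ofReal (by positivity) hprob
  · filter_upwards [ae_bdd (d := d) hμ.supp] with ω hω hB σ hσj
    have hnb : ω ∉ Bd := fun hmem => hB (subset_toMeasurable _ _ hmem)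
    have hXn : ∀ u, nsq (Xs (PP d μ) X R E0 η y ω *ᵥ u) ≤ (κ / lam) ^ 2 * nsq u := by
      intro u
      have h1 : ¬ ∃ u, (1 / (2 * (lam / (2 * κ)))) ^ 2 * nsq u <
        nsq (Xs (PP d μ) X R E0 η y ω *ᵥ u) := hnb
      push Not at h1
      have h2 : 1 / (2 * (lam / (2 * κ))) = κ / lam := by field_simp
      rw [← h2]
      exact h1 u
    have hpv : ∀ x : Fin d → Fin (2 * R + 1), potc M lam (tr y ω) (pos R x) =
        lam * (ω (y + pos R x) - m) + lam * m := by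
      intro x
      unfold potc tr
      rw [clip_of_abs_le (hω _), add_comm (pos R x) y]
      ring
    have hE1 := h.hE1
    have hE2 := h.hE2
    have hcount := h.hcount
    have hW := h.hW
    rw [hE0] at hE1 hE2 hcount hW
    have hXn' : ∀ u, nsq ((∑ x : Fin d → Fin (2 * R + 1), ((ω (y + pos R x) - m : ℝ) : ℂ) •
        ro (av R (E - lam * m) η x)) *ᵥ u) ≤ (κ / lam) ^ 2 * nsq u := by
      intro u
      have h3 := hXn u
      unfold Xs at h3
      rw [hmean, hE0] at h3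
      exact h3
    obtain ⟨x, hx1, hx2, hx3, hx4⟩ := local_det R h.hR (potc M lam (tr y ω)) (bdd_potc hM _)
      (fun x => ω (y + pos R x) - m) (lam * m) lam E η κ W a s C j ha h.ha1 hE1 hE2 hη h.hη1
      h.hηL h.hδL h.hη2 h.hη3 h.hC hcount hlam hκ0.le h.hκ hpv hXn' hW h.hκW h.hB1 h.hB2
      h.hT0 h.hT σ
    refine ⟨x, hx3, ?_, hx2, ?_⟩
    · rw [hσj] at hx1
      simp only [Units.val_one, one_mul] at hx1
      exact_mod_cast hx1
    · have hz0 : 0 < ((E : ℂ) + η * Complex.I).im := by simpa using hη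
      have h4 : green (potc M lam (tr y ω)) ((E : ℂ) + η * Complex.I) x 0 =
          gc M lam ((E : ℂ) + η * Complex.I) ω (y + x) y := by
        have := gc_tr (lam := lam) hM hz0 y ω x 0
        rw [zero_add, add_comm x y] at this
        exact this
      rw [h4] at hx4
      have hc1 := c1_pos h.hd ha
      set c := c1 d a ^ 2 / (4 * η * ((2 * R + 1 : ℕ) : ℝ) ^ d) with hc
      have hc0 : 0 < c := by rw [hc]; positivity
      have h5 : √c ≤ ‖gc M lam ((E : ℂ) + η * Complex.I) ω (y + x) y‖ := by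
        rw [Real.sqrt_le_left (norm_nonneg _)]
        exact hx4
      have h6 : 0 < √c := Real.sqrt_pos.2 hc0
      unfold pl Lam
      apply posLog_le_posLog (by positivity)
      rw [one_div]
      exact inv_anti₀ h6 h5

end Pool.Agent.Helper3.Weak
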