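import Pool.Agent.Helper3.Weak.Shift

/-!
# The free resolvent in the modes
-/

open Finset Real Matrix

noncomputable section

namespace Pool.Agent.Helper3.Weak

open Pool.Agent.Helper2.AM

variable {d : ℕ}

/-- The free resolvent in the modes. -/
def Fr {d : ℕ} (R : ℕ) (E η : ℝ) (k : Fin d → Fin (2 * R + 1)) : ℂ :=
  (((en (2 * R + 1) k - E : ℝ) : ℂ) - η * Complex.I)⁻¹

lemma den_norm (x η : ℝ) : ‖((x : ℝ) : ℂ) - η * Complex.I‖ = √(x ^ 2 + η ^ 2) := by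
  have e : (((x : ℝ) : ℂ) - η * Complex.I) = ((x : ℝ) : ℂ) + ((-η : ℝ) : ℂ) * Complex.I := by
    push_cast; ring
  rw [e, Complex.norm_add_mul_I, neg_sq]

lemma den_ne (x : ℝ) {η : ℝ} (hη : 0 < η) : ((x : ℝ) : ℂ) - η * Complex.I ≠ 0 := by
  rw [← norm_pos_iff, den_norm]
  positivity

lemma norm_Fr (R : ℕ) (E η : ℝ) (k : Fin d → Fin (2 * R + 1)) :
    ‖Fr R E η k‖ = wt (en (2 * R + 1) k) E η := by
  unfold Fr wt
  rw [norm_inv, den_norm, one_div]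

lemma en_sub (R : ℕ) (j : Fin d) (k : Fin d → Fin (2 * R + 1)) (m : Fin (2 * R + 1)) :
    en (2 * R + 1) k - en (2 * R + 1) (shm j m k) =
      2 * cos (th (2 * R + 1) (k j) - 2 * π * (m : ℕ) / (2 * R + 1 : ℕ)) -
        2 * cos (th (2 * R + 1) (k j)) := by
  set k' : Fin d → Fin (2 * R + 1) := shm j m k with hk'
  unfold en
  rw [← Finset.add_sum_erase univ (fun i => 2 - 2 * cos (th (2 * R + 1) (k i))) (mem_univ j),
    ← Finset.add_sum_erase univ (fun i => 2 - 2 * cos (th (2 * R + 1) (k' i))) (mem_univ j)]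
  have hcongr : ∑ i ∈ univ.erase j, (2 - 2 * cos (th (2 * R + 1) (k' i))) =
      ∑ i ∈ univ.erase j, (2 - 2 * cos (th (2 * R + 1) (k i))) := by
    refine Finset.sum_congr rfl fun i hi => ?_
    rw [hk', shm, Pi.sub_apply, Pi.single_eq_of_ne (Finset.ne_of_mem_erase hi), sub_zero]
  rw [hcongr]
  obtain ⟨t, ht⟩ := th_sub (2 * R + 1) (k j) m
  have hj : k' j = k j - m := by rw [hk', shm, Pi.sub_apply, Pi.single_eq_same]
  simp only [hj]
  rw [ht, show th (2 * R + 1) (k j) - 2 * π * (m : ℕ) / (2 * R + 1 : ℕ) + 2 * π * t =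
    th (2 * R + 1) (k j) - 2 * π * (m : ℕ) / (2 * R + 1 : ℕ) + t * (2 * π) by ring,
    Real.cos_add_int_mul_two_pi]
  ring

lemma sin_sq_of (θ b : ℝ) (_hb : 0 ≤ b) (hb2 : b ≤ 2) (h1 : b ≤ 2 - 2 * cos θ)
    (h2 : 2 - 2 * cos θ ≤ 4 - b) : b / 2 ≤ sin θ ^ 2 := by
  have h3 := Real.sin_sq_add_cos_sq θ
  nlinarith

lemma cos_diff_lower (θ q b : ℝ) (hb : 0 ≤ b) (hb2 : b ≤ 2) (h1 : b ≤ 2 - 2 * cos θ)
    (h2 : 2 - 2 * cos θ ≤ 4 - b) (hq0 : 0 ≤ q) (hq : q ≤ √(b / 2)) (hq1 : q ≤ 1) :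
    2 * √(b / 2) * q / π ≤ |2 * cos (θ - q) - 2 * cos θ| := by
  have hπ := pi_pos
  have hπ3 := pi_gt_three
  have e1 : 2 * cos (θ - q) - 2 * cos θ = 4 * (sin (θ - q / 2) * sin (q / 2)) := by
    have := Real.cos_sub_cos (θ - q) θ
    have e2 : (θ - q + θ) / 2 = θ - q / 2 := by ring
    have e3 : (θ - q - θ) / 2 = -(q / 2) := by ring
    rw [e2, e3, sin_neg] at this
    linarith
  have h3 : √(b / 2) ≤ |sin θ| := by
    rw [← Real.sqrt_sq_eq_abs]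
    exact Real.sqrt_le_sqrt (sin_sq_of θ b hb hb2 h1 h2)
  have h4 : |sin θ| - q / 2 ≤ |sin (θ - q / 2)| := by
    have h5 : |sin θ - sin (θ - q / 2)| ≤ |θ - (θ - q / 2)| := Real.abs_sin_sub_sin_le _ _
    have h6 : |θ - (θ - q / 2)| = q / 2 := by
      rw [show θ - (θ - q / 2) = q / 2 by ring, abs_of_nonneg (by linarith)]
    have h7 := abs_sub_abs_le_abs_sub (sin θ) (sin (θ - q / 2))
    linarith
  have h5 : q / π ≤ sin (q / 2) := by
    have := Real.mul_le_sin (x := q / 2) (by linarith) (by linarith)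
    refine le_trans (le_of_eq ?_) this
    field_simp
  have h6 : √(b / 2) / 2 ≤ |sin (θ - q / 2)| := by linarith
  have h7 : 0 ≤ q / π := by positivity
  rw [e1, abs_mul, abs_mul, abs_of_pos (by norm_num : (0 : ℝ) < 4),
    abs_of_nonneg (h7.trans h5)]
  have h8 : √(b / 2) / 2 * (q / π) ≤ |sin (θ - q / 2)| * sin (q / 2) :=
    mul_le_mul h6 h5 h7 (abs_nonneg _)
  calc 2 * √(b / 2) * q / π = 4 * (√(b / 2) / 2 * (q / π)) := by ring
    _ ≤ _ := by linarith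

lemma cos_diff_upper (θ q : ℝ) (hq0 : 0 ≤ q) : |2 * cos (θ - q) - 2 * cos θ| ≤ 2 * q := by
  have h := Real.abs_cos_sub_cos_le (θ - q) θ
  rw [show θ - q - θ = -q by ring, abs_neg, abs_of_nonneg hq0] at h
  rw [← mul_sub, abs_mul, abs_two]
  linarith

/-- The difference of the free resolvent at two neighbouring modes on the shell. -/
lemma Fr_diff (R : ℕ) (j : Fin d) (E η b : ℝ) (hη : 0 < η) (hb : 0 < b) (hb2 : b ≤ 2)
    (m : Fin (2 * R + 1)) (hq1 : η ≤ 2 * π * (m : ℕ) / (2 * R + 1 : ℕ))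
    (hq2 : 2 * π * (m : ℕ) / (2 * R + 1 : ℕ) ≤ 2 * η) (hη1 : 2 * η ≤ √(b / 2)) (hη2 : 2 * η ≤ 1)
    (k : Fin d → Fin (2 * R + 1)) (hk : k ∈ shell d (2 * R + 1) j E η b) :
    b / (72 * π ^ 2 * η ^ 2) ≤ ‖Fr R E η (shm j m k) - Fr R E η k‖ ^ 2 := by
  have hπ := pi_pos
  rw [shell, Finset.mem_filter] at hk
  obtain ⟨-, hk1, hk2, hk3⟩ := hk
  set q := 2 * π * (m : ℕ) / (2 * R + 1 : ℕ) with hq
  have hq0 : 0 ≤ q := hη.le.trans hq1
  set θ := th (2 * R + 1) (k j) with hθ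
  have hes := en_sub R j k m
  rw [← hq, ← hθ] at hes
  have hlow := cos_diff_lower θ q b hb.le hb2 hk2 hk3 hq0 (hq2.trans hη1) (hq2.trans hη2)
  have hup := cos_diff_upper θ q hq0
  rw [← hes] at hlow hup
  set A := en (2 * R + 1) k with hA
  set B := en (2 * R + 1) (shm j m k) with hB
  set c := √(b / 2) with hc
  have hc0 : 0 < c := sqrt_pos.2 (by positivity)
  have e1 : Fr R E η (shm j m k) - Fr R E η k =
      ((A - B : ℝ) : ℂ) / ((((B - E : ℝ) : ℂ) - η * Complex.I) *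
        (((A - E : ℝ) : ℂ) - η * Complex.I)) := by
    unfold Fr
    rw [inv_sub_inv (den_ne _ hη) (den_ne _ hη)]
    congr 1
    push_cast
    ring
  rw [e1, norm_div, norm_mul, den_norm, den_norm, Complex.norm_real, Real.norm_eq_abs]
  have h1 : √((A - E) ^ 2 + η ^ 2) ≤ 2 * η := by
    rw [Real.sqrt_le_left (by positivity)]
    have := abs_le.1 hk1
    nlinarith
  have h2 : √((B - E) ^ 2 + η ^ 2) ≤ 6 * η := by
    rw [Real.sqrt_le_left (by positivity)]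
    have h3 := abs_le.1 hk1
    have h4 := abs_le.1 hup
    have h5 : |B - E| ≤ 5 * η := by
      rw [abs_le]; constructor <;> linarith
    have h6 : (B - E) ^ 2 ≤ (5 * η) ^ 2 := by
      rw [← sq_abs]; exact pow_le_pow_left₀ (abs_nonneg _) h5 2
    nlinarith
  have h3 : 0 < √((A - E) ^ 2 + η ^ 2) := sqrt_pos.2 (by positivity)
  have h4 : 0 < √((B - E) ^ 2 + η ^ 2) := sqrt_pos.2 (by positivity)
  have h5 : c / (6 * π * η) ≤ |A - B| / (√((B - E) ^ 2 + η ^ 2) * √((A - E) ^ 2 + η ^ 2)) := by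
    rw [div_le_div_iff₀ (by positivity) (by positivity)]
    have h6 : √((B - E) ^ 2 + η ^ 2) * √((A - E) ^ 2 + η ^ 2) ≤ 12 * η ^ 2 := by
      calc _ ≤ (6 * η) * (2 * η) := mul_le_mul h2 h1 h3.le (by positivity)
        _ = _ := by ring
    have h7 : 2 * c * η / π ≤ |A - B| := by
      refine le_trans ?_ hlow
      gcongr
    calc c * (√((B - E) ^ 2 + η ^ 2) * √((A - E) ^ 2 + η ^ 2)) ≤ c * (12 * η ^ 2) := by gcongr
      _ = 2 * c * η / π * (6 * π * η) := by field_simp; ring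
      _ ≤ |A - B| * (6 * π * η) := by gcongr
  have h6 := pow_le_pow_left₀ (by positivity) h5 2
  refine le_trans (le_of_eq ?_) h6
  rw [div_pow, hc, sq_sqrt (by positivity)]
  field_simp
  ring

/-- dyadic bound for the square of the weight -/
lemma wt_sq_dyadic (F E ε : ℝ) (hε : 0 < ε) (I : ℕ) (hI : 1 ≤ 2 ^ I * ε) :
    wt F E ε ^ 2 ≤ ∑ i ∈ range (I + 1), 4 / (2 ^ i * ε) ^ 2 *
      (if |F - E| ≤ 2 ^ i * ε then 1 else 0) + 1 := by
  have hw0 := wt_pos F E ε hε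
  have hnn : ∀ i ∈ range (I + 1), 0 ≤ 4 / (2 ^ i * ε) ^ 2 *
      (if |F - E| ≤ 2 ^ i * ε then (1 : ℝ) else 0) := by
    intro i _
    split_ifs <;> positivity
  by_cases h : |F - E| ≤ 2 ^ I * ε
  · have hex : ∃ i, |F - E| ≤ 2 ^ i * ε := ⟨I, h⟩
    classical
    set i := Nat.find hex with hi
    have hi1 : |F - E| ≤ 2 ^ i * ε := Nat.find_spec hex
    have hi2 : i ≤ I := Nat.find_min' hex h
    have hsingle : 4 / (2 ^ i * ε) ^ 2 ≤ ∑ i ∈ range (I + 1), 4 / (2 ^ i * ε) ^ 2 *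
        (if |F - E| ≤ 2 ^ i * ε then (1 : ℝ) else 0) := by
      have := Finset.single_le_sum hnn (mem_range.2 (Nat.lt_succ_of_le hi2))
      rwa [if_pos hi1, mul_one] at this
    have hw : wt F E ε ≤ 2 / (2 ^ i * ε) := by
      rcases Nat.eq_zero_or_pos i with h0 | hpos
      · rw [h0, pow_zero, one_mul]
        refine (wt_le_inv F E ε hε).trans ?_
        gcongr
        norm_num
      · have hlt : ¬ |F - E| ≤ 2 ^ (i - 1) * ε := Nat.find_min hex (by omega)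
        push Not at hlt
        refine (wt_le_inv_abs F E ε _ (by positivity) hlt.le).trans (le_of_eq ?_)
        obtain ⟨j, hj⟩ : ∃ j, i = j + 1 := ⟨i - 1, by omega⟩
        rw [hj, Nat.add_sub_cancel, pow_succ]
        field_simp
    have hw2 : wt F E ε ^ 2 ≤ 4 / (2 ^ i * ε) ^ 2 := by
      calc wt F E ε ^ 2 ≤ (2 / (2 ^ i * ε)) ^ 2 := pow_le_pow_left₀ hw0.le hw 2
        _ = _ := by rw [div_pow]; norm_num
    linarith
  · push Not at h
    have h1 : wt F E ε ≤ 1 / 1 := wt_le_inv_abs F E ε 1 one_pos (by linarith)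
    have h2 := Finset.sum_nonneg hnn
    have h3 : wt F E ε ^ 2 ≤ 1 := by
      rw [div_one] at h1
      calc wt F E ε ^ 2 ≤ 1 ^ 2 := pow_le_pow_left₀ hw0.le h1 2
        _ = 1 := one_pow 2
    linarith

lemma sum_wt_sq_le {ι : Type*} [Fintype ι] (F : ι → ℝ) (E ε : ℝ) (hε : 0 < ε) (hε1 : ε ≤ 1)
    (C T : ℝ) (hC : 0 ≤ C) (hT0 : 0 ≤ T)
    (hT : (Fintype.card ι : ℝ) ≤ T)
    (hcount : ∀ η, ε ≤ η → ((univ.filter fun k => |F k - E| ≤ η).card : ℝ) ≤ C * η * T) :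
    ∑ k, wt (F k) E ε ^ 2 ≤ (8 * C + 1) / ε * T := by
  obtain ⟨I, hI⟩ : ∃ I : ℕ, 1 / ε < 2 ^ I := pow_unbounded_of_one_lt _ (by norm_num)
  have hI' : 1 ≤ 2 ^ I * ε := by
    rw [div_lt_iff₀ hε] at hI; exact hI.le
  have h1 : ∑ k, wt (F k) E ε ^ 2 ≤ ∑ k, (∑ i ∈ range (I + 1), 4 / (2 ^ i * ε) ^ 2 *
      (if |F k - E| ≤ 2 ^ i * ε then 1 else 0) + 1) :=
    sum_le_sum fun k _ => wt_sq_dyadic (F k) E ε hε I hI'
  refine h1.trans ?_
  rw [sum_add_distrib, sum_comm]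
  have h2 : ∀ i ∈ range (I + 1), ∑ k, 4 / (2 ^ i * ε) ^ 2 *
      (if |F k - E| ≤ 2 ^ i * ε then (1 : ℝ) else 0) ≤ 4 * C * T / ε * (1 / 2) ^ i := by
    intro i _
    rw [← mul_sum, ← Finset.sum_filter, sum_const, nsmul_eq_mul, mul_one]
    have hle : ε ≤ 2 ^ i * ε := by
      have : (1 : ℝ) ≤ 2 ^ i := one_le_pow₀ (by norm_num)
      nlinarith
    have h3 := hcount (2 ^ i * ε) hle
    calc 4 / (2 ^ i * ε) ^ 2 * ((univ.filter fun k => |F k - E| ≤ 2 ^ i * ε).card : ℝ)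
        ≤ 4 / (2 ^ i * ε) ^ 2 * (C * (2 ^ i * ε) * T) := by gcongr
      _ = 4 * C * T / ε * (1 / 2) ^ i := by
          rw [one_div, inv_pow]; field_simp
  have h4 : ∑ k : ι, (1 : ℝ) ≤ T := by
    rw [sum_const, card_univ, nsmul_eq_mul, mul_one]; exact hT
  have h5 : ∑ i ∈ range (I + 1), (1 / 2 : ℝ) ^ i ≤ 2 := by
    have h := geom_sum_eq (x := (1 / 2 : ℝ)) (by norm_num) (I + 1)
    rw [h]
    have h' : (0 : ℝ) < (1 / 2) ^ (I + 1) := by positivity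
    have e : ((1 / 2 : ℝ) ^ (I + 1) - 1) / (1 / 2 - 1) = 2 - 2 * (1 / 2) ^ (I + 1) := by ring
    rw [e]; linarith
  calc ∑ i ∈ range (I + 1), ∑ k, 4 / (2 ^ i * ε) ^ 2 *
      (if |F k - E| ≤ 2 ^ i * ε then (1 : ℝ) else 0) + ∑ k : ι, (1 : ℝ)
      ≤ ∑ i ∈ range (I + 1), 4 * C * T / ε * (1 / 2) ^ i + T := add_le_add (sum_le_sum h2) h4
    _ = 4 * C * T / ε * ∑ i ∈ range (I + 1), (1 / 2 : ℝ) ^ i + T := by rw [← mul_sum]
    _ ≤ 4 * C * T / ε * 2 + T / ε := by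
        have h6 : T ≤ T / ε := by rw [le_div_iff₀ hε]; nlinarith
        have h7 : 0 ≤ 4 * C * T / ε := by positivity
        have h8 := mul_le_mul_of_nonneg_left h5 h7
        linarith
    _ = (8 * C + 1) / ε * T := by field_simp; ring

end Pool.Agent.Helper3.Weak
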