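import Mathlib

/-!
# A mean value inequality for the half plane

If `G` is analytic in the upper half plane and `log ‖G‖ ≤ B` on `Im z ≥ ε`, then the integral of
`B - log ‖G (E + iε)‖` over `|E - E0| ≤ δ` is at most `2πδ (B - log ‖G (E0 + i (ε + δ))‖)`.
-/

open scoped ENNReal NNReal
open MeasureTheory Set Real Filter Topology Metric

noncomputable section

namespace Pool.Agent.Helper3.Weak

lemma log_norm_le_circleAverage {f : ℂ → ℂ} {c : ℂ} {R : ℝ} (hR : 0 < R)
    (hf : AnalyticOnNhd ℂ f (closedBall c R)) (hc : f c ≠ 0) :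
    Real.log ‖f c‖ ≤ circleAverage (fun z => Real.log ‖f z‖) c R := by
  have hR' : |R| = R := abs_of_pos hR
  have hf' : AnalyticOnNhd ℂ f (closedBall c |R|) := by rw [hR']; exact hf
  rw [AnalyticOnNhd.circleAverage_log_norm hR.ne' hf' hc]
  have h : 0 ≤ ∑ᶠ u, (MeromorphicOn.divisor f (closedBall c |R|) u : ℝ) *
      Real.log (R * ‖c - u‖⁻¹) := by
    apply finsum_nonneg
    intro u
    by_cases hu : u ∈ closedBall c |R|
    · have h1 : 0 ≤ MeromorphicOn.divisor f (closedBall c |R|) u :=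
        (MeromorphicOn.AnalyticOnNhd.divisor_nonneg hf') u
      have h2 : 0 ≤ Real.log (R * ‖c - u‖⁻¹) := by
        rcases eq_or_ne c u with rfl | hcu
        · simp
        · apply Real.log_nonneg
          have h3 : 0 < ‖c - u‖ := norm_pos_iff.2 (sub_ne_zero.2 hcu)
          rw [← div_eq_mul_inv, one_le_div h3, ← hR', ← dist_eq_norm, dist_comm]
          exact mem_closedBall.1 hu
      exact mul_nonneg (by exact_mod_cast h1) h2
    · rw [Function.locallyFinsuppWithin.apply_eq_zero_of_notMem _ hu]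
      simp
  linarith

/-- The conformal map from the disc to the half plane `Im z > ε`, sending `0` to
`E0 + i (ε + δ)`. -/
def PhiM (E0 ε δ : ℝ) (w : ℂ) : ℂ := E0 + ε * Complex.I + δ * Complex.I * ((1 + w) / (1 - w))

lemma PhiM_zero (E0 ε δ : ℝ) : PhiM E0 ε δ 0 = E0 + ((ε + δ : ℝ) : ℂ) * Complex.I := by
  unfold PhiM
  push_cast
  simp
  ring

lemma re_cayley {w : ℂ} (hw : ‖w‖ ≤ 1) : 0 ≤ ((1 + w) / (1 - w)).re := by
  rw [Complex.div_re]
  have h1 : w.re ^ 2 + w.im ^ 2 ≤ 1 := by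
    have h2 : ‖w‖ ^ 2 ≤ 1 := by
      have := norm_nonneg w
      nlinarith
    rw [← Complex.normSq_eq_norm_sq, Complex.normSq_apply] at h2
    nlinarith
  rw [← add_div]
  apply div_nonneg _ (Complex.normSq_nonneg _)
  simp
  nlinarith

lemma im_PhiM (E0 : ℝ) {ε δ : ℝ} (hδ : 0 ≤ δ) {w : ℂ} (hw : ‖w‖ ≤ 1) :
    ε ≤ (PhiM E0 ε δ w).im := by
  have h := re_cayley hw
  unfold PhiM
  have : (E0 + ε * Complex.I + δ * Complex.I * ((1 + w) / (1 - w)) : ℂ).im =
      ε + δ * ((1 + w) / (1 - w)).re := by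
    simp [Complex.mul_im, Complex.mul_re]
  rw [this]
  have := mul_nonneg hδ h
  linarith

lemma analyticAt_PhiM (E0 ε δ : ℝ) {w : ℂ} (hw : w ≠ 1) : AnalyticAt ℂ (PhiM E0 ε δ) w := by
  unfold PhiM
  have h1 : AnalyticAt ℂ (fun w : ℂ => (1 + w) / (1 - w)) w := by
    apply AnalyticAt.div
    · exact analyticAt_const.add analyticAt_id
    · exact analyticAt_const.sub analyticAt_id
    · exact sub_ne_zero.2 (Ne.symm hw)
  exact analyticAt_const.add (analyticAt_const.mul h1)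

/-- The point of the circle that is sent to `E + iε`. -/
lemma PhiM_circle (E0 ε : ℝ) {δ : ℝ} (hδ : 0 < δ) (E : ℝ) :
    PhiM E0 ε δ (circleMap 0 1 (π + 2 * arctan ((E - E0) / δ))) = E + ε * Complex.I := by
  set u : ℝ := (E - E0) / δ with hu
  set α : ℝ := arctan u with hα
  have hc : 0 < Real.cos α := Real.cos_arctan_pos u
  have hs : Real.sin α = u * Real.cos α := by
    have h1 := Real.tan_arctan u
    rw [← hα, Real.tan_eq_sin_div_cos] at h1
    field_simp at h1
    linarith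
  have hcs := Real.sin_sq_add_cos_sq α
  have hcirc : circleMap 0 1 (π + 2 * α) = -(((Real.cos α : ℝ) : ℂ) + Real.sin α * Complex.I) ^ 2 := by
    rw [circleMap]
    push_cast
    rw [zero_add, one_mul, add_mul, Complex.exp_add, Complex.exp_pi_mul_I,
      show (2 * (α : ℂ)) * Complex.I = ((2 : ℕ) : ℂ) * ((α : ℂ) * Complex.I) by push_cast; ring,
      Complex.exp_nat_mul, Complex.exp_mul_I]
    ring
  have hcC : ((Real.cos α : ℝ) : ℂ) ≠ 0 := by exact_mod_cast hc.ne'
  have hsC : ((Real.sin α : ℝ) : ℂ) = u * ((Real.cos α : ℝ) : ℂ) := by rw [hs]; push_cast; ring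
  have hcsC : ((Real.sin α : ℝ) : ℂ) ^ 2 + ((Real.cos α : ℝ) : ℂ) ^ 2 = 1 := by
    exact_mod_cast hcs
  have hI : Complex.I ^ 2 = -1 := Complex.I_sq
  have h1w : 1 - circleMap 0 1 (π + 2 * α) =
      2 * ((Real.cos α : ℝ) : ℂ) * (((Real.cos α : ℝ) : ℂ) + Real.sin α * Complex.I) := by
    rw [hcirc]
    linear_combination (-1 : ℂ) * hcsC + ((Real.sin α : ℝ) : ℂ) ^ 2 * hI
  have h2w : 1 + circleMap 0 1 (π + 2 * α) =
      -2 * Complex.I * ((Real.sin α : ℝ) : ℂ) *
        (((Real.cos α : ℝ) : ℂ) + Real.sin α * Complex.I) := by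
    rw [hcirc]
    linear_combination (-1 : ℂ) * hcsC + ((Real.sin α : ℝ) : ℂ) ^ 2 * hI
  have hne : ((Real.cos α : ℝ) : ℂ) + Real.sin α * Complex.I ≠ 0 := by
    intro h
    have h2 := congrArg Complex.re h
    rw [Complex.add_re, Complex.ofReal_re, Complex.re_ofReal_mul, Complex.I_re, mul_zero,
      add_zero, Complex.zero_re] at h2
    linarith
  have hq : (1 + circleMap 0 1 (π + 2 * α)) / (1 - circleMap 0 1 (π + 2 * α)) =
      -Complex.I * u := by
    rw [h1w, h2w, hsC]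
    rw [hsC] at hne
    rw [div_eq_iff (mul_ne_zero (mul_ne_zero two_ne_zero hcC) hne)]
    ring
  unfold PhiM
  rw [hq]
  have hδC : (δ : ℂ) ≠ 0 := by exact_mod_cast hδ.ne'
  have : (u : ℂ) = ((E : ℂ) - E0) / δ := by rw [hu]; push_cast; ring
  rw [this]
  field_simp
  linear_combination (-(E : ℂ) + E0) * hI

lemma lsc_log (g : ℕ → ℂ) (g0 : ℂ) (hg : Tendsto g atTop (𝓝 g0)) (B : ℝ) :
    ENNReal.ofReal (B - Real.log ‖g0‖) ≤
      liminf (fun k => ENNReal.ofReal (B - Real.log ‖g k‖)) atTop := by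
  rcases eq_or_ne g0 0 with rfl | h0
  · have h1 : ∀ᶠ k in atTop, ‖g k‖ ≤ 1 := by
      have := hg.norm
      rw [norm_zero] at this
      exact this.eventually_le_const zero_lt_one
    refine le_liminf_of_le (by isBoundedDefault) ?_
    filter_upwards [h1] with k hk
    apply ENNReal.ofReal_le_ofReal
    have := Real.log_nonpos (norm_nonneg _) hk
    simp only [norm_zero, Real.log_zero]
    linarith
  · have h1 : Tendsto (fun k => ENNReal.ofReal (B - Real.log ‖g k‖)) atTop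
        (𝓝 (ENNReal.ofReal (B - Real.log ‖g0‖))) := by
      apply ENNReal.tendsto_ofReal
      apply tendsto_const_nhds.sub
      exact (hg.norm).log (norm_ne_zero_iff.2 h0)
    rw [h1.liminf_eq]

variable {G : ℂ → ℂ} {E0 ε δ B : ℝ}

lemma circle_step (hG : ∀ z : ℂ, 0 < z.im → AnalyticAt ℂ G z) (hε : 0 < ε) (hδ : 0 < δ)
    (hB : ∀ z : ℂ, ε ≤ z.im → Real.log ‖G z‖ ≤ B)
    (hc : G (E0 + ((ε + δ : ℝ) : ℂ) * Complex.I) ≠ 0) {ρ : ℝ} (hρ0 : 0 < ρ) (hρ1 : ρ < 1) :
    ∫⁻ θ in Ioc 0 (2 * π), ENNReal.ofReal (B - Real.log ‖G (PhiM E0 ε δ (circleMap 0 ρ θ))‖) ≤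
      ENNReal.ofReal (2 * π * (B - Real.log ‖G (E0 + ((ε + δ : ℝ) : ℂ) * Complex.I)‖)) := by
  set f : ℂ → ℂ := fun w => G (PhiM E0 ε δ w) with hf
  have hne1 : ∀ w : ℂ, ‖w‖ ≤ ρ → w ≠ 1 := by
    intro w hw h
    rw [h, norm_one] at hw
    linarith
  have hfan : AnalyticOnNhd ℂ f (closedBall 0 ρ) := by
    intro w hw
    rw [mem_closedBall, dist_zero_right] at hw
    have h1 : 0 < (PhiM E0 ε δ w).im :=
      lt_of_lt_of_le hε (im_PhiM E0 hδ.le (by linarith))
    exact (hG _ h1).comp (analyticAt_PhiM E0 ε δ (hne1 w hw))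
  have hf0 : f 0 = G (E0 + ((ε + δ : ℝ) : ℂ) * Complex.I) := by
    rw [hf]
    simp only
    rw [PhiM_zero]
  have hJ := log_norm_le_circleAverage hρ0 hfan (by rw [hf0]; exact hc)
  have hint : CircleIntegrable (fun z => Real.log ‖f z‖) 0 ρ := by
    apply MeromorphicOn.circleIntegrable_log_norm
    rw [abs_of_pos hρ0]
    exact fun w hw => (hfan w (sphere_subset_closedBall hw)).meromorphicAt
  rw [circleAverage_def, smul_eq_mul] at hJ
  have hint2 : IntegrableOn (fun θ : ℝ => Real.log ‖f (circleMap 0 ρ θ)‖) (Ioc 0 (2 * π)) := by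
    have := hint
    rw [CircleIntegrable, intervalIntegrable_iff_integrableOn_Ioc_of_le (by positivity)] at this
    exact this
  have hintB : Integrable (fun _ : ℝ => B) (volume.restrict (Ioc 0 (2 * π))) := by
    apply integrable_const
  have hint3 : IntegrableOn (fun θ : ℝ => B - Real.log ‖f (circleMap 0 ρ θ)‖) (Ioc 0 (2 * π)) :=
    hintB.sub hint2
  have hnn : ∀ θ : ℝ, 0 ≤ B - Real.log ‖f (circleMap 0 ρ θ)‖ := by
    intro θ
    have h1 : ‖circleMap 0 ρ θ‖ ≤ 1 := by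
      rw [norm_circleMap_zero, abs_of_pos hρ0]
      exact hρ1.le
    have := hB _ (im_PhiM (ε := ε) E0 hδ.le h1)
    rw [hf]
    simp only
    linarith
  rw [← ofReal_integral_eq_lintegral_ofReal hint3 (Filter.Eventually.of_forall hnn)]
  apply ENNReal.ofReal_le_ofReal
  rw [integral_sub hintB hint2, ← hf0]
  have e1 : ∫ _θ in Ioc 0 (2 * π), B = 2 * π * B := by
    rw [setIntegral_const, smul_eq_mul]
    simp [Real.volume_real_Ioc_of_le, Real.pi_nonneg]
  have e2 : ∫ θ in Ioc 0 (2 * π), Real.log ‖f (circleMap 0 ρ θ)‖ =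
      ∫ θ in (0 : ℝ)..(2 * π), Real.log ‖f (circleMap 0 ρ θ)‖ := by
    rw [intervalIntegral.integral_of_le (by positivity)]
  rw [e1, e2]
  have h2pi : 0 < 2 * π := by positivity
  rw [le_inv_mul_iff₀ h2pi] at hJ
  linarith

theorem circle_limit (hG : ∀ z : ℂ, 0 < z.im → AnalyticAt ℂ G z) (hε : 0 < ε) (hδ : 0 < δ)
    (hB : ∀ z : ℂ, ε ≤ z.im → Real.log ‖G z‖ ≤ B)
    (hc : G (E0 + ((ε + δ : ℝ) : ℂ) * Complex.I) ≠ 0) :
    ∫⁻ θ in Ioo 0 (2 * π), ENNReal.ofReal (B - Real.log ‖G (PhiM E0 ε δ (circleMap 0 1 θ))‖) ≤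
      ENNReal.ofReal (2 * π * (B - Real.log ‖G (E0 + ((ε + δ : ℝ) : ℂ) * Complex.I)‖)) := by
  set ρ : ℕ → ℝ := fun k => 1 - 1 / ((k : ℝ) + 2) with hρ
  have hρ0 : ∀ k, 0 < ρ k := by
    intro k
    have : 1 / ((k : ℝ) + 2) < 1 := by
      rw [div_lt_one (by positivity)]
      have : (0 : ℝ) ≤ k := Nat.cast_nonneg k
      linarith
    rw [hρ]; simp only; linarith
  have hρ1 : ∀ k, ρ k < 1 := by
    intro k
    have : 0 < 1 / ((k : ℝ) + 2) := by positivity
    rw [hρ]; simp only; linarith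
  have hρt : Tendsto ρ atTop (𝓝 1) := by
    have h1 : Tendsto (fun k : ℕ => 1 / ((k : ℝ) + 2)) atTop (𝓝 0) := by
      have : Tendsto (fun k : ℕ => ((k : ℝ) + 2)) atTop atTop :=
        tendsto_atTop_add_const_right _ _ tendsto_natCast_atTop_atTop
      simp only [one_div]
      exact this.inv_tendsto_atTop
    have h2 := (tendsto_const_nhds (x := (1 : ℝ))).sub h1
    rw [sub_zero] at h2
    exact h2
  have hmeas : ∀ k, Measurable fun θ : ℝ =>
      ENNReal.ofReal (B - Real.log ‖G (PhiM E0 ε δ (circleMap 0 (ρ k) θ))‖) := by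
    intro k
    have hcont : Continuous fun θ : ℝ => G (PhiM E0 ε δ (circleMap 0 (ρ k) θ)) := by
      rw [continuous_iff_continuousAt]
      intro θ
      have h1 : ‖circleMap 0 (ρ k) θ‖ ≤ 1 := by
        rw [norm_circleMap_zero, abs_of_pos (hρ0 k)]
        exact (hρ1 k).le
      have h2 : circleMap 0 (ρ k) θ ≠ 1 := by
        intro h
        have h3 : ‖circleMap 0 (ρ k) θ‖ = 1 := by rw [h, norm_one]
        rw [norm_circleMap_zero, abs_of_pos (hρ0 k)] at h3
        linarith [hρ1 k]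
      have h4 : ContinuousAt G (PhiM E0 ε δ (circleMap 0 (ρ k) θ)) :=
        (hG _ (lt_of_lt_of_le hε (im_PhiM E0 hδ.le h1))).continuousAt
      have h5 : ContinuousAt (PhiM E0 ε δ) (circleMap 0 (ρ k) θ) :=
        (analyticAt_PhiM E0 ε δ h2).continuousAt
      exact ContinuousAt.comp (g := G) h4
        (ContinuousAt.comp (g := PhiM E0 ε δ) h5 (continuous_circleMap 0 (ρ k)).continuousAt)
    exact (measurable_const.sub (hcont.measurable.norm.log)).ennreal_ofReal
  have hpt : ∀ θ ∈ Ioo 0 (2 * π),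
      ENNReal.ofReal (B - Real.log ‖G (PhiM E0 ε δ (circleMap 0 1 θ))‖) ≤
      liminf (fun k => ENNReal.ofReal
        (B - Real.log ‖G (PhiM E0 ε δ (circleMap 0 (ρ k) θ))‖)) atTop := by
    intro θ hθ
    apply lsc_log
    have h1 : circleMap 0 1 θ ≠ 1 := by
      intro h
      rw [circleMap, zero_add, Complex.ofReal_one, one_mul, Complex.exp_eq_one_iff] at h
      obtain ⟨n, hn⟩ := h
      have h2 : θ = n * (2 * π) := by
        have h3 : (θ : ℂ) * Complex.I = ((n * (2 * π) : ℝ) : ℂ) * Complex.I := by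
          rw [hn]; push_cast; ring
        have h4 := mul_right_cancel₀ Complex.I_ne_zero h3
        exact_mod_cast h4
      have hpi := Real.pi_pos
      rcases lt_trichotomy n 0 with h5 | h5 | h5
      · have h6 : (n : ℝ) ≤ -1 := by exact_mod_cast Int.le_sub_one_of_lt h5
        have := hθ.1
        nlinarith
      · rw [h5] at h2
        have := hθ.1
        simp at h2
        linarith
      · have h6 : (1 : ℝ) ≤ n := by exact_mod_cast h5
        have := hθ.2
        nlinarith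
    have h7 : Tendsto (fun k => circleMap 0 (ρ k) θ) atTop (𝓝 (circleMap 0 1 θ)) := by
      unfold circleMap
      apply tendsto_const_nhds.add
      apply Tendsto.mul_const
      have := (Complex.continuous_ofReal.tendsto 1).comp hρt
      exact this
    have h8 : ‖circleMap 0 1 θ‖ ≤ 1 := by
      rw [norm_circleMap_zero, abs_one]
    have h9 : ContinuousAt G (PhiM E0 ε δ (circleMap 0 1 θ)) :=
      (hG _ (lt_of_lt_of_le hε (im_PhiM E0 hδ.le h8))).continuousAt
    exact (h9.tendsto).comp (((analyticAt_PhiM E0 ε δ h1).continuousAt.tendsto).comp h7)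
  calc ∫⁻ θ in Ioo 0 (2 * π), ENNReal.ofReal (B - Real.log ‖G (PhiM E0 ε δ (circleMap 0 1 θ))‖)
      ≤ ∫⁻ θ in Ioo 0 (2 * π), liminf (fun k => ENNReal.ofReal
        (B - Real.log ‖G (PhiM E0 ε δ (circleMap 0 (ρ k) θ))‖)) atTop :=
        setLIntegral_mono' measurableSet_Ioo hpt
    _ ≤ liminf (fun k => ∫⁻ θ in Ioo 0 (2 * π), ENNReal.ofReal
        (B - Real.log ‖G (PhiM E0 ε δ (circleMap 0 (ρ k) θ))‖)) atTop := lintegral_liminf_le hmeas
    _ ≤ _ := by
        refine liminf_le_of_le (by isBoundedDefault) ?_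
        intro b hb
        obtain ⟨k, hk⟩ := hb.exists
        refine hk.trans ?_
        refine le_trans (lintegral_mono_set Ioo_subset_Ioc_self) ?_
        exact circle_step hG hε hδ hB hc (hρ0 k) (hρ1 k)

/-- The mean value inequality for the half plane. -/
theorem half_plane (hG : ∀ z : ℂ, 0 < z.im → AnalyticAt ℂ G z) (hε : 0 < ε) (hδ : 0 < δ)
    (hB : ∀ z : ℂ, ε ≤ z.im → Real.log ‖G z‖ ≤ B)
    (hc : G (E0 + ((ε + δ : ℝ) : ℂ) * Complex.I) ≠ 0) :
    ∫⁻ E in Icc (E0 - δ) (E0 + δ), ENNReal.ofReal (B - Real.log ‖G (E + ε * Complex.I)‖) ≤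
      ENNReal.ofReal (δ * (2 * π * (B - Real.log ‖G (E0 + ((ε + δ : ℝ) : ℂ) * Complex.I)‖))) := by
  set T : ℝ → ℝ := fun E => π + 2 * arctan ((E - E0) / δ) with hT
  set T' : ℝ → ℝ := fun E => 2 * (1 / (1 + ((E - E0) / δ) ^ 2) * (1 / δ)) with hT'
  set F : ℝ → ℝ≥0∞ := fun θ =>
    ENNReal.ofReal (B - Real.log ‖G (PhiM E0 ε δ (circleMap 0 1 θ))‖) with hF
  have hder : ∀ E, HasDerivAt T (T' E) E := by
    intro E
    have h1 : HasDerivAt (fun E : ℝ => (E - E0) / δ) (1 / δ) E :=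
      ((hasDerivAt_id E).sub_const E0).div_const δ
    have h2 := (h1.arctan).const_mul 2
    exact h2.const_add π
  have hinj : Function.Injective T := by
    intro x y hxy
    rw [hT] at hxy
    simp only at hxy
    have h1 : arctan ((x - E0) / δ) = arctan ((y - E0) / δ) := by linarith
    have h2 := Real.arctan_injective h1
    field_simp at h2
    linarith
  have himg : T '' Icc (E0 - δ) (E0 + δ) ⊆ Ioo 0 (2 * π) := by
    rintro _ ⟨E, _, rfl⟩
    have h1 := Real.arctan_lt_pi_div_two ((E - E0) / δ)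
    have h2 := Real.neg_pi_div_two_lt_arctan ((E - E0) / δ)
    rw [hT]
    simp only
    constructor <;> linarith
  have hcv := lintegral_image_eq_lintegral_abs_deriv_mul (s := Icc (E0 - δ) (E0 + δ))
    measurableSet_Icc (fun E _ => (hder E).hasDerivWithinAt) hinj.injOn F
  have hlow : ∀ E ∈ Icc (E0 - δ) (E0 + δ),
      ENNReal.ofReal (B - Real.log ‖G (E + ε * Complex.I)‖) ≤
        ENNReal.ofReal δ * (ENNReal.ofReal |T' E| * F (T E)) := by
    intro E hE
    have h1 : F (T E) = ENNReal.ofReal (B - Real.log ‖G (E + ε * Complex.I)‖) := by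
      rw [hF, hT]
      simp only
      rw [PhiM_circle E0 ε hδ E]
    rw [← h1, ← mul_assoc]
    have h2 : 1 ≤ ENNReal.ofReal δ * ENNReal.ofReal |T' E| := by
      rw [← ENNReal.ofReal_mul hδ.le, ENNReal.one_le_ofReal]
      have h3 : ((E - E0) / δ) ^ 2 ≤ 1 := by
        rw [div_pow, div_le_one (by positivity)]
        have h4 : |E - E0| ≤ δ := by
          rw [abs_le]
          constructor <;> linarith [hE.1, hE.2]
        exact sq_le_sq' (by linarith [(abs_le.1 h4).1]) (by linarith [(abs_le.1 h4).2])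
      have h5 : 0 ≤ T' E := by rw [hT']; positivity
      rw [abs_of_nonneg h5, hT']
      simp only
      have h6 : δ * (2 * (1 / (1 + ((E - E0) / δ) ^ 2) * (1 / δ))) =
          2 / (1 + ((E - E0) / δ) ^ 2) := by
        field_simp
      rw [h6, le_div_iff₀ (by positivity)]
      linarith
    calc F (T E) = 1 * F (T E) := (one_mul _).symm
      _ ≤ _ := by gcongr
  calc ∫⁻ E in Icc (E0 - δ) (E0 + δ), ENNReal.ofReal (B - Real.log ‖G (E + ε * Complex.I)‖)
      ≤ ∫⁻ E in Icc (E0 - δ) (E0 + δ), ENNReal.ofReal δ * (ENNReal.ofReal |T' E| * F (T E)) :=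
        setLIntegral_mono' measurableSet_Icc hlow
    _ = ENNReal.ofReal δ * ∫⁻ E in Icc (E0 - δ) (E0 + δ), ENNReal.ofReal |T' E| * F (T E) := by
        rw [lintegral_const_mul' _ _ ENNReal.ofReal_ne_top]
    _ = ENNReal.ofReal δ * ∫⁻ θ in T '' Icc (E0 - δ) (E0 + δ), F θ := by rw [hcv]
    _ ≤ ENNReal.ofReal δ * ∫⁻ θ in Ioo 0 (2 * π), F θ := by
        gcongr
    _ ≤ ENNReal.ofReal δ *
        ENNReal.ofReal (2 * π * (B - Real.log ‖G (E0 + ((ε + δ : ℝ) : ℂ) * Complex.I)‖)) := by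
        gcongr
        exact circle_limit hG hε hδ hB hc
    _ = _ := by rw [ENNReal.ofReal_mul hδ.le]

end Pool.Agent.Helper3.Weak
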