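import Pool.Agent.Helper3.Weak.Reflect

/-!
# The deterministic local lower bound for the Green function
-/

open Finset Real Matrix

noncomputable section

namespace Pool.Agent.Helper3.Weak

open Pool.Agent.Helper2.AM

variable {d : ℕ}

lemma tg_rf (R : ℕ) (s : Fin d → ℤˣ) (ψ : (Fin d → ℤ) → ℂ) (hψ : ∀ x, ψ (rf s x) = ψ x)
    (x : Fin d → ℤ) : tg R ψ (rf s x) = tg R ψ x := by
  have h : (∀ j, |rf s x j| ≤ (R : ℤ) - 1) ↔ (∀ j, |x j| ≤ (R : ℤ) - 1) := by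
    have : ∀ j, |rf s x j| = |x j| := by
      intro j
      simp only [rf, abs_mul]
      rcases Int.units_eq_one_or (s j) with h | h <;> simp [h]
    simp only [this]
  unfold tg
  simp only [h, hψ]

/-- the bound of the Green function outside the box -/
def Bfar (η : ℝ) (R : ℕ) : ℝ := 2 / η * Real.exp (-(Real.log (1 + η / 4) * ((R : ℝ) - 1)))

lemma Bfar_nonneg {η : ℝ} (hη : 0 < η) (R : ℕ) : 0 ≤ Bfar η R := by unfold Bfar; positivity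

/-- the constant of the local lower bound -/
def c1 (d : ℕ) (a : ℝ) : ℝ := √((2 ^ d)⁻¹ * cD d a / 32)

lemma c1_sq {d : ℕ} (hd : 0 < d) {a : ℝ} (ha : 0 < a) : c1 d a ^ 2 = (2 ^ d)⁻¹ * cD d a / 32 := by
  have := cD_pos hd ha
  unfold c1
  rw [sq_sqrt (by positivity)]

lemma c1_pos {d : ℕ} (hd : 0 < d) {a : ℝ} (ha : 0 < a) : 0 < c1 d a := by
  have := cD_pos hd ha
  unfold c1
  apply sqrt_pos.2
  positivity

open Pool.Agent.Helper3.Anderson in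
theorem local_det (R : ℕ) (hR : 1 ≤ R) (V : (Fin d → ℤ) → ℝ) (hVb : Bdd V)
    (v : (Fin d → Fin (2 * R + 1)) → ℝ) (c0 lam E η κ W a T C : ℝ) (j : Fin d)
    (ha : 0 < a) (ha1 : a ≤ d) (hE1 : a ≤ E - c0) (hE2 : E - c0 ≤ 4 * d - a)
    (hη : 0 < η) (hη1 : η ≤ a / (4 * d))
    (hηL : 8 * π ≤ η * (2 * R + 1 : ℕ)) (hδL : 8 * π ≤ a / (2 * d ^ 2) * (2 * R + 1 : ℕ))
    (hη2 : 2 * η ≤ √(a / (4 * d) / 2)) (hη3 : 2 * η ≤ 1) (hC : 0 ≤ C)
    (hcount : ∀ t, η ≤ t → ((univ.filter fun k : Fin d → Fin (2 * R + 1) =>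
      |en (2 * R + 1) k - (E - c0)| ≤ t).card : ℝ) ≤ C * t * ((2 * R + 1 : ℕ) : ℝ) ^ d)
    (hlam : 0 < lam) (hκ0 : 0 ≤ κ) (hκ : κ ≤ 1 / 2)
    (hV : ∀ x, V (pos R x) = lam * v x + c0)
    (hX : ∀ u, nsq ((∑ x, ((v x : ℝ) : ℂ) • ro (av R (E - c0) η x)) *ᵥ u) ≤
      (κ / lam) ^ 2 * nsq u)
    (hW : (((2 * R + 1 : ℕ) : ℝ) ^ d)⁻¹ *
        ∑ k : Fin d → Fin (2 * R + 1), wt (en (2 * R + 1) k) (E - c0) η ≤ W)
    (hκW : 8 * (κ * √W) ≤ c1 d a)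
    (hB1 : 24 * ((√η)⁻¹ * (√(((2 * R + 1 : ℕ) : ℝ) ^ d) * (2 * d * Bfar η R))) ≤ c1 d a)
    (hB2 : √(((2 * R + 1 : ℕ) : ℝ) ^ d) * (2 * d * Bfar η R) ≤ 1 / 4 * √(cD d a * η))
    (hT0 : 0 ≤ T) (hT : (2 * η * T) ^ 2 * (16 * C + 3) ≤ cD d a / 8) (σ : Fin d → ℤˣ) :
    ∃ x : Fin d → ℤ, T ≤ (((σ j : ℤ) * x j : ℤ) : ℝ) ∧ (∀ i, 0 ≤ (σ i : ℤ) * x i) ∧
      (∀ i, |x i| ≤ (R : ℤ) - 1) ∧
      c1 d a ^ 2 / (4 * η * ((2 * R + 1 : ℕ) : ℝ) ^ d) ≤
        ‖green V ((E : ℂ) + η * Complex.I) x 0‖ ^ 2 := by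
  have hd : 0 < d := Fin.pos j
  have hcD := cD_pos hd ha
  have hc1 := c1_pos hd ha
  have hN0 : (0 : ℝ) < ((2 * R + 1 : ℕ) : ℝ) ^ d := by positivity
  have hzim : ((E : ℂ) + η * Complex.I).im = η := by simp
  have hz0im : ((((E - c0 : ℝ) : ℂ)) + η * Complex.I).im = η := by simp
  have hz : 0 < ((E : ℂ) + η * Complex.I).im := by rw [hzim]; exact hη
  have hz0 : 0 < ((((E - c0 : ℝ) : ℂ)) + η * Complex.I).im := by rw [hz0im]; exact hη
  set z : ℂ := (E : ℂ) + η * Complex.I with hzdef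
  set z0 : ℂ := (((E - c0 : ℝ) : ℂ)) + η * Complex.I with hz0def
  set ψ : (Fin d → ℤ) → ℂ := fun x => green V z x 0 with hψ
  set ψ0 : (Fin d → ℤ) → ℂ := fun x => green (fun _ => 0) z0 x 0 with hψ0
  have hBn := Bfar_nonneg hη R
  have hfar : ∀ x : Fin d → ℤ, (∃ j, (R : ℤ) - 1 ≤ |x j|) → ‖ψ x‖ ≤ Bfar η R := by
    intro x hx
    have := green_far V hVb hz R hR x hx
    rw [hzim] at this
    exact this
  have hfar0 : ∀ x : Fin d → ℤ, (∃ j, (R : ℤ) - 1 ≤ |x j|) → ‖ψ0 x‖ ≤ Bfar η R := by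
    intro x hx
    have := green_far (fun _ => 0) bdd_zero hz0 R hR x hx
    rw [hz0im] at this
    exact this
  have hψe : ∀ x, Pool.Agent.Helper2.AM.schr V ψ x - z * ψ x = if x = 0 then 1 else 0 :=
    fun x => green_schr V hVb hz x 0
  have hψ0e : ∀ x, Pool.Agent.Helper2.AM.schr (fun _ => 0) ψ0 x - z0 * ψ0 x =
      if x = 0 then 1 else 0 := fun x => green_schr (fun _ => 0) bdd_zero hz0 x 0
  have hg := nr_dfc R hR V z ψ (Bfar η R) hBn hfar hψe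
  have hg0 := nr_dfc R hR (fun _ => 0) z0 ψ0 (Bfar η R) hBn hfar0 hψ0e
  set Y : ℝ := √(((2 * R + 1 : ℕ) : ℝ) ^ d) * (2 * d * Bfar η R) with hY
  have hf2 : ∀ x : Fin d → Fin (2 * R + 1), Pool.Agent.Helper2.AM.schr V (tg R ψ) (pos R x) -
      z * tg R ψ (pos R x) = d0 R x + dfc R V z ψ x := by
    intro x; unfold dfc; ring
  have hφ2 : ∀ x : Fin d → Fin (2 * R + 1),
      Pool.Agent.Helper2.AM.schr (fun _ => 0) (tg R ψ0) (pos R x) -
      z0 * tg R ψ0 (pos R x) = d0 R x + dfc R (fun _ => 0) z0 ψ0 x := by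
    intro x; unfold dfc; ring
  -- comparison
  have hcmp := compare R hR V v c0 lam E η κ W hη hlam hκ0 hκ hV hX hW (tg R ψ) (tg R ψ0)
    (tg_sup R ψ) (tg_sup R ψ0) (dfc R V z ψ) (dfc R (fun _ => 0) z0 ψ0) hf2 hφ2
  have hcmp2 : nr ((fun x : Fin d → Fin (2 * R + 1) => tg R ψ (pos R x)) -
      fun x => tg R ψ0 (pos R x)) ≤ (√η)⁻¹ * (c1 d a / 2) := by
    refine hcmp.trans (mul_le_mul_of_nonneg_left ?_ (by positivity))
    have h1 : (√η)⁻¹ * (nr (dfc R V z ψ) + 2 * nr (dfc R (fun _ => 0) z0 ψ0)) ≤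
        (√η)⁻¹ * (3 * Y) := by
      apply mul_le_mul_of_nonneg_left _ (by positivity)
      linarith
    have h2 : 24 * ((√η)⁻¹ * Y) ≤ c1 d a := hB1
    have h3 : (√η)⁻¹ * (3 * Y) = 3 * ((√η)⁻¹ * Y) := by ring
    rw [h3] at h1
    linarith
  -- the free mass
  have hmodes : ∀ k, (((en (2 * R + 1) k - (E - c0) : ℝ) : ℂ) - η * Complex.I) *
      (Bm d R *ᵥ fun x => tg R ψ0 (pos R x)) k =
      (Bm d R *ᵥ d0 R) k + (Bm d R *ᵥ dfc R (fun _ => 0) z0 ψ0) k := by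
    intro k
    have e := modes_eq R hR (fun _ => 0) (fun _ => 0) 0 0 (E - c0) η (fun x => by simp) (tg R ψ0)
      (tg_sup R ψ0) k
    have e' : (fun x : Fin d → Fin (2 * R + 1) =>
        (Pool.Agent.Helper2.AM.schr (fun _ => 0) (tg R ψ0) (pos R x) -
          (((E - c0 : ℝ) : ℂ) + η * Complex.I) * tg R ψ0 (pos R x))) =
        d0 R + dfc R (fun _ => 0) z0 ψ0 := by
      funext x
      exact hφ2 x
    rw [e', mulVec_add, Pi.add_apply] at e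
    rw [e]
    simp
  have hmass := free_mass R hR j (E - c0) η a T C ha ha1 hE1 hE2 hη hη1 hηL hδL hη2 hη3 hC hcount
    (fun x => tg R ψ0 (pos R x)) (dfc R (fun _ => 0) z0 ψ0) hmodes (hg0.trans hB2) hT0 hT
  have hsym : ∀ (s : Fin d → ℤˣ) x, ‖tg R ψ0 (rf s x)‖ ^ 2 = ‖tg R ψ0 x‖ ^ 2 := by
    intro s x
    rw [tg_rf R s ψ0 (fun x => green_rf s hz0 x)]
  have horth := mass_orth R j T (fun x => ‖tg R ψ0 x‖ ^ 2) (fun x => by positivity) hsym σ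
  have hφmass : c1 d a ^ 2 / η ≤ ∑ x ∈ orth R σ j T, ‖tg R ψ0 (pos R x)‖ ^ 2 := by
    have h1 := hmass.trans horth
    rw [c1_sq hd ha]
    have h2 : (2 ^ d)⁻¹ * (cD d a / (32 * η)) ≤ ∑ x ∈ orth R σ j T, ‖tg R ψ0 (pos R x)‖ ^ 2 := by
      rw [inv_mul_le_iff₀ (by positivity)]
      exact h1
    refine le_trans (le_of_eq ?_) h2
    field_simp
  -- the mass of the true Green function
  have hfmass : c1 d a ^ 2 / (4 * η) ≤ ∑ x ∈ orth R σ j T, ‖tg R ψ (pos R x)‖ ^ 2 := by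
    have h1 : ∀ x ∈ orth R σ j T, ‖tg R ψ0 (pos R x)‖ ^ 2 ≤
        2 * ‖tg R ψ (pos R x)‖ ^ 2 +
          2 * ‖((fun x : Fin d → Fin (2 * R + 1) => tg R ψ (pos R x)) -
            fun x => tg R ψ0 (pos R x)) x‖ ^ 2 := by
      intro x _
      rw [Pi.sub_apply]
      have h2 : ‖tg R ψ0 (pos R x)‖ ≤ ‖tg R ψ (pos R x)‖ +
          ‖tg R ψ (pos R x) - tg R ψ0 (pos R x)‖ := by
        have : tg R ψ0 (pos R x) = tg R ψ (pos R x) - (tg R ψ (pos R x) - tg R ψ0 (pos R x)) := by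
          ring
        calc ‖tg R ψ0 (pos R x)‖ = ‖tg R ψ (pos R x) -
              (tg R ψ (pos R x) - tg R ψ0 (pos R x))‖ := by rw [← this]
          _ ≤ _ := norm_sub_le _ _
      have h3 := pow_le_pow_left₀ (norm_nonneg _) h2 2
      nlinarith [sq_nonneg (‖tg R ψ (pos R x)‖ - ‖tg R ψ (pos R x) - tg R ψ0 (pos R x)‖)]
    have h2 := Finset.sum_le_sum h1
    rw [Finset.sum_add_distrib, ← Finset.mul_sum, ← Finset.mul_sum] at h2
    have h3 : ∑ x ∈ orth R σ j T, ‖((fun x : Fin d → Fin (2 * R + 1) => tg R ψ (pos R x)) -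
            fun x => tg R ψ0 (pos R x)) x‖ ^ 2 ≤ nr ((fun x : Fin d → Fin (2 * R + 1) =>
              tg R ψ (pos R x)) - fun x => tg R ψ0 (pos R x)) ^ 2 := by
      rw [nr_sq]
      unfold nsq
      exact Finset.sum_le_univ_sum_of_nonneg fun x => by positivity
    have h4 := pow_le_pow_left₀ (nr_nonneg _) hcmp2 2
    have h5 : ((√η)⁻¹ * (c1 d a / 2)) ^ 2 = c1 d a ^ 2 / η / 4 := by
      rw [mul_pow, inv_pow, sq_sqrt hη.le]
      field_simp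
      norm_num
    rw [h5] at h4
    have h6 : c1 d a ^ 2 / (4 * η) = c1 d a ^ 2 / η / 4 := by field_simp
    rw [h6]
    linarith
  -- pigeonhole
  obtain ⟨x, hx, hxm⟩ : ∃ x ∈ orth R σ j T,
      c1 d a ^ 2 / (4 * η * ((2 * R + 1 : ℕ) : ℝ) ^ d) ≤ ‖tg R ψ (pos R x)‖ ^ 2 := by
    by_contra hcon
    push Not at hcon
    have hne : (orth R σ j T).Nonempty := by
      by_contra he
      rw [Finset.not_nonempty_iff_eq_empty] at he
      rw [he, Finset.sum_empty] at hfmass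
      have : 0 < c1 d a ^ 2 / (4 * η) := by positivity
      linarith
    have h1 := Finset.sum_lt_sum_of_nonempty hne hcon
    rw [Finset.sum_const, nsmul_eq_mul] at h1
    have h2 : ((orth R σ j T).card : ℝ) ≤ ((2 * R + 1 : ℕ) : ℝ) ^ d := by
      have := Finset.card_le_univ (orth R σ j T)
      have h3 : Fintype.card (Fin d → Fin (2 * R + 1)) = (2 * R + 1) ^ d := by simp
      rw [h3] at this
      exact_mod_cast this
    have h3 : ((orth R σ j T).card : ℝ) * (c1 d a ^ 2 / (4 * η * ((2 * R + 1 : ℕ) : ℝ) ^ d)) ≤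
        c1 d a ^ 2 / (4 * η) := by
      calc ((orth R σ j T).card : ℝ) * (c1 d a ^ 2 / (4 * η * ((2 * R + 1 : ℕ) : ℝ) ^ d))
          ≤ ((2 * R + 1 : ℕ) : ℝ) ^ d * (c1 d a ^ 2 / (4 * η * ((2 * R + 1 : ℕ) : ℝ) ^ d)) :=
            mul_le_mul_of_nonneg_right h2 (by positivity)
        _ = c1 d a ^ 2 / (4 * η) := by field_simp
    linarith
  rw [orth, Finset.mem_filter] at hx
  have hin : ∀ i, |pos R x i| ≤ (R : ℤ) - 1 := by
    by_contra h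
    have h1 : tg R ψ (pos R x) = 0 := if_neg h
    rw [h1, norm_zero, zero_pow two_ne_zero] at hxm
    have : 0 < c1 d a ^ 2 / (4 * η * ((2 * R + 1 : ℕ) : ℝ) ^ d) := by positivity
    linarith
  have htg : tg R ψ (pos R x) = ψ (pos R x) := if_pos hin
  rw [htg] at hxm
  exact ⟨pos R x, hx.2.1, hx.2.2, hin, hxm⟩

end Pool.Agent.Helper3.Weak
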