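import Pool.Agent.Helper3.Weak.Free

/-!
# The mass of the free Green function outside a slab
-/

open Finset Real Matrix

noncomputable section

namespace Pool.Agent.Helper3.Weak

open Pool.Agent.Helper2.AM

variable {d : ℕ}

/-- The constant of the lower bound of the free mass. -/
def cD (d : ℕ) (a : ℝ) : ℝ :=
  (a / (16 * π * d ^ 2)) ^ (d - 1) * (1 / (8 * π)) * (a / (4 * d) / (72 * π ^ 2))

lemma cD_pos {d : ℕ} (hd : 0 < d) {a : ℝ} (ha : 0 < a) : 0 < cD d a := by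
  have : (0 : ℝ) < d := by exact_mod_cast hd
  unfold cD
  have := pi_pos
  positivity

lemma cD_le_one {d : ℕ} (hd : 0 < d) {a : ℝ} (ha : 0 < a) (ha1 : a ≤ d) : cD d a ≤ 1 := by
  have hd0 : (0 : ℝ) < d := by exact_mod_cast hd
  have hd1 : (1 : ℝ) ≤ d := by exact_mod_cast hd
  have hπ := pi_pos
  have hπ3 := pi_gt_three
  unfold cD
  have e1 : (a / (16 * π * d ^ 2)) ^ (d - 1) ≤ 1 := by
    apply pow_le_one₀ (by positivity)
    rw [div_le_one (by positivity)]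
    nlinarith
  have e2 : 1 / (8 * π) ≤ 1 := by
    rw [div_le_one (by positivity)]; linarith
  have e3 : a / (4 * d) / (72 * π ^ 2) ≤ 1 := by
    rw [div_le_one (by positivity)]
    have : a / (4 * d) ≤ 1 := by rw [div_le_one (by positivity)]; linarith
    nlinarith
  have e5 : (a / (16 * π * d ^ 2)) ^ (d - 1) * (1 / (8 * π)) ≤ 1 :=
    mul_le_one₀ e1 (by positivity) e2
  exact mul_le_one₀ e5 (by positivity) e3

/-- delta function at the origin, on the box -/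
def d0 (R : ℕ) (x : Fin d → Fin (2 * R + 1)) : ℂ := if pos R x = 0 then 1 else 0

/-- the normalisation constant of the modes -/
def nc (d R : ℕ) : ℝ := (√(((2 * R + 1 : ℕ) : ℝ) ^ d))⁻¹

lemma nc_pos (d R : ℕ) : 0 < nc d R := by unfold nc; positivity

lemma nc_sq (d R : ℕ) : nc d R ^ 2 = (((2 * R + 1 : ℕ) : ℝ) ^ d)⁻¹ := by
  unfold nc
  rw [inv_pow, sq_sqrt (by positivity)]

lemma Bm_d0 (R : ℕ) (k : Fin d → Fin (2 * R + 1)) : (Bm d R *ᵥ d0 R) k = (nc d R : ℂ) := by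
  obtain ⟨x0, hx0⟩ := exists_pos (d := d) R 0 (by simp)
  simp only [mulVec, dotProduct, Bm, of_apply, d0]
  rw [Finset.sum_eq_single x0]
  · rw [if_pos hx0, mul_one, bv, hx0]
    have : ph (2 * R + 1) (0 : Fin d → ℤ) k = 1 := by
      unfold ph ph1
      refine Finset.prod_eq_one fun i _ => ?_
      simp
    rw [this, mul_one]
    rfl
  · intro x _ hx
    rw [if_neg, mul_zero]
    intro h
    exact hx (pos_injective R (h.trans hx0.symm))
  · intro h; exact absurd (mem_univ _) h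

lemma modu_add (R : ℕ) (j : Fin d) (q : ℝ) (ψ φ : (Fin d → Fin (2 * R + 1)) → ℂ) :
    modu R j q (ψ + φ) = modu R j q ψ + modu R j q φ := by
  funext x
  simp only [modu, Pi.add_apply]
  ring

/-- the free Green function of the modes -/
def freeP (R : ℕ) (E η : ℝ) : (Fin d → Fin (2 * R + 1)) → ℂ :=
  (Bm d R)ᴴ *ᵥ (fun k => (nc d R : ℂ) * Fr R E η k)

lemma Bm_freeP (R : ℕ) (E η : ℝ) :
    Bm d R *ᵥ freeP R E η = fun k => (nc d R : ℂ) * Fr R E η k := by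
  rw [freeP, mulVec_mulVec, Bm_orth', one_mulVec]

lemma freeP_upper (R : ℕ) (E η C : ℝ) (hη : 0 < η) (hη1 : η ≤ 1) (hC : 0 ≤ C)
    (hcount : ∀ t, η ≤ t → ((univ.filter fun k : Fin d → Fin (2 * R + 1) =>
      |en (2 * R + 1) k - E| ≤ t).card : ℝ) ≤ C * t * ((2 * R + 1 : ℕ) : ℝ) ^ d) :
    nr (freeP (d := d) R E η) ^ 2 ≤ (8 * C + 1) / η := by
  have hN0 : (0 : ℝ) < ((2 * R + 1 : ℕ) : ℝ) ^ d := by positivity
  rw [← nr_Bm, Bm_freeP, nr_sq]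
  unfold nsq
  have h1 : ∀ k : Fin d → Fin (2 * R + 1), ‖(nc d R : ℂ) * Fr R E η k‖ ^ 2 =
      (((2 * R + 1 : ℕ) : ℝ) ^ d)⁻¹ * wt (en (2 * R + 1) k) E η ^ 2 := by
    intro k
    rw [norm_mul, norm_Fr, Complex.norm_real, Real.norm_eq_abs, abs_of_pos (nc_pos d R), mul_pow,
      nc_sq]
  simp_rw [h1]
  rw [← Finset.mul_sum]
  have h2 := sum_wt_sq_le (fun k : Fin d → Fin (2 * R + 1) => en (2 * R + 1) k) E η hη
    hη1 C (((2 * R + 1 : ℕ) : ℝ) ^ d) hC hN0.le (by simp) hcount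
  generalize ((2 * R + 1 : ℕ) : ℝ) ^ d = N at h2 hN0 ⊢
  calc N⁻¹ * ∑ k : Fin d → Fin (2 * R + 1), wt (en (2 * R + 1) k) E η ^ 2
      ≤ N⁻¹ * ((8 * C + 1) / η * N) := by gcongr
    _ = (8 * C + 1) / η := by field_simp

lemma freeP_lower (R : ℕ) (hR : 1 ≤ R) (j : Fin d) (E η a : ℝ) (ha : 0 < a) (ha1 : a ≤ d)
    (hE1 : a ≤ E) (hE2 : E ≤ 4 * d - a) (hη : 0 < η) (hη1 : η ≤ a / (4 * d))
    (hηL : 8 * π ≤ η * (2 * R + 1 : ℕ)) (hδL : 8 * π ≤ a / (2 * d ^ 2) * (2 * R + 1 : ℕ))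
    (hη2 : 2 * η ≤ √(a / (4 * d) / 2)) (hη3 : 2 * η ≤ 1) (m : Fin (2 * R + 1))
    (hm1 : η ≤ 2 * π * (m : ℕ) / (2 * R + 1 : ℕ)) (hm2 : 2 * π * (m : ℕ) / (2 * R + 1 : ℕ) ≤ 2 * η) :
    cD d a / η ≤ nr (modu R j (2 * π * (m : ℕ) / (2 * R + 1 : ℕ)) (freeP R E η)
      - freeP (d := d) R E η) ^ 2 := by
  have hd : 0 < d := Fin.pos j
  have hd0 : (0 : ℝ) < d := by exact_mod_cast hd
  have hπ := pi_pos
  set P : (Fin d → Fin (2 * R + 1)) → ℂ := freeP R E η with hP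
  have hdiff : ∀ k ∈ shell d (2 * R + 1) j E η (a / (4 * d)),
      a / (4 * d) / (72 * π ^ 2 * η ^ 2) ≤
        ‖Fr R E η (shm j m k) - Fr R E η k‖ ^ 2 := by
    intro k hk
    have hb : 0 < a / (4 * d) := by positivity
    have hb2 : a / (4 * d) ≤ 2 := by
      rw [div_le_iff₀ (by positivity)]; linarith
    exact Fr_diff R j E η (a / (4 * d)) hη hb hb2 m hm1 hm2 hη2 hη3 k hk
  have h1 : nr (modu R j (2 * π * (m : ℕ) / (2 * R + 1 : ℕ)) P - P) =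
      nr (Bm d R *ᵥ (modu R j (2 * π * (m : ℕ) / (2 * R + 1 : ℕ)) P - P)) := (nr_Bm d R _).symm
  rw [h1, mulVec_sub, nr_sq]
  unfold nsq
  have h2 : ∀ k : Fin d → Fin (2 * R + 1),
      ‖(Bm d R *ᵥ modu R j (2 * π * (m : ℕ) / (2 * R + 1 : ℕ)) P - Bm d R *ᵥ P) k‖ ^ 2 =
        (((2 * R + 1 : ℕ) : ℝ) ^ d)⁻¹ * ‖Fr R E η (shm j m k) - Fr R E η k‖ ^ 2 := by
    intro k
    rw [Pi.sub_apply, Bm_modu R j m P k, hP, Bm_freeP]
    simp only
    rw [← mul_sub, norm_mul, mul_pow, Complex.norm_real, Real.norm_eq_abs, abs_of_pos (nc_pos d R),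
      nc_sq]
  rw [Finset.sum_congr rfl fun k _ => h2 k, ← Finset.mul_sum]
  have h3 : ((shell d (2 * R + 1) j E η (a / (4 * d))).card : ℝ) *
      (a / (4 * d) / (72 * π ^ 2 * η ^ 2)) ≤
      ∑ k : Fin d → Fin (2 * R + 1), ‖Fr R E η (shm j m k) - Fr R E η k‖ ^ 2 := by
    calc ((shell d (2 * R + 1) j E η (a / (4 * d))).card : ℝ) *
          (a / (4 * d) / (72 * π ^ 2 * η ^ 2))
        = ∑ _k ∈ shell d (2 * R + 1) j E η (a / (4 * d)), a / (4 * d) / (72 * π ^ 2 * η ^ 2) := by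
          rw [Finset.sum_const, nsmul_eq_mul]
      _ ≤ ∑ k ∈ shell d (2 * R + 1) j E η (a / (4 * d)),
          ‖Fr R E η (shm j m k) - Fr R E η k‖ ^ 2 :=
          Finset.sum_le_sum hdiff
      _ ≤ _ := Finset.sum_le_univ_sum_of_nonneg fun k => by positivity
  have h4 := shell_card d (2 * R + 1) (by omega) j E η a ha ha1 hE1 hE2 hη hη1 hηL hδL
  have hL0 : (0 : ℝ) < ((2 * R + 1 : ℕ) : ℝ) := by positivity
  generalize ((2 * R + 1 : ℕ) : ℝ) = L at h4 hL0 ⊢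
  generalize ((shell d (2 * R + 1) j E η (a / (4 * d))).card : ℝ) = S at h3 h4
  generalize ∑ k : Fin d → Fin (2 * R + 1), ‖Fr R E η (shm j m k) - Fr R E η k‖ ^ 2 = T
    at h3 ⊢
  have hN0 : 0 < L ^ d := by positivity
  have h5 : cD d a / η = (L ^ d)⁻¹ * (((a / (16 * π * d ^ 2)) ^ (d - 1) * (η / (8 * π)) * L ^ d) *
      (a / (4 * d) / (72 * π ^ 2 * η ^ 2))) := by
    unfold cD
    field_simp
  rw [h5]
  have h6 : 0 ≤ a / (4 * d) / (72 * π ^ 2 * η ^ 2) := by positivity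
  exact mul_le_mul_of_nonneg_left ((mul_le_mul_of_nonneg_right h4 h6).trans h3) (by positivity)

lemma exists_shift (R : ℕ) (hR : 1 ≤ R) (η : ℝ) (hη : 0 < η) (hη3 : 2 * η ≤ 1)
    (hηL : 8 * π ≤ η * (2 * R + 1 : ℕ)) :
    ∃ m : Fin (2 * R + 1), η ≤ 2 * π * (m : ℕ) / (2 * R + 1 : ℕ) ∧
      2 * π * (m : ℕ) / (2 * R + 1 : ℕ) ≤ 2 * η := by
  have hπ := pi_pos
  have hπ3 := pi_gt_three
  have hL0 : (0 : ℝ) < ((2 * R + 1 : ℕ) : ℝ) := by positivity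
  have hL3 : (3 : ℝ) ≤ ((2 * R + 1 : ℕ) : ℝ) := by
    have : 3 ≤ 2 * R + 1 := by omega
    exact_mod_cast this
  have h1 : 0 ≤ η * ((2 * R + 1 : ℕ) : ℝ) / (2 * π) := by positivity
  have h2 := Nat.le_ceil (η * ((2 * R + 1 : ℕ) : ℝ) / (2 * π))
  have h3 := (Nat.ceil_lt_add_one h1).le
  have h4 : 4 ≤ η * ((2 * R + 1 : ℕ) : ℝ) / (2 * π) := by
    rw [le_div_iff₀ (by positivity)]; linarith
  have h5 : ⌈η * ((2 * R + 1 : ℕ) : ℝ) / (2 * π)⌉₊ < 2 * R + 1 := by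
    have : (⌈η * ((2 * R + 1 : ℕ) : ℝ) / (2 * π)⌉₊ : ℝ) < ((2 * R + 1 : ℕ) : ℝ) := by
      have h6 : η * ((2 * R + 1 : ℕ) : ℝ) / (2 * π) ≤ ((2 * R + 1 : ℕ) : ℝ) / 4 := by
        rw [div_le_iff₀ (by positivity)]
        nlinarith
      linarith
    exact_mod_cast this
  refine ⟨⟨_, h5⟩, ?_, ?_⟩
  · simp only
    rw [le_div_iff₀ hL0]
    rw [div_le_iff₀ (by positivity)] at h2
    linarith
  · simp only
    rw [div_le_iff₀ hL0]
    have h6 : (⌈η * ((2 * R + 1 : ℕ) : ℝ) / (2 * π)⌉₊ : ℝ) ≤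
        2 * (η * ((2 * R + 1 : ℕ) : ℝ) / (2 * π)) := by linarith
    have h7 : 2 * (η * ((2 * R + 1 : ℕ) : ℝ) / (2 * π)) = η * ((2 * R + 1 : ℕ) : ℝ) / π := by
      field_simp
    rw [h7, le_div_iff₀ hπ] at h6
    linarith

/-- a solution of the free equation with a small defect -/
lemma near_free (R : ℕ) (E η : ℝ) (hη : 0 < η) (φ g : (Fin d → Fin (2 * R + 1)) → ℂ)
    (hφ : ∀ k, (((en (2 * R + 1) k - E : ℝ) : ℂ) - η * Complex.I) * (Bm d R *ᵥ φ) k =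
      (Bm d R *ᵥ d0 R) k + (Bm d R *ᵥ g) k) :
    nr (φ - freeP R E η) ≤ nr g / η := by
  have h1 : Bm d R *ᵥ (φ - freeP R E η) = fun k => Fr R E η k * (Bm d R *ᵥ g) k := by
    rw [mulVec_sub, Bm_freeP]
    funext k
    have h1 := hφ k
    rw [Bm_d0] at h1
    have h2 := den_ne (en (2 * R + 1) k - E) hη
    rw [Pi.sub_apply]
    have h3 : (Bm d R *ᵥ φ) k = Fr R E η k * ((nc d R : ℂ) + (Bm d R *ᵥ g) k) := by
      rw [← h1]
      unfold Fr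
      rw [← mul_assoc, inv_mul_cancel₀ h2, one_mul]
    rw [h3]
    ring
  rw [← nr_Bm, h1, le_div_iff₀ hη]
  apply le_of_sq_le_sq _ (nr_nonneg _)
  rw [mul_pow, nr_sq, ← nr_Bm d R g, nr_sq]
  unfold nsq
  rw [Finset.sum_mul]
  refine Finset.sum_le_sum fun k _ => ?_
  rw [norm_mul, norm_Fr, mul_pow]
  have h1 := wt_le_inv (en (2 * R + 1) k) E η hη
  have h2 := (wt_pos (en (2 * R + 1) k) E η hη).le
  have h3 : wt (en (2 * R + 1) k) E η * η ≤ 1 := by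
    rw [le_div_iff₀ hη] at h1; exact h1
  have h4 : (wt (en (2 * R + 1) k) E η * η) ^ 2 ≤ 1 := by
    have := pow_le_pow_left₀ (mul_nonneg h2 hη.le) h3 2
    simpa using this
  calc wt (en (2 * R + 1) k) E η ^ 2 * ‖(Bm d R *ᵥ g) k‖ ^ 2 * η ^ 2
      = (wt (en (2 * R + 1) k) E η * η) ^ 2 * ‖(Bm d R *ᵥ g) k‖ ^ 2 := by ring
    _ ≤ 1 * ‖(Bm d R *ᵥ g) k‖ ^ 2 := by gcongr
    _ = _ := one_mul _

theorem free_mass (R : ℕ) (hR : 1 ≤ R) (j : Fin d) (E η a s C : ℝ) (ha : 0 < a) (ha1 : a ≤ d)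
    (hE1 : a ≤ E) (hE2 : E ≤ 4 * d - a) (hη : 0 < η) (hη1 : η ≤ a / (4 * d))
    (hηL : 8 * π ≤ η * (2 * R + 1 : ℕ)) (hδL : 8 * π ≤ a / (2 * d ^ 2) * (2 * R + 1 : ℕ))
    (hη2 : 2 * η ≤ √(a / (4 * d) / 2)) (hη3 : 2 * η ≤ 1) (hC : 0 ≤ C)
    (hcount : ∀ t, η ≤ t → ((univ.filter fun k : Fin d → Fin (2 * R + 1) =>
      |en (2 * R + 1) k - E| ≤ t).card : ℝ) ≤ C * t * ((2 * R + 1 : ℕ) : ℝ) ^ d)
    (φ g : (Fin d → Fin (2 * R + 1)) → ℂ)
    (hφ : ∀ k, (((en (2 * R + 1) k - E : ℝ) : ℂ) - η * Complex.I) * (Bm d R *ᵥ φ) k =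
      (Bm d R *ᵥ d0 R) k + (Bm d R *ᵥ g) k)
    (hg : nr g ≤ 1 / 4 * √(cD d a * η)) (hs0 : 0 ≤ s)
    (hs : (2 * η * s) ^ 2 * (16 * C + 3) ≤ cD d a / 8) :
    cD d a / (32 * η) ≤ ∑ x, (if s ≤ |((pos R x j : ℤ) : ℝ)| then ‖φ x‖ ^ 2 else 0) := by
  have hd : 0 < d := Fin.pos j
  have hcD := cD_pos hd ha
  have hcD1 := cD_le_one hd ha ha1
  obtain ⟨m, hm1, hm2⟩ := exists_shift R hR η hη hη3 hηL
  have hlow := freeP_lower R hR j E η a ha ha1 hE1 hE2 hη hη1 hηL hδL hη2 hη3 m hm1 hm2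
  have hup := freeP_upper (d := d) R E η C hη (by linarith) hC hcount
  have hnear := near_free R E η hη φ g hφ
  generalize 2 * π * (m : ℕ) / (2 * R + 1 : ℕ) = q at hm1 hm2 hlow
  have hq0 : 0 ≤ q := hη.le.trans hm1
  generalize freeP (d := d) R E η = P at hlow hup hnear
  set Q := φ - P with hQ
  have hPQ : φ = P + Q := by rw [hQ]; abel
  have hQn2 : nr Q ≤ 1 / 4 * √(cD d a / η) := by
    refine hnear.trans ?_
    have h1 : √(cD d a * η) / η = √(cD d a / η) := by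
      have h0 : cD d a * η = cD d a / η * η ^ 2 := by field_simp
      rw [h0, Real.sqrt_mul (by positivity), Real.sqrt_sq hη.le, mul_div_assoc, div_self hη.ne',
        mul_one]
    calc nr g / η ≤ (1 / 4 * √(cD d a * η)) / η := div_le_div_of_nonneg_right hg hη.le
      _ = 1 / 4 * (√(cD d a * η) / η) := by ring
      _ = _ := by rw [h1]
  have h1 : modu R j q φ - φ = (modu R j q P - P) + (modu R j q Q - Q) := by
    rw [hPQ, modu_add]; abel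
  have h2 : nr (modu R j q Q - Q) ≤ 2 * nr Q := by
    have := nr_sub_le (modu R j q Q) Q
    rw [nr_modu] at this
    linarith
  have h3 : nr (modu R j q P - P) ≤ nr (modu R j q φ - φ) + 2 * nr Q := by
    have h4 : modu R j q P - P = (modu R j q φ - φ) - (modu R j q Q - Q) := by rw [h1]; abel
    have h5 := nr_sub_le (modu R j q φ - φ) (modu R j q Q - Q)
    rw [← h4] at h5
    linarith
  set Y : ℝ := √(cD d a / η) with hY
  have hY0 : 0 ≤ Y := sqrt_nonneg _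
  have hY2 : Y ^ 2 = cD d a / η := sq_sqrt (by positivity)
  have h4 : Y ≤ nr (modu R j q P - P) := by
    rw [hY, Real.sqrt_le_left (nr_nonneg _)]
    exact hlow
  have h5 : 1 / 2 * Y ≤ nr (modu R j q φ - φ) := by linarith
  have h6 : 1 / 4 * Y ^ 2 ≤ nr (modu R j q φ - φ) ^ 2 := by
    have := pow_le_pow_left₀ (by positivity) h5 2
    nlinarith
  have h7 := modu_mass R j q s hq0 φ
  have h8 : nr φ ^ 2 ≤ 2 * nr P ^ 2 + 2 * nr Q ^ 2 := by
    have h9 : nr φ ≤ nr P + nr Q := by rw [hPQ]; exact nr_add_le _ _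
    have h10 := pow_le_pow_left₀ (nr_nonneg _) h9 2
    nlinarith [sq_nonneg (nr P - nr Q)]
  have h9 : nr Q ^ 2 ≤ 1 / 2 / η := by
    have h10 := pow_le_pow_left₀ (nr_nonneg _) hQn2 2
    rw [mul_pow, hY2] at h10
    have : (1 / 4 : ℝ) ^ 2 * (cD d a / η) ≤ 1 / 2 / η := by
      rw [← mul_div_assoc]
      gcongr
      linarith
    linarith
  have h10 : nr φ ^ 2 ≤ (16 * C + 3) / η := by
    have : (16 * C + 3) / η = 2 * ((8 * C + 1) / η) + 2 * (1 / 2 / η) := by ring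
    rw [this]; linarith
  have h11 : (q * s) ^ 2 * nr φ ^ 2 ≤ cD d a / 8 / η := by
    calc (q * s) ^ 2 * nr φ ^ 2 ≤ (2 * η * s) ^ 2 * ((16 * C + 3) / η) := by
          apply mul_le_mul _ h10 (by positivity) (by positivity)
          exact pow_le_pow_left₀ (by positivity) (mul_le_mul_of_nonneg_right hm2 hs0) 2
      _ = ((2 * η * s) ^ 2 * (16 * C + 3)) / η := by ring
      _ ≤ cD d a / 8 / η := by gcongr
  rw [hY2] at h6
  have h12 : cD d a / (32 * η) = 1 / 4 * (1 / 4 * (cD d a / η) - cD d a / 8 / η) := by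
    field_simp
    ring
  rw [h12]
  linarith

end Pool.Agent.Helper3.Weak
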