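import Pool.Agent.Helper3.Weak.Poly

/-!
# A second moment bound for the logarithm of the Green function along an axis
-/

open scoped ENNReal NNReal
open MeasureTheory Set Real Filter Topology

noncomputable section

namespace Pool.Agent.Helper3.Weak

open Pool.Agent.Helper3.Anderson

variable {d : ℕ}
variable {μ : Measure ℝ} [IsProbabilityMeasure μ] {M lam : ℝ} {K : ℝ≥0} {z : ℂ} {Z t : ℝ}

lemma quarter_le_half {x : ℝ} (hx : 0 ≤ x) : x ^ (1 / 4 : ℝ) ≤ 1 + x ^ (1 / 2 : ℝ) := by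
  rcases le_total x 1 with h | h
  · have h1 : x ^ (1 / 4 : ℝ) ≤ 1 := Real.rpow_le_one hx h (by norm_num)
    have h2 : 0 ≤ x ^ (1 / 2 : ℝ) := Real.rpow_nonneg hx _
    linarith
  · have h1 : x ^ (1 / 4 : ℝ) ≤ x ^ (1 / 2 : ℝ) := Real.rpow_le_rpow_of_exponent_le h (by norm_num)
    linarith

lemma inv_rpow_half_ofReal (g : ℂ) :
    ENNReal.ofReal (‖g‖⁻¹ ^ (1 / 2 : ℝ)) ≤ ‖g‖ₑ ^ (-(1/2 : ℝ)) := by
  rcases eq_or_ne g 0 with rfl | hg
  · simp
  · have h0 : 0 < ‖g‖ := norm_pos_iff.2 hg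
    rw [Real.inv_rpow h0.le, ← Real.rpow_neg h0.le, ← ofReal_norm,
      ENNReal.ofReal_rpow_of_pos h0]

/-- Second moment of the logarithm for nearest neighbours. -/
lemma integral_pl_sq_nbr (hμ : GoodLaw μ M K) (hlam : 0 < lam) (hlam1 : lam ≤ 1) (hz0 : 0 < z.im)
    (hZ : 1 ≤ Z) (hzZ : ‖z‖ ≤ Z) (ht : 1 ≤ t) (ht1 : lam⁻¹ ≤ t) (ht2 : z.im⁻¹ ≤ t)
    (a b : Site d) (i : Fin d) (hb : b = a + Pi.single i 1 ∨ b = a - Pi.single i 1) :
    ∫ ω, pl M lam z ω a b ^ 2 ∂(PP d μ) ≤ 64 * (1 + PN d M Z K t) := by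
  have hM1 := hμ.one_le
  have hPN : 0 ≤ PN d M Z K t := PN_nonneg hM1 hZ ht
  have hmain : ∫⁻ ω, ENNReal.ofReal (pl M lam z ω a b ^ 2) ∂(PP d μ) ≤
      ENNReal.ofReal (64 * (1 + PN d M Z K t)) := by
    calc ∫⁻ ω, ENNReal.ofReal (pl M lam z ω a b ^ 2) ∂(PP d μ)
        ≤ ∫⁻ ω, ENNReal.ofReal 64 * (1 + ‖gc M lam z ω a b‖ₑ ^ (-(1/2 : ℝ))) ∂(PP d μ) := by
          apply lintegral_mono
          intro ω
          have h1 : pl M lam z ω a b ^ 2 ≤ 64 * (1 + ‖gc M lam z ω a b‖⁻¹ ^ (1 / 2 : ℝ)) := by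
            have h2 := posLog_sq_le (x := ‖gc M lam z ω a b‖⁻¹) (by positivity)
            have h3 := quarter_le_half (x := ‖gc M lam z ω a b‖⁻¹) (by positivity)
            unfold pl
            linarith
          calc ENNReal.ofReal (pl M lam z ω a b ^ 2)
              ≤ ENNReal.ofReal (64 * (1 + ‖gc M lam z ω a b‖⁻¹ ^ (1 / 2 : ℝ))) :=
                ENNReal.ofReal_le_ofReal h1
            _ = ENNReal.ofReal 64 * (1 + ENNReal.ofReal (‖gc M lam z ω a b‖⁻¹ ^ (1 / 2 : ℝ))) := by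
                rw [ENNReal.ofReal_mul (by norm_num), ENNReal.ofReal_add (by norm_num)
                  (Real.rpow_nonneg (by positivity) _), ENNReal.ofReal_one]
            _ ≤ _ := mul_le_mul_right (add_le_add_right (inv_rpow_half_ofReal _) _) _
      _ = ENNReal.ofReal 64 * (1 + ∫⁻ ω, ‖gc M lam z ω a b‖ₑ ^ (-(1/2 : ℝ)) ∂(PP d μ)) := by
          have hm : Measurable fun ω : Site d → ℝ => ‖gc M lam z ω a b‖ₑ ^ (-(1/2 : ℝ)) :=
            ((measurable_gc (by linarith) hz0 a b).enorm).pow_const _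
          have hm2 : Measurable fun ω : Site d → ℝ =>
              (1 : ℝ≥0∞) + ‖gc M lam z ω a b‖ₑ ^ (-(1/2 : ℝ)) := measurable_const.add hm
          rw [lintegral_const_mul _ hm2, lintegral_add_left measurable_const,
            lintegral_const, measure_univ, mul_one]
      _ ≤ ENNReal.ofReal 64 * (1 + ENNReal.ofReal (PN d M Z K t)) := by
          gcongr
          exact nbr_poly hμ hlam hlam1 hz0 hZ hzZ ht ht1 ht2 a b i hb
      _ = _ := by
          rw [ENNReal.ofReal_mul (by norm_num), ENNReal.ofReal_add (by norm_num) hPN,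
            ENNReal.ofReal_one]
  rw [integral_eq_lintegral_of_nonneg_ae (Filter.Eventually.of_forall fun ω => sq_nonneg _)
    ((measurable_pl (by linarith) hz0 a b).pow_const 2).aestronglyMeasurable]
  refine ENNReal.toReal_le_of_le_ofReal (by positivity) hmain

lemma integral_posLog_rr_sq (hμ : GoodLaw μ M K) (hlam : 0 < lam) (hz0 : 0 < z.im)
    (x u y : Site d) :
    ∫ ω, posLog (rr M lam z x u y ω) ^ 2 ∂(PP d μ) ≤ 64 * (C2 M lam K).toReal := by
  calc ∫ ω, posLog (rr M lam z x u y ω) ^ 2 ∂(PP d μ)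
      ≤ ∫ ω, 64 * (rr M lam z x u y ω) ^ (1 / 4 : ℝ) ∂(PP d μ) := by
        apply integral_mono_of_nonneg (Filter.Eventually.of_forall fun ω => sq_nonneg _)
          ((integrable_rr_rpow hμ hlam hz0 x u y).const_mul 64)
        exact Filter.Eventually.of_forall fun ω => posLog_sq_le (rr_nonneg x u y ω)
    _ = 64 * ∫ ω, (rr M lam z x u y ω) ^ (1 / 4 : ℝ) ∂(PP d μ) := integral_const_mul _ _
    _ ≤ _ := by
        have := integral_rr_rpow hμ hlam hz0 x u y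
        linarith

/-- The step from `(i+1) e_j` to `i e_j`. -/
def stp (M lam : ℝ) (z : ℂ) (j : Fin d) (i : ℕ) (ω : Site d → ℝ) : ℝ :=
  pl M lam z ω (Pi.single j ((i : ℤ) + 1)) (Pi.single j (i : ℤ)) +
    posLog (rr M lam z (Pi.single j ((i : ℤ) + 1)) (Pi.single j (i : ℤ)) 0 ω)

lemma stp_nonneg (j : Fin d) (i : ℕ) (ω : Site d → ℝ) : 0 ≤ stp M lam z j i ω :=
  add_nonneg (pl_nonneg M lam z ω _ _) posLog_nonneg

lemma pl_le_sum (j : Fin d) (ω : Site d → ℝ) (h : ∀ x y : Site d, gc M lam z ω x y ≠ 0) (n : ℕ) :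
    pl M lam z ω (Pi.single j ((n : ℤ) + 1)) 0 ≤ ∑ i ∈ Finset.range (n + 1), stp M lam z j i ω := by
  induction n with
  | zero =>
    rw [Finset.sum_range_one]
    unfold stp
    have h1 : (0 : ℝ) ≤ posLog (rr M lam z (Pi.single j (((0 : ℕ) : ℤ) + 1))
      (Pi.single j ((0 : ℕ) : ℤ)) 0 ω) := posLog_nonneg
    have h2 : (Pi.single j ((0 : ℕ) : ℤ) : Site d) = 0 := by simp
    rw [h2] at h1 ⊢
    linarith
  | succ n ih =>
    rw [Finset.sum_range_succ]
    have h1 := pl_le (M := M) (lam := lam) (z := z) ω h (Pi.single j (((n + 1 : ℕ) : ℤ) + 1))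
      (Pi.single j ((n + 1 : ℕ) : ℤ)) 0
    have h2 : ((n + 1 : ℕ) : ℤ) = (n : ℤ) + 1 := by push_cast; ring
    have h3 : stp M lam z j (n + 1) ω = pl M lam z ω (Pi.single j (((n + 1 : ℕ) : ℤ) + 1))
      (Pi.single j ((n + 1 : ℕ) : ℤ)) + posLog (rr M lam z (Pi.single j (((n + 1 : ℕ) : ℤ) + 1))
      (Pi.single j ((n + 1 : ℕ) : ℤ)) 0 ω) := rfl
    rw [h3]
    rw [← h2] at ih
    linarith

lemma integral_stp_sq (hμ : GoodLaw μ M K) (hlam : 0 < lam) (hlam1 : lam ≤ 1) (hz0 : 0 < z.im)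
    (hZ : 1 ≤ Z) (hzZ : ‖z‖ ≤ Z) (ht : 1 ≤ t) (ht1 : lam⁻¹ ≤ t) (ht2 : z.im⁻¹ ≤ t)
    (j : Fin d) (i : ℕ) :
    Integrable (fun ω => stp M lam z j i ω ^ 2) (PP d μ) ∧
    ∫ ω, stp M lam z j i ω ^ 2 ∂(PP d μ) ≤ 128 * (1 + PN d M Z K t + (C2 M lam K).toReal) := by
  have hM0 : 0 ≤ M := by linarith [hμ.one_le]
  set x : Site d := Pi.single j ((i : ℤ) + 1) with hx
  set u : Site d := Pi.single j (i : ℤ) with hu
  have hxu : x = u + Pi.single j 1 := by rw [hx, hu, ← Pi.single_add]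
  have h1 : Integrable (fun ω => pl M lam z ω x u ^ 2) (PP d μ) :=
    integrable_pl_sq hμ hlam hz0 x u
  have h2 : Integrable (fun ω => posLog (rr M lam z x u 0 ω) ^ 2) (PP d μ) :=
    (memLp_posLog_rr hμ hlam hz0 x u 0).integrable_sq
  have hpt : ∀ ω, stp M lam z j i ω ^ 2 ≤ 2 * pl M lam z ω x u ^ 2 +
      2 * posLog (rr M lam z x u 0 ω) ^ 2 := by
    intro ω
    change (pl M lam z ω x u + posLog (rr M lam z x u 0 ω)) ^ 2 ≤ _
    nlinarith [sq_nonneg (pl M lam z ω x u - posLog (rr M lam z x u 0 ω))]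
  have hint : Integrable (fun ω => 2 * pl M lam z ω x u ^ 2 +
      2 * posLog (rr M lam z x u 0 ω) ^ 2) (PP d μ) := (h1.const_mul 2).add (h2.const_mul 2)
  have hmeas : Measurable fun ω : Site d → ℝ => stp M lam z j i ω := by
    unfold stp
    exact (measurable_pl hM0 hz0 _ _).add
      (continuous_posLog.measurable.comp (measurable_rr hM0 hz0 _ _ _))
  refine ⟨hint.mono' (hmeas.pow_const 2).aestronglyMeasurable
    (Filter.Eventually.of_forall fun ω => ?_), ?_⟩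
  · rw [Real.norm_of_nonneg (sq_nonneg _)]
    exact hpt ω
  · have e1 : ∫ ω, pl M lam z ω x u ^ 2 ∂(PP d μ) ≤ 64 * (1 + PN d M Z K t) := by
      have := integral_pl_sq_nbr (d := d) hμ hlam hlam1 hz0 hZ hzZ ht ht1 ht2 x u j
        (Or.inr (by rw [hxu]; simp))
      exact this
    have e2 := integral_posLog_rr_sq (d := d) hμ hlam hz0 x u 0
    calc ∫ ω, stp M lam z j i ω ^ 2 ∂(PP d μ)
        ≤ ∫ ω, (2 * pl M lam z ω x u ^ 2 + 2 * posLog (rr M lam z x u 0 ω) ^ 2) ∂(PP d μ) :=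
          integral_mono_of_nonneg (Filter.Eventually.of_forall fun ω => sq_nonneg _) hint
            (Filter.Eventually.of_forall hpt)
      _ = 2 * ∫ ω, pl M lam z ω x u ^ 2 ∂(PP d μ) +
          2 * ∫ ω, posLog (rr M lam z x u 0 ω) ^ 2 ∂(PP d μ) := by
          rw [integral_add (h1.const_mul 2) (h2.const_mul 2), integral_const_mul,
            integral_const_mul]
      _ ≤ _ := by linarith

/-- Second moment of the logarithm at distance `n + 1` along an axis. -/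
theorem integral_pl_sq (hμ : GoodLaw μ M K) (hlam : 0 < lam) (hlam1 : lam ≤ 1) (hz0 : 0 < z.im)
    (hZ : 1 ≤ Z) (hzZ : ‖z‖ ≤ Z) (ht : 1 ≤ t) (ht1 : lam⁻¹ ≤ t) (ht2 : z.im⁻¹ ≤ t)
    (j : Fin d) (n : ℕ) :
    ∫ ω, pl M lam z ω (Pi.single j ((n : ℤ) + 1)) 0 ^ 2 ∂(PP d μ) ≤
      128 * ((n : ℝ) + 1) ^ 2 * (1 + PN d M Z K t + (C2 M lam K).toReal) := by
  have hall := ae_all_ne (d := d) hμ hlam hz0
  have hpt : ∀ᵐ ω ∂(PP d μ), pl M lam z ω (Pi.single j ((n : ℤ) + 1)) 0 ^ 2 ≤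
      ((n : ℝ) + 1) * ∑ i ∈ Finset.range (n + 1), stp M lam z j i ω ^ 2 := by
    filter_upwards [hall] with ω h
    have h1 := pl_le_sum (M := M) (lam := lam) (z := z) j ω h n
    have h2 : (∑ i ∈ Finset.range (n + 1), stp M lam z j i ω) ^ 2 ≤
        ((n : ℝ) + 1) * ∑ i ∈ Finset.range (n + 1), stp M lam z j i ω ^ 2 := by
      have := sq_sum_le_card_mul_sum_sq (s := Finset.range (n + 1))
        (f := fun i => stp M lam z j i ω)
      rw [Finset.card_range] at this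
      push_cast at this
      exact this
    exact (pow_le_pow_left₀ (pl_nonneg M lam z ω _ _) h1 2).trans h2
  have hI := fun i => integral_stp_sq (Z := Z) (t := t) hμ hlam hlam1 hz0 hZ hzZ ht ht1 ht2 j i
  have hint : Integrable (fun ω => ((n : ℝ) + 1) * ∑ i ∈ Finset.range (n + 1),
      stp M lam z j i ω ^ 2) (PP d μ) :=
    (integrable_finsetSum _ fun i _ => (hI i).1).const_mul _
  calc ∫ ω, pl M lam z ω (Pi.single j ((n : ℤ) + 1)) 0 ^ 2 ∂(PP d μ)
      ≤ ∫ ω, ((n : ℝ) + 1) * ∑ i ∈ Finset.range (n + 1), stp M lam z j i ω ^ 2 ∂(PP d μ) :=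
        integral_mono_of_nonneg (Filter.Eventually.of_forall fun ω => sq_nonneg _) hint hpt
    _ = ((n : ℝ) + 1) * ∑ i ∈ Finset.range (n + 1), ∫ ω, stp M lam z j i ω ^ 2 ∂(PP d μ) := by
        rw [integral_const_mul, integral_finsetSum _ fun i _ => (hI i).1]
    _ ≤ ((n : ℝ) + 1) * ∑ i ∈ Finset.range (n + 1),
          128 * (1 + PN d M Z K t + (C2 M lam K).toReal) := by
        gcongr with i _
        exact (hI i).2
    _ = _ := by
        rw [Finset.sum_const, Finset.card_range, nsmul_eq_mul]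
        push_cast
        ring

end Pool.Agent.Helper3.Weak
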