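import Pool.Agent.Helper3.Weak.Event
import Pool.Agent.Helper3.Weak.Q2
import Pool.Agent.Helper2.AM.Window

/-!
# Choice of the parameters
-/

open scoped ENNReal NNReal
open MeasureTheory Set Real Filter Topology

noncomputable section

namespace Pool.Agent.Helper3.Weak

open Pool.Agent.Helper3.Anderson
open Pool.Agent.Helper2.AM (pos en wt nsq)

variable {d : ℕ}

/-- A bound on the number of momenta in an energy window. -/
def CB (d : ℕ) (C : ℝ) (S : Set ℝ) : Prop :=
  ∀ (R : ℕ) (E0 t : ℝ), E0 ∈ S → 0 ≤ t → 1 ≤ t * (2 * R + 1 : ℕ) →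
    ((Finset.univ.filter fun k : Fin d → Fin (2 * R + 1) => |en (2 * R + 1) k - E0| ≤ t).card : ℝ) ≤
      C * t * ((2 * R + 1 : ℕ) : ℝ) ^ d

lemma CB_all (m : ℕ) : CB (m + 3) ((m + 3) * (12 ^ (m + 2) + 2)) Set.univ := by
  intro R E0 t _ ht htL
  have := Pool.Agent.Helper2.AM.count_window m (2 * R + 1) E0 t ht (by exact_mod_cast htL)
  exact_mod_cast this

lemma CB_bulk (hd : 1 ≤ d) (δ : ℝ) (hδ : 0 < δ) :
    CB d (d * (1 / √(δ / (8 * d)) + 2) + 2 / δ) (Pool.Agent.Helper2.AM.bulk d δ) := by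
  classical
  intro R E0 t hE ht htL
  have hw := Pool.Agent.Helper2.AM.window_bulk (d := d) hd R E0 t δ hδ ht htL hE 1 le_rfl
    (fun _ => Finset.univ.filter fun x : Fin (2 * R + 1) => (x : ℤ) - R = 0) (fun j => by
      rw [Finset.card_le_one]
      intro a ha b hb
      simp only [Finset.mem_filter, Finset.mem_univ, true_and] at ha hb
      ext; omega) (d0 R) (fun j x hx => by
      unfold d0
      rw [if_neg]
      intro h
      apply hx
      simp only [Finset.mem_filter, Finset.mem_univ, true_and]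
      have := congrFun h j
      simpa [pos] using this)
  have hn : ∀ k : Fin d → Fin (2 * R + 1),
      ‖(Matrix.mulVec (Pool.Agent.Helper2.AM.Bm d R) (d0 R)) k‖ ^ 2 =
        (((2 * R + 1 : ℕ) : ℝ) ^ d)⁻¹ := by
    intro k
    rw [Bm_d0, Complex.norm_real, Real.norm_of_nonneg (nc_pos d R).le, nc_sq]
  simp only [hn, Finset.sum_const, nsmul_eq_mul, Finset.card_univ, Fintype.card_pi,
    Finset.prod_const, Fintype.card_fin] at hw
  have hL : (0 : ℝ) < ((2 * R + 1 : ℕ) : ℝ) ^ d := by positivity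
  have e1 : ((((2 * R + 1) ^ d : ℕ) : ℝ)) * (((2 * R + 1 : ℕ) : ℝ) ^ d)⁻¹ = 1 := by
    push_cast at hL ⊢
    exact mul_inv_cancel₀ hL.ne'
  rw [e1, mul_one, Nat.cast_one, mul_one] at hw
  rw [← div_eq_mul_inv, div_le_iff₀ hL] at hw
  exact hw

lemma CB_diag (C : ℝ) (S : Set ℝ) (hC : 0 ≤ C) (h : CB d C S) (R : ℕ) (E0 η : ℝ) (hE : E0 ∈ S)
    (hη : 0 < η) (hη1 : η ≤ 1 / 2) (hηL : 1 ≤ η * (2 * R + 1 : ℕ)) :
    (((2 * R + 1 : ℕ) : ℝ) ^ d)⁻¹ *
      ∑ k : Fin d → Fin (2 * R + 1), wt (en (2 * R + 1) k) E0 η ≤ (12 * C + 2) * log (1 / η) := by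
  have hL : (0 : ℝ) < ((2 * R + 1 : ℕ) : ℝ) ^ d := by positivity
  have h1 := Pool.Agent.Helper2.AM.sum_wt_log (fun k : Fin d → Fin (2 * R + 1) => en (2 * R + 1) k)
    (fun _ => 1) (fun _ => zero_le_one) E0 η hη hη1 C (((2 * R + 1 : ℕ) : ℝ) ^ d) hC hL.le
    (by simp) (fun t ht => by
      rw [Finset.sum_const, nsmul_eq_mul, mul_one]
      refine h R E0 t hE (hη.le.trans ht) (hηL.trans ?_)
      gcongr)
  simp only [mul_one] at h1
  rw [inv_mul_le_iff₀ hL]
  linarith

/-- `log (1 / λ)`. -/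
def ell (lam : ℝ) : ℝ := Real.log (1 / lam)

/-- Exponent in the choice of the radius. -/
def KR (d : ℕ) : ℕ := 2 * d + 4

/-- The radius of the box. -/
def RR (d : ℕ) (lam η : ℝ) : ℕ := ⌈8 * (KR d : ℝ) * ell lam / η⌉₊ + 1

/-- The bound for the diagonal of the weighted resolvent. -/
def WW (C lam : ℝ) : ℝ := 2 * (12 * C + 2) * ell lam

/-- The coupling parameter. -/
def kk (d : ℕ) (a C lam : ℝ) : ℝ := c1 d a / (8 * √(WW C lam))

/-- The relative size of the step. -/
def s0 (d : ℕ) (a C : ℝ) : ℝ := √(cD d a / (32 * (16 * C + 3)))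

/-- The step. -/
def ss (d : ℕ) (a C η : ℝ) : ℤ := ⌊s0 d a C / η⌋

/-- The largest allowed imaginary part. -/
def eta0 (d : ℕ) (a C : ℝ) : ℝ :=
  min (min (a / (4 * d)) (√(a / (4 * d) / 2) / 2)) (min (1 / 2) (min (s0 d a C) (a / d ^ 2)))

/-- Smallness conditions on the disorder, first part. -/
structure Sm (d : ℕ) (a lam : ℝ) : Prop where
  h0 : 0 < lam
  h1 : lam ≤ 1
  hl : 1 ≤ ell lam
  h2 : (16 * (KR d : ℝ) + 5) * ell lam * lam ^ 2 ≤ 1
  h3 : 96 * d * lam ≤ c1 d a
  h4 : 16 * d * lam ≤ √(cD d a)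

lemma s0_pos (hd : 0 < d) {a C : ℝ} (ha : 0 < a) (hC : 0 ≤ C) : 0 < s0 d a C := by
  unfold s0
  have := cD_pos hd ha
  positivity

lemma s0_le_one (hd : 0 < d) {a C : ℝ} (ha : 0 < a) (ha1 : a ≤ d) (hC : 0 ≤ C) :
    s0 d a C ≤ 1 := by
  unfold s0
  rw [Real.sqrt_le_left zero_le_one, one_pow, div_le_one (by positivity)]
  have := cD_le_one hd ha ha1
  linarith

lemma eta0_pos (hd : 0 < d) {a C : ℝ} (ha : 0 < a) (hC : 0 ≤ C) : 0 < eta0 d a C := by
  unfold eta0
  have h1 : (0 : ℝ) < d := by exact_mod_cast hd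
  have := s0_pos (C := C) hd ha hC
  refine lt_min (lt_min (by positivity) (by positivity)) (lt_min (by norm_num)
    (lt_min this (by positivity)))

section box

variable {a lam η C : ℝ}

lemma RR_lower (hη : 0 < η) : 8 * (KR d : ℝ) * ell lam / η ≤ ((RR d lam η : ℕ) : ℝ) - 1 := by
  unfold RR
  have := Nat.le_ceil (8 * (KR d : ℝ) * ell lam / η)
  push_cast
  linarith

lemma RR_upper (hs : Sm d a lam) (hη : 0 < η) (hη1 : η ≤ 1) (hη2 : lam ^ 2 ≤ η) :
    ((2 * RR d lam η + 1 : ℕ) : ℝ) ≤ (lam⁻¹) ^ 4 := by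
  have h0 := hs.h0
  have hl := hs.hl
  have hc : (⌈8 * (KR d : ℝ) * ell lam / η⌉₊ : ℝ) < 8 * (KR d : ℝ) * ell lam / η + 1 :=
    Nat.ceil_lt_add_one (by positivity)
  have h5 : (1 : ℝ) ≤ ell lam / η := by
    rw [le_div_iff₀ hη]; linarith
  have h6 : ((2 * RR d lam η + 1 : ℕ) : ℝ) ≤ (16 * (KR d : ℝ) + 5) * (ell lam / η) := by
    unfold RR
    push_cast
    have : 8 * (KR d : ℝ) * ell lam / η = 8 * (KR d : ℝ) * (ell lam / η) := by ring
    rw [this] at hc ⊢
    nlinarith
  have h7 : ell lam / η ≤ ell lam / lam ^ 2 := by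
    gcongr
  calc ((2 * RR d lam η + 1 : ℕ) : ℝ) ≤ (16 * (KR d : ℝ) + 5) * (ell lam / η) := h6
    _ ≤ (16 * (KR d : ℝ) + 5) * (ell lam / lam ^ 2) := by gcongr
    _ = ((16 * (KR d : ℝ) + 5) * ell lam * lam ^ 2) * (lam⁻¹) ^ 4 := by
        field_simp
    _ ≤ 1 * (lam⁻¹) ^ 4 := by
        gcongr
        exact hs.h2
    _ = _ := one_mul _

lemma Bfar_le (hs : Sm d a lam) (hη : 0 < η) (hη1 : η ≤ 1) (hη2 : lam ^ 2 ≤ η) :
    Bfar η (RR d lam η) ≤ 2 * (lam⁻¹) ^ 2 * lam ^ (KR d) := by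
  have h0 := hs.h0
  have hl := hs.hl
  unfold Bfar
  have h1 : η / 8 ≤ Real.log (1 + η / 4) := by
    have := Real.le_log_one_add_of_nonneg (x := η / 4) (by positivity)
    refine le_trans ?_ this
    rw [le_div_iff₀ (by positivity)]
    nlinarith
  have h2 := RR_lower (d := d) (lam := lam) hη
  have h3 : (KR d : ℝ) * ell lam ≤ Real.log (1 + η / 4) * (((RR d lam η : ℕ) : ℝ) - 1) := by
    calc (KR d : ℝ) * ell lam = η / 8 * (8 * (KR d : ℝ) * ell lam / η) := by
          field_simp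
      _ ≤ Real.log (1 + η / 4) * (((RR d lam η : ℕ) : ℝ) - 1) := by
          have : 0 ≤ Real.log (1 + η / 4) := le_trans (by positivity) h1
          gcongr
  have h4 : Real.exp (-(Real.log (1 + η / 4) * (((RR d lam η : ℕ) : ℝ) - 1))) ≤
      lam ^ (KR d) := by
    calc Real.exp (-(Real.log (1 + η / 4) * (((RR d lam η : ℕ) : ℝ) - 1)))
        ≤ Real.exp (-((KR d : ℝ) * ell lam)) := by
          apply Real.exp_le_exp.2; linarith
      _ = lam ^ (KR d) := by
          unfold ell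
          rw [one_div, Real.log_inv]
          rw [show -((KR d : ℝ) * -Real.log lam) = Real.log lam * (KR d : ℝ) by ring,
            ← Real.rpow_def_of_pos h0, Real.rpow_natCast]
  have h5 : 2 / η ≤ 2 * (lam⁻¹) ^ 2 := by
    rw [div_eq_mul_inv, inv_pow]
    gcongr
  gcongr

lemma sqrt_box_le (hs : Sm d a lam) (hη : 0 < η) (hη1 : η ≤ 1) (hη2 : lam ^ 2 ≤ η) :
    √(((2 * RR d lam η + 1 : ℕ) : ℝ) ^ d) ≤ (lam⁻¹) ^ (2 * d) := by
  have h0 := hs.h0
  rw [Real.sqrt_le_left (by positivity)]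
  calc ((2 * RR d lam η + 1 : ℕ) : ℝ) ^ d ≤ ((lam⁻¹) ^ 4) ^ d := by
        gcongr
        exact RR_upper hs hη hη1 hη2
    _ = ((lam⁻¹) ^ (2 * d)) ^ 2 := by
        rw [← pow_mul, ← pow_mul]; congr 1; ring

lemma box_far (hs : Sm d a lam) (hη : 0 < η) (hη1 : η ≤ 1) (hη2 : lam ^ 2 ≤ η) :
    √(((2 * RR d lam η + 1 : ℕ) : ℝ) ^ d) * (2 * d * Bfar η (RR d lam η)) ≤ 4 * d * lam ^ 2 := by
  have h0 := hs.h0
  calc √(((2 * RR d lam η + 1 : ℕ) : ℝ) ^ d) * (2 * d * Bfar η (RR d lam η))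
      ≤ (lam⁻¹) ^ (2 * d) * (2 * d * (2 * (lam⁻¹) ^ 2 * lam ^ (KR d))) := by
        gcongr
        · exact mul_nonneg (by positivity) (Bfar_nonneg hη _)
        · exact sqrt_box_le hs hη hη1 hη2
        · exact Bfar_le hs hη hη1 hη2
    _ = 4 * d * lam ^ 2 := by
        unfold KR
        rw [show 2 * d + 4 = 2 * d + 2 + 2 by ring, pow_add, pow_add, inv_pow, inv_pow]
        field_simp
        ring

theorem locHyp (hd : 0 < d) (ha : 0 < a) (ha1 : a ≤ d) (hC : 0 ≤ C) (S : Set ℝ)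
    (hCB : CB d C S) (hs : Sm d a lam) (hη2 : lam ^ 2 ≤ η) (hη0 : η ≤ eta0 d a C) (E0 : ℝ)
    (hE : E0 ∈ S) (hE1 : a ≤ E0) (hE2 : E0 ≤ 4 * d - a) :
    LocHyp d (RR d lam η) E0 η (kk d a C lam) (WW C lam) a (ss d a C η) C := by
  have h0 := hs.h0
  have hl := hs.hl
  have hη : 0 < η := lt_of_lt_of_le (by positivity) hη2
  have hd' : (0 : ℝ) < d := by exact_mod_cast hd
  have hd1 : (1 : ℝ) ≤ d := by exact_mod_cast hd
  have e1 : η ≤ a / (4 * d) := hη0.trans ((min_le_left _ _).trans (min_le_left _ _))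
  have e2 : 2 * η ≤ √(a / (4 * d) / 2) := by
    have := hη0.trans ((min_le_left _ _).trans (min_le_right _ _))
    linarith
  have e3 : η ≤ 1 / 2 := hη0.trans ((min_le_right _ _).trans (min_le_left _ _))
  have e4 : η ≤ s0 d a C :=
    hη0.trans ((min_le_right _ _).trans ((min_le_right _ _).trans (min_le_left _ _)))
  have e5 : η ≤ a / d ^ 2 :=
    hη0.trans ((min_le_right _ _).trans ((min_le_right _ _).trans (min_le_right _ _)))
  have hη1 : η ≤ 1 := by linarith
  have hRlow := RR_lower (d := d) (lam := lam) hη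
  have hKR : (4 : ℝ) ≤ (KR d : ℝ) := by unfold KR; push_cast; nlinarith
  have hRb : 64 / η ≤ ((2 * RR d lam η + 1 : ℕ) : ℝ) := by
    have h5 : 32 / η ≤ 8 * (KR d : ℝ) * ell lam / η := by
      gcongr
      nlinarith
    push_cast
    have : 64 / η = 2 * (32 / η) := by ring
    rw [this]
    linarith
  have hpi : 8 * π ≤ 32 := by
    have := Real.pi_le_four
    linarith
  have hηL : 8 * π ≤ η * (2 * RR d lam η + 1 : ℕ) := by
    have : 64 ≤ η * ((2 * RR d lam η + 1 : ℕ) : ℝ) := by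
      rw [div_le_iff₀ hη] at hRb
      linarith
    linarith
  have hc1 := c1_pos hd ha
  have hcD := cD_pos hd ha
  have hWW : 0 < WW C lam := by unfold WW; positivity
  have hWW4 : 4 ≤ WW C lam := by unfold WW; nlinarith
  have hlog : log (1 / η) ≤ 2 * ell lam := by
    unfold ell
    rw [one_div, one_div, Real.log_inv, Real.log_inv]
    have : Real.log (lam ^ 2) ≤ Real.log η := Real.log_le_log (by positivity) hη2
    rw [Real.log_pow] at this
    push_cast at this
    linarith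
  have hc1le : c1 d a ≤ 1 := by
    have h5 := c1_sq hd ha
    have h6 := cD_le_one hd ha ha1
    have h7 : ((2 : ℝ) ^ d)⁻¹ ≤ 1 := inv_le_one_of_one_le₀ (one_le_pow₀ (by norm_num))
    have h8 : c1 d a ^ 2 ≤ 1 := by
      rw [h5]
      have : (2 ^ d)⁻¹ * cD d a ≤ 1 * 1 := by gcongr
      linarith
    nlinarith
  have hsq2 : 2 ≤ √(WW C lam) := by
    apply Real.le_sqrt_of_sq_le
    linarith
  have hbox := box_far (d := d) hs hη hη1 hη2
  exact
    { hR := by unfold RR; omega
      hd := hd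
      ha := ha
      ha1 := ha1
      hE1 := hE1
      hE2 := hE2
      hη := hη
      hη1 := e1
      hηL := hηL
      hδL := by
        have h6 : 64 * d ^ 2 / a ≤ 64 / η := by
          rw [div_le_div_iff₀ ha hη]
          rw [le_div_iff₀ (by positivity)] at e5
          nlinarith
        have h7 : 64 * d ^ 2 / a ≤ ((2 * RR d lam η + 1 : ℕ) : ℝ) := h6.trans hRb
        rw [div_le_iff₀ ha] at h7
        rw [div_mul_eq_mul_div, le_div_iff₀ (by positivity)]
        nlinarith
      hη2 := e2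
      hη3 := by linarith
      hC := hC
      hcount := by
        intro t ht
        refine hCB _ E0 t hE (hη.le.trans ht) ?_
        have h6 : η * (2 * RR d lam η + 1 : ℕ) ≤ t * (2 * RR d lam η + 1 : ℕ) := by gcongr
        have := Real.pi_gt_three
        linarith
      hκ0 := by unfold kk; positivity
      hκ := by
        unfold kk
        rw [div_le_iff₀ (by positivity)]
        linarith
      hW0 := hWW.le
      hW := by
        refine (CB_diag C S hC hCB _ E0 η hE hη e3 ?_).trans ?_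
        · have := Real.pi_gt_three
          linarith
        · unfold WW
          nlinarith
      hκW := by
        unfold kk
        have : √(WW C lam) ≠ 0 := by positivity
        apply le_of_eq
        field_simp
      hB1 := by
        have h6 : (√η)⁻¹ ≤ lam⁻¹ := by
          gcongr
          exact Real.le_sqrt_of_sq_le hη2
        have h7 := hs.h3
        calc 24 * ((√η)⁻¹ * (√(((2 * RR d lam η + 1 : ℕ) : ℝ) ^ d) *
              (2 * d * Bfar η (RR d lam η)))) ≤ 24 * (lam⁻¹ * (4 * d * lam ^ 2)) := by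
              gcongr
              exact mul_nonneg (Real.sqrt_nonneg _) (mul_nonneg (by positivity)
                (Bfar_nonneg hη _))
          _ = 96 * d * lam := by field_simp; ring
          _ ≤ _ := h7
      hB2 := by
        have h7 := hs.h4
        have h8 : √(cD d a) * lam ≤ √(cD d a * η) := by
          rw [Real.sqrt_mul hcD.le]
          gcongr
          exact Real.le_sqrt_of_sq_le hη2
        nlinarith
      hT0 := by
        have : (0 : ℤ) ≤ ss d a C η := by
          unfold ss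
          exact Int.floor_nonneg.2 (div_nonneg (s0_pos hd ha hC).le hη.le)
        exact_mod_cast this
      hT := by
        have h6 : ((ss d a C η : ℤ) : ℝ) ≤ s0 d a C / η := Int.floor_le _
        have h6' : 0 ≤ ((ss d a C η : ℤ) : ℝ) := by
          have : (0 : ℤ) ≤ ss d a C η :=
            Int.floor_nonneg.2 (div_nonneg (s0_pos hd ha hC).le hη.le)
          exact_mod_cast this
        have h7 : 2 * η * ((ss d a C η : ℤ) : ℝ) ≤ 2 * s0 d a C := by
          calc 2 * η * ((ss d a C η : ℤ) : ℝ) ≤ 2 * η * (s0 d a C / η) := by gcongr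
            _ = 2 * s0 d a C := by field_simp
        have h8 : s0 d a C ^ 2 = cD d a / (32 * (16 * C + 3)) := by
          unfold s0
          rw [Real.sq_sqrt (by positivity)]
        calc (2 * η * ((ss d a C η : ℤ) : ℝ)) ^ 2 * (16 * C + 3)
            ≤ (2 * s0 d a C) ^ 2 * (16 * C + 3) := by gcongr
          _ = 4 * (cD d a / (32 * (16 * C + 3))) * (16 * C + 3) := by rw [mul_pow, h8]; ring
          _ = cD d a / 8 := by
              have : (16 * C + 3) ≠ 0 := by positivity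
              field_simp
              ring
          _ ≤ cD d a / 8 := le_rfl }

end box

end Pool.Agent.Helper3.Weak
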