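import Pool.Agent.Helper3.Weak.Chain

/-!
# Polynomial bounds for the negative moments
-/

open scoped ENNReal NNReal
open MeasureTheory Set Real Filter Topology

noncomputable section

namespace Pool.Agent.Helper3.Weak

open Pool.Agent.Helper3.Anderson

variable {d : ℕ}

/-- the constants of the polynomial bound -/
def B0 (d : ℕ) (M Z : ℝ) : ℝ := 2 * d + M + Z
def q1 (d : ℕ) (M Z : ℝ) : ℝ := 16 * (d + 1) ^ 2 * B0 d M Z
def q2 (d : ℕ) (M Z : ℝ) : ℝ := Z + 1 + 8 * d ^ 2 * q1 d M Z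
def q3 (d : ℕ) (M Z : ℝ) : ℝ := (1 + M) * (1 + q2 d M Z) * q1 d M Z
def q4 (d : ℕ) (M Z : ℝ) (K : ℝ≥0) : ℝ := (1 + (C1 M K).toReal) * q3 d M Z
def PN (d : ℕ) (M Z : ℝ) (K : ℝ≥0) (t : ℝ) : ℝ :=
  (q4 d M Z K * t ^ 6) ^ (2 * d) * (2 * B0 d M Z * q1 d M Z * t)

variable {μ : Measure ℝ} [IsProbabilityMeasure μ] {M lam : ℝ} {K : ℝ≥0} {z : ℂ} {Z t : ℝ}

lemma B0_ge (hM : 1 ≤ M) (hZ : 1 ≤ Z) : 1 ≤ B0 d M Z := by
  unfold B0
  have : (0 : ℝ) ≤ 2 * d := by positivity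
  linarith

lemma q1_ge (hM : 1 ≤ M) (hZ : 1 ≤ Z) : 1 ≤ q1 d M Z := by
  unfold q1
  have h1 := B0_ge (d := d) hM hZ
  have h2 : (0 : ℝ) ≤ d := Nat.cast_nonneg d
  nlinarith [mul_nonneg h2 h2, mul_nonneg (by linarith : (0:ℝ) ≤ B0 d M Z) h2]

lemma q2_ge (hM : 1 ≤ M) (hZ : 1 ≤ Z) : 1 ≤ q2 d M Z := by
  unfold q2
  have h1 := q1_ge (d := d) hM hZ
  have : 0 ≤ 8 * (d : ℝ) ^ 2 * q1 d M Z := by positivity
  linarith

lemma q3_ge (hM : 1 ≤ M) (hZ : 1 ≤ Z) : 1 ≤ q3 d M Z := by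
  unfold q3
  have h1 := q1_ge (d := d) hM hZ
  have h2 := q2_ge (d := d) hM hZ
  have h3 : 1 ≤ (1 + M) * (1 + q2 d M Z) := by nlinarith
  nlinarith

lemma q4_ge (hM : 1 ≤ M) (hZ : 1 ≤ Z) : 1 ≤ q4 d M Z K := by
  unfold q4
  have h1 := q3_ge (d := d) hM hZ
  have h2 : 0 ≤ (C1 M K).toReal := ENNReal.toReal_nonneg
  nlinarith

lemma rpow_half_le {x : ℝ} (hx : 1 ≤ x) {r : ℝ} (hr0 : 0 ≤ r) (hr : r ≤ 1) :
    (ENNReal.ofReal x) ^ r ≤ ENNReal.ofReal x := by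
  rw [ENNReal.ofReal_rpow_of_nonneg (by linarith) hr0]
  apply ENNReal.ofReal_le_ofReal
  calc x ^ r ≤ x ^ (1 : ℝ) := Real.rpow_le_rpow_of_exponent_le hx hr
    _ = x := Real.rpow_one x

lemma c_low (hM : 1 ≤ M) (hZ : 1 ≤ Z) (ht : 1 ≤ t) (ht2 : z.im⁻¹ ≤ t) (hz0 : 0 < z.im)
    {B : ℝ} (hB0 : 0 < B) (hB : B ≤ B0 d M Z) :
    1 / (q1 d M Z * t) ≤ min (1 / (2 * B)) (z.im / (16 * (d + 1) ^ 2)) := by
  have h1 := B0_ge (d := d) hM hZ
  have h2 : (0 : ℝ) ≤ d := Nat.cast_nonneg d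
  have h3 := q1_ge (d := d) hM hZ
  have h4 : (1 : ℝ) ≤ (d + 1) ^ 2 := one_le_pow₀ (by linarith)
  apply le_min
  · apply one_div_le_one_div_of_le (by positivity)
    unfold q1
    have h5 : 2 * B ≤ 2 * B0 d M Z := by linarith
    have h6 : 2 * B0 d M Z ≤ 16 * (d + 1) ^ 2 * B0 d M Z * 1 := by nlinarith
    refine (h5.trans h6).trans ?_
    gcongr
  · rw [div_le_div_iff₀ (by positivity) (by positivity)]
    have h5 : 1 ≤ z.im * t := by
      rw [inv_eq_one_div, div_le_iff₀ hz0] at ht2; linarith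
    unfold q1
    calc 1 * (16 * ((d : ℝ) + 1) ^ 2) = 16 * ((d : ℝ) + 1) ^ 2 * (1 * 1) := by ring
      _ ≤ 16 * ((d : ℝ) + 1) ^ 2 * (B0 d M Z * (z.im * t)) := by gcongr
      _ = z.im * (16 * (↑d + 1) ^ 2 * B0 d M Z * t) := by ring

lemma C3_le (hM : 1 ≤ M) (hlam : 0 < lam) (hlam1 : lam ≤ 1) (hz0 : 0 < z.im) (hZ : 1 ≤ Z)
    (hzZ : ‖z‖ ≤ Z) (ht : 1 ≤ t) (ht1 : lam⁻¹ ≤ t) (ht2 : z.im⁻¹ ≤ t) {S : ℝ} (hS0 : 0 ≤ S)
    (hS : S ≤ q2 d M Z * t ^ 2) :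
    C3 d M lam K z S ≤ ENNReal.ofReal (q4 d M Z K * t ^ 6) := by
  have h1 := q1_ge (d := d) hM hZ
  have h2 := q2_ge (d := d) hM hZ
  have h3 := q3_ge (d := d) hM hZ
  have hzpos : 0 < ‖z‖ := norm_pos_iff.2 (by rintro rfl; simp at hz0)
  have hc0 : 1 / (q1 d M Z * t) ≤ c0 d z := by
    unfold c0
    refine c_low hM hZ ht ht2 hz0 (B := 2 * d + ‖z‖) (by positivity) ?_
    unfold B0; linarith
  have hc0p := c0_pos d hz0
  have hin : (1 + lam * M / z.im) * ((1 + |S| / lam) / (c0 d z * z.im)) ≤ q3 d M Z * t ^ 6 := by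
    have e1 : 1 + lam * M / z.im ≤ (1 + M) * t := by
      have : lam * M / z.im ≤ M * t := by
        rw [div_eq_mul_inv]
        calc lam * M * z.im⁻¹ ≤ 1 * M * t := by gcongr
          _ = M * t := by ring
      linarith
    have e2 : 1 + |S| / lam ≤ (1 + q2 d M Z) * t ^ 3 := by
      rw [abs_of_nonneg hS0, div_eq_mul_inv]
      have : S * lam⁻¹ ≤ q2 d M Z * t ^ 2 * t := by gcongr
      have h5 : (1 : ℝ) ≤ t ^ 3 := one_le_pow₀ ht
      calc 1 + S * lam⁻¹ ≤ t ^ 3 + q2 d M Z * t ^ 2 * t := by linarith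
        _ = _ := by ring
    have e3 : (c0 d z * z.im)⁻¹ ≤ q1 d M Z * t ^ 2 := by
      rw [mul_inv]
      have h6 : (c0 d z)⁻¹ ≤ q1 d M Z * t := by
        rw [inv_le_comm₀ hc0p (by positivity), ← one_div]; exact hc0
      calc (c0 d z)⁻¹ * z.im⁻¹ ≤ (q1 d M Z * t) * t := by gcongr
        _ = _ := by ring
    rw [div_eq_mul_inv (1 + |S| / lam)]
    calc (1 + lam * M / z.im) * ((1 + |S| / lam) * (c0 d z * z.im)⁻¹)
        ≤ ((1 + M) * t) * (((1 + q2 d M Z) * t ^ 3) * (q1 d M Z * t ^ 2)) := by gcongr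
      _ = q3 d M Z * t ^ 6 := by unfold q3; ring
  have h7 : (1 : ℝ) ≤ q3 d M Z * t ^ 6 := by
    have h5 : (1 : ℝ) ≤ t ^ 6 := one_le_pow₀ ht
    nlinarith
  unfold C3
  calc C1 M K * (ENNReal.ofReal ((1 + lam * M / z.im) *
        ((1 + |S| / lam) / (c0 d z * z.im)))) ^ (1/2 : ℝ)
      ≤ C1 M K * (ENNReal.ofReal (q3 d M Z * t ^ 6)) ^ (1/2 : ℝ) := by gcongr
    _ ≤ C1 M K * ENNReal.ofReal (q3 d M Z * t ^ 6) := by
        gcongr
        exact rpow_half_le h7 (by norm_num) (by norm_num)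
    _ = ENNReal.ofReal ((C1 M K).toReal) * ENNReal.ofReal (q3 d M Z * t ^ 6) := by
        rw [ENNReal.ofReal_toReal (C1_ne_top M K)]
    _ = ENNReal.ofReal ((C1 M K).toReal * (q3 d M Z * t ^ 6)) := by
        rw [ENNReal.ofReal_mul ENNReal.toReal_nonneg]
    _ ≤ _ := by
        apply ENNReal.ofReal_le_ofReal
        unfold q4
        nlinarith

theorem nbr_poly (hμ : GoodLaw μ M K) (hlam : 0 < lam) (hlam1 : lam ≤ 1) (hz0 : 0 < z.im)
    (hZ : 1 ≤ Z) (hzZ : ‖z‖ ≤ Z) (ht : 1 ≤ t) (ht1 : lam⁻¹ ≤ t) (ht2 : z.im⁻¹ ≤ t)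
    (a b : Site d) (i : Fin d) (hb : b = a + Pi.single i 1 ∨ b = a - Pi.single i 1) :
    ∫⁻ ω, ‖gc M lam z ω a b‖ₑ ^ (-(1/2 : ℝ)) ∂(PP d μ) ≤ ENNReal.ofReal (PN d M Z K t) := by
  classical
  have hM1 := hμ.one_le
  have hM : 0 ≤ M := by linarith [hμ.one_le]
  have hz1 : 0 < ‖z‖ := norm_pos_iff.2 (by rintro rfl; simp at hz0)
  set B : ℝ := 2 * d + lam * M + ‖z‖ with hB
  have hBpos : 0 < B := by positivity
  have hBB : B ≤ B0 d M Z := by
    unfold B0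
    have : lam * M ≤ 1 * M := by gcongr
    linarith
  set c : ℝ := min (1 / (2 * B)) (z.im / (16 * (d + 1) ^ 2)) with hc
  have hcpos : 0 < c := lt_min (by positivity) (by positivity)
  have hclow : 1 / (q1 d M Z * t) ≤ c := c_low hM1 hZ ht ht2 hz0 hBpos hBB
  have h1 := q1_ge (d := d) hM1 hZ
  have hB01 := B0_ge (d := d) hM1 hZ
  have hcinv : c⁻¹ ≤ q1 d M Z * t := by
    rw [inv_le_comm₀ hcpos (by positivity), ← one_div]; exact hclow
  set S : ℝ := ‖z‖ + (1 + 8 * d ^ 2 / (z.im * c)) with hS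
  have hS1 : ‖z‖ < S := by
    have : (0 : ℝ) ≤ 8 * d ^ 2 / (z.im * c) := by positivity
    linarith
  have hS2 : S ≤ q2 d M Z * t ^ 2 := by
    have h2 : 8 * (d : ℝ) ^ 2 / (z.im * c) ≤ 8 * d ^ 2 * (t * (q1 d M Z * t)) := by
      rw [div_eq_mul_inv, mul_inv]
      gcongr
    have h3 : (1 : ℝ) ≤ t ^ 2 := one_le_pow₀ ht
    unfold q2
    calc S ≤ Z + (1 + 8 * d ^ 2 * (t * (q1 d M Z * t))) := by rw [hS]; gcongr
      _ ≤ Z * t ^ 2 + (1 * t ^ 2 + 8 * d ^ 2 * (t * (q1 d M Z * t))) := by nlinarith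
      _ = _ := by ring
  set A : Finset (Site d) := ((Finset.univ.image fun j : Fin d => a + Pi.single j (1 : ℤ)) ∪
    (Finset.univ.image fun j : Fin d => a - Pi.single j (1 : ℤ))).erase b with hA
  have hAcard : A.card ≤ 2 * d := by
    refine (Finset.card_erase_le).trans ((Finset.card_union_le _ _).trans ?_)
    have e1 : (Finset.univ.image fun j : Fin d => a + Pi.single j (1 : ℤ)).card ≤ d := by
      refine Finset.card_image_le.trans ?_; simp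
    have e2 : (Finset.univ.image fun j : Fin d => a - Pi.single j (1 : ℤ)).card ≤ d := by
      refine Finset.card_image_le.trans ?_; simp
    omega
  have haA : a ∉ A := by
    simp only [hA, Finset.mem_erase, Finset.mem_union, Finset.mem_image, Finset.mem_univ, true_and,
      not_and, not_or, not_exists]
    intro _
    constructor
    · intro j hj
      exact single_ne_zero j (by simpa using hj)
    · intro j hj
      exact single_ne_zero j (by simpa using hj)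
  have hbA : b ∉ A := by simp [hA]
  have hval : ∀ ω : Site d → ℝ, ∀ x, (x = a ∨ x = b) →
      2 * d + |potA M lam S A ω x| + ‖z‖ ≤ B := by
    intro ω x hx
    have hxA : x ∉ A := by rcases hx with rfl | rfl <;> assumption
    have : |potA M lam S A ω x| ≤ lam * M := by
      rw [potA, if_neg hxA]
      have := abs_potc_le (lam := lam) hM ω x
      rwa [abs_of_pos hlam] at this
    linarith
  have hvalS : ∀ ω : Site d → ℝ, ∀ x, x ≠ b →
      (∃ j : Fin d, x = a + Pi.single j 1 ∨ x = a - Pi.single j 1) → potA M lam S A ω x = S := by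
    intro ω x hxb hx
    rw [potA, if_pos]
    simp only [hA, Finset.mem_erase, Finset.mem_union, Finset.mem_image, Finset.mem_univ, true_and]
    refine ⟨hxb, ?_⟩
    obtain ⟨j, hj | hj⟩ := hx
    · exact Or.inl ⟨j, hj.symm⟩
    · exact Or.inr ⟨j, hj.symm⟩
  have hlow : ∀ ω : Site d → ℝ, c / 2 / B ≤ ‖green (potA M lam S A ω) z a b‖ := by
    intro ω
    have h1 := green_nbr_lower (potA M lam S A ω) (bdd_potA hM S A ω) hz0 a b i hb (B := B) (S := S)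
      (hval ω) (hvalS ω) hS1
    refine le_trans ?_ h1
    have h2 : 2 * (d : ℝ) * (2 * d / z.im / (S - ‖z‖)) ≤ c / 2 := by
      have h3 : S - ‖z‖ = 1 + 8 * d ^ 2 / (z.im * c) := by rw [hS]; ring
      have h4 : 0 < S - ‖z‖ := by linarith
      rw [div_div, mul_div_assoc', div_le_iff₀ (by positivity), h3]
      have h5 : c / 2 * (z.im * (1 + 8 * (d : ℝ) ^ 2 / (z.im * c)))
          = c / 2 * z.im + 4 * d ^ 2 := by
        field_simp; ring
      rw [h5]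
      have : 0 ≤ c / 2 * z.im := by positivity
      nlinarith
    gcongr
    linarith
  have hint : ∫⁻ ω, ‖green (potA M lam S A ω) z a b‖ₑ ^ (-(1/2 : ℝ)) ∂(PP d μ)
      ≤ (ENNReal.ofReal (c / 2 / B)) ^ (-(1/2 : ℝ)) := by
    calc _ ≤ ∫⁻ _ω, (ENNReal.ofReal (c / 2 / B)) ^ (-(1/2 : ℝ)) ∂(PP d μ) := by
          refine lintegral_mono fun ω => ?_
          rw [ENNReal.rpow_neg, ENNReal.rpow_neg, ENNReal.inv_le_inv]
          refine ENNReal.rpow_le_rpow ?_ (by norm_num)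
          rw [← ofReal_norm]
          exact ENNReal.ofReal_le_ofReal (hlow ω)
      _ = _ := by rw [lintegral_const, measure_univ, mul_one]
  have hint2 : (ENNReal.ofReal (c / 2 / B)) ^ (-(1/2 : ℝ)) ≤
      ENNReal.ofReal (2 * B0 d M Z * q1 d M Z * t) := by
    have hx : 0 < c / 2 / B := by positivity
    rw [ENNReal.rpow_neg, ← ENNReal.inv_rpow, ← ENNReal.ofReal_inv_of_pos hx]
    have h5 : (c / 2 / B)⁻¹ ≤ 2 * B0 d M Z * q1 d M Z * t := by
      have : (c / 2 / B)⁻¹ = 2 * B * c⁻¹ := by field_simp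
      rw [this]
      calc 2 * B * c⁻¹ ≤ 2 * B0 d M Z * (q1 d M Z * t) := by gcongr
        _ = _ := by ring
    have h6 : 1 ≤ 2 * B0 d M Z * q1 d M Z * t := by
      have e1 : 1 ≤ B0 d M Z * q1 d M Z := by nlinarith
      nlinarith
    calc (ENNReal.ofReal (c / 2 / B)⁻¹) ^ (1/2 : ℝ)
        ≤ (ENNReal.ofReal (2 * B0 d M Z * q1 d M Z * t)) ^ (1/2 : ℝ) := by gcongr
      _ ≤ _ := rpow_half_le h6 (by norm_num) (by norm_num)
  have hC3 : C3 d M lam K z S ≤ ENNReal.ofReal (q4 d M Z K * t ^ 6) :=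
    C3_le hM1 hlam hlam1 hz0 hZ hzZ ht ht1 ht2 (by linarith) hS2
  have hq4 : 1 ≤ q4 d M Z K * t ^ 6 := by
    have h5 : (1 : ℝ) ≤ t ^ 6 := one_le_pow₀ ht
    have h6 := q4_ge (d := d) (K := K) hM1 hZ
    nlinarith
  calc ∫⁻ ω, ‖gc M lam z ω a b‖ₑ ^ (-(1/2 : ℝ)) ∂(PP d μ)
      ≤ (C3 d M lam K z S) ^ A.card *
        ∫⁻ ω, ‖green (potA M lam S A ω) z a b‖ₑ ^ (-(1/2 : ℝ)) ∂(PP d μ) :=
        neg_iter hμ hlam hz0 S A a b
    _ ≤ (ENNReal.ofReal (q4 d M Z K * t ^ 6)) ^ (2 * d) *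
        ENNReal.ofReal (2 * B0 d M Z * q1 d M Z * t) := by
        refine mul_le_mul' ?_ (hint.trans hint2)
        refine (pow_le_pow_left' hC3 A.card).trans ?_
        apply pow_le_pow_right₀ _ hAcard
        rw [ENNReal.one_le_ofReal]; exact hq4
    _ = ENNReal.ofReal (PN d M Z K t) := by
        unfold PN
        rw [← ENNReal.ofReal_pow (by linarith), ← ENNReal.ofReal_mul (by positivity)]

lemma PN_nonneg (hM : 1 ≤ M) (hZ : 1 ≤ Z) (ht : 1 ≤ t) : 0 ≤ PN d M Z K t := by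
  have h1 := q1_ge (d := d) hM hZ
  have h2 := B0_ge (d := d) hM hZ
  have h3 := q4_ge (d := d) (K := K) hM hZ
  unfold PN
  positivity

end Pool.Agent.Helper3.Weak
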