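import Pool.Agent.Helper3.Weak.Par
import Pool.Agent.Helper3.Anderson.Symm

/-!
# The pointwise bound for the Lyapunov norm off the real axis
-/

open scoped ENNReal NNReal
open MeasureTheory Set Real Filter Topology

noncomputable section

namespace Pool.Agent.Helper3.Weak

open Pool.Agent.Helper3.Anderson
open Pool.Agent.Helper2.AM (pos en wt nsq)

variable {d : ℕ}

/-- Exponent for the choice of the weight in the quadratic inequality. -/
def K1 (d : ℕ) : ℕ := 28 * d + 7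

/-- Exponent for the probability of the bad event. -/
def K2 (d : ℕ) : ℕ := 36 * d + 7

/-- The moment that is used. -/
def pp (d : ℕ) (lam : ℝ) : ℕ := ⌈(K2 d : ℝ) * ell lam⌉₊

/-- The constant in the lower bound for the imaginary part. -/
def A0 (d : ℕ) (a C M : ℝ) : ℝ :=
  3 * 4096 * ((K2 d : ℝ) + 1) * M ^ 2 * (12 * C + 2) ^ 2 / c1 d a ^ 2

/-- The constant in the moment bounds. -/
def cP (d : ℕ) (M Z : ℝ) (K : ℝ≥0) : ℝ :=
  q4 d M Z K ^ (2 * d) * (2 * B0 d M Z * q1 d M Z)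

/-- Smallness conditions on the disorder, second part. -/
structure Sm2 (d : ℕ) (a M Z lam : ℝ) (K : ℝ≥0) : Prop where
  h5 : 128 * (1 + cP d M Z K + 2 * (C1 M K).toReal) * lam ≤ 1
  h6 : 2 * lam ≤ c1 d a

variable {μ : Measure ℝ} [IsProbabilityMeasure μ] {M lam a C η Z : ℝ} {K : ℝ≥0}

lemma c1_le_one (hd : 0 < d) (ha : 0 < a) (ha1 : a ≤ d) : c1 d a ≤ 1 := by
  have h5 := c1_sq hd ha
  have h6 := cD_le_one hd ha ha1
  have h7 : ((2 : ℝ) ^ d)⁻¹ ≤ 1 := inv_le_one_of_one_le₀ (one_le_pow₀ (by norm_num))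
  have h9 := cD_pos hd ha
  have h8 : c1 d a ^ 2 ≤ 1 := by
    rw [h5]
    have : (2 ^ d)⁻¹ * cD d a ≤ 1 * 1 := by gcongr
    linarith
  nlinarith [c1_pos hd ha]

lemma A0_ge_one (hd : 0 < d) (ha : 0 < a) (ha1 : a ≤ d) (hC : 0 ≤ C) (hM : 1 ≤ M) :
    1 ≤ A0 d a C M := by
  have h1 := c1_pos hd ha
  have h2 := c1_le_one hd ha ha1
  unfold A0
  rw [le_div_iff₀ (by positivity), one_mul]
  have h3 : c1 d a ^ 2 ≤ 1 := by nlinarith
  have h4 : (1 : ℝ) ≤ (K2 d : ℝ) + 1 := by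
    have : (0 : ℝ) ≤ (K2 d : ℝ) := Nat.cast_nonneg _
    linarith
  have h5 : 1 ≤ M ^ 2 := by nlinarith
  have h6 : 1 ≤ (12 * C + 2) ^ 2 := by nlinarith
  have h7 : 1 ≤ ((K2 d : ℝ) + 1) * M ^ 2 * (12 * C + 2) ^ 2 :=
    one_le_mul_of_one_le_of_one_le (one_le_mul_of_one_le_of_one_le h4 h5) h6
  nlinarith

lemma pp_spec (hs : Sm d a lam) :
    pp d lam ≠ 0 ∧ (pp d lam : ℝ) ≤ ((K2 d : ℝ) + 1) * ell lam ∧
      Real.exp (-(pp d lam : ℝ)) ≤ lam ^ (K2 d) := by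
  have h0 := hs.h0
  have hl := hs.hl
  have hK : (7 : ℝ) ≤ (K2 d : ℝ) := by unfold K2; push_cast; linarith [(Nat.cast_nonneg d : (0:ℝ) ≤ d)]
  refine ⟨?_, ?_, ?_⟩
  · unfold pp
    have : 0 < (K2 d : ℝ) * ell lam := by positivity
    exact (Nat.ceil_pos.2 this).ne'
  · unfold pp
    have := (Nat.ceil_lt_add_one (show 0 ≤ (K2 d : ℝ) * ell lam by positivity)).le
    linarith
  · have h1 := Nat.le_ceil ((K2 d : ℝ) * ell lam)
    calc Real.exp (-(pp d lam : ℝ)) ≤ Real.exp (-((K2 d : ℝ) * ell lam)) := by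
          apply Real.exp_le_exp.2
          unfold pp
          linarith
      _ = lam ^ (K2 d) := by
          unfold ell
          rw [one_div, Real.log_inv]
          rw [show -((K2 d : ℝ) * -Real.log lam) = Real.log lam * (K2 d : ℝ) by ring,
            ← Real.rpow_def_of_pos h0, Real.rpow_natCast]

lemma moment_le (hd : 0 < d) (ha : 0 < a) (hC : 0 ≤ C) (_hM : 1 ≤ M)
    (hs : Sm d a lam) (hη : 0 < η) (hA : A0 d a C M * (lam ^ 2 * ell lam ^ 3) ≤ η) :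
    64 * (pp d lam : ℝ) * M ^ 2 * WW C lam * (lam / (2 * kk d a C lam)) ^ 2 / η ≤
      Real.exp (-1) := by
  have h0 := hs.h0
  have hl := hs.hl
  have hc1 := c1_pos hd ha
  have hWW : 0 < WW C lam := by unfold WW; positivity
  have hsq : √(WW C lam) ^ 2 = WW C lam := Real.sq_sqrt hWW.le
  have hsq0 : 0 < √(WW C lam) := Real.sqrt_pos.2 hWW
  have e1 : (lam / (2 * kk d a C lam)) ^ 2 = 16 * WW C lam * lam ^ 2 / c1 d a ^ 2 := by
    unfold kk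
    rw [div_pow, mul_pow, div_pow, mul_pow, hsq]
    field_simp
    ring
  rw [e1]
  have h3 : (1 : ℝ) / 3 ≤ Real.exp (-1) := by
    rw [Real.exp_neg, one_div]
    have := Real.exp_one_lt_d9
    gcongr
    linarith
  refine le_trans ?_ h3
  have hp := (pp_spec hs).2.1
  have h4 : A0 d a C M * (lam ^ 2 * ell lam ^ 3) * c1 d a ^ 2 =
      3 * (64 * (((K2 d : ℝ) + 1) * ell lam) * M ^ 2 * WW C lam *
        (16 * WW C lam * lam ^ 2)) := by
    unfold A0 WW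
    field_simp
    ring
  have h5 : 64 * (pp d lam : ℝ) * M ^ 2 * WW C lam * (16 * WW C lam * lam ^ 2) ≤
      64 * (((K2 d : ℝ) + 1) * ell lam) * M ^ 2 * WW C lam * (16 * WW C lam * lam ^ 2) := by
    gcongr
  have h6 : A0 d a C M * (lam ^ 2 * ell lam ^ 3) * c1 d a ^ 2 ≤ η * c1 d a ^ 2 := by gcongr
  rw [mul_div_assoc', div_div, div_le_iff₀ (by positivity)]
  nlinarith

lemma prob_le (hd : 0 < d) (ha : 0 < a) (hC : 0 ≤ C) (hM : 1 ≤ M)
    (hs : Sm d a lam) (hη : 0 < η) (hη1 : η ≤ 1) (hη2 : lam ^ 2 ≤ η)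
    (hA : A0 d a C M * (lam ^ 2 * ell lam ^ 3) ≤ η) :
    (64 * (pp d lam : ℝ) * M ^ 2 * WW C lam * (lam / (2 * kk d a C lam)) ^ 2 / η) ^ (pp d lam) *
        ((2 * RR d lam η + 1 : ℕ) : ℝ) ^ d ≤ lam ^ (K2 d) * (lam⁻¹) ^ (4 * d) := by
  have h0 := hs.h0
  have hl := hs.hl
  have hWW : 0 < WW C lam := by unfold WW; positivity
  have h1 := moment_le hd ha hC hM hs hη hA
  have h2 : (64 * (pp d lam : ℝ) * M ^ 2 * WW C lam * (lam / (2 * kk d a C lam)) ^ 2 / η) ^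
      (pp d lam) ≤ lam ^ (K2 d) := by
    refine le_trans ?_ (pp_spec hs).2.2
    calc _ ≤ (Real.exp (-1)) ^ (pp d lam) := by
          gcongr
      _ = Real.exp (-(pp d lam : ℝ)) := by
          rw [← Real.exp_nat_mul]; congr 1; ring
  have h3 : ((2 * RR d lam η + 1 : ℕ) : ℝ) ^ d ≤ (lam⁻¹) ^ (4 * d) := by
    rw [pow_mul]
    gcongr
    exact RR_upper hs hη hη1 hη2
  gcongr

lemma Lam_le (hd : 0 < d) (ha : 0 < a) (hs : Sm d a lam) (hs6 : 2 * lam ≤ c1 d a)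
    (hη : 0 < η) (hη1 : η ≤ 1) (hη2 : lam ^ 2 ≤ η) :
    Lam d (RR d lam η) a η ≤ (2 * d + 1) * ell lam := by
  have h0 := hs.h0
  have hl := hs.hl
  have hc1 := c1_pos hd ha
  set L : ℝ := ((2 * RR d lam η + 1 : ℕ) : ℝ) ^ d with hL
  have hL0 : 0 < L := by positivity
  have hL1 : √L ≤ (lam⁻¹) ^ (2 * d) := sqrt_box_le hs hη hη1 hη2
  have h1 : 1 / √(c1 d a ^ 2 / (4 * η * L)) ≤ (lam⁻¹) ^ (2 * d + 1) := by
    have e1 : 1 / √(c1 d a ^ 2 / (4 * η * L)) = 2 * √η * √L / c1 d a := by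
      rw [Real.sqrt_div (by positivity), Real.sqrt_sq hc1.le, one_div_div,
        Real.sqrt_mul (by positivity), Real.sqrt_mul (by norm_num),
        show (4 : ℝ) = 2 ^ 2 by norm_num, Real.sqrt_sq (by norm_num)]
    rw [e1, div_le_iff₀ hc1]
    have h3 : √η ≤ 1 := by
      rw [Real.sqrt_le_left zero_le_one]; linarith
    calc 2 * √η * √L ≤ 2 * 1 * (lam⁻¹) ^ (2 * d) := by gcongr
      _ = (lam⁻¹) ^ (2 * d + 1) * (2 * lam) := by
          rw [pow_succ]; field_simp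
      _ ≤ (lam⁻¹) ^ (2 * d + 1) * c1 d a := by gcongr
  unfold Lam
  have h4 : posLog (1 / √(c1 d a ^ 2 / (4 * η * L))) ≤ posLog ((lam⁻¹) ^ (2 * d + 1)) :=
    Real.monotoneOn_posLog (mem_Ici.2 (by positivity)) (mem_Ici.2 (by positivity)) h1
  refine h4.trans (le_of_eq ?_)
  have h5 : (1 : ℝ) ≤ (lam⁻¹) ^ (2 * d + 1) := one_le_pow₀ ((one_le_inv₀ h0).2 hs.h1)
  rw [Real.posLog_eq_log (by rw [abs_of_nonneg (by positivity)]; exact h5), Real.log_pow]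
  unfold ell
  rw [one_div]
  push_cast
  ring

lemma C2_le (hlam : 0 < lam) (hlam1 : lam ≤ 1) :
    (C2 M lam K).toReal ≤ 2 * (C1 M K).toReal * lam⁻¹ := by
  unfold C2
  rw [ENNReal.toReal_mul]
  have h1 : (ENNReal.ofReal (2 / lam)) ^ (1/4 : ℝ) ≤ ENNReal.ofReal (2 / lam) := by
    have h2 : (1 : ℝ) ≤ 2 / lam := by
      rw [le_div_iff₀ hlam]; linarith
    exact rpow_half_le h2 (by norm_num) (by norm_num)
  have h3 : ((ENNReal.ofReal (2 / lam)) ^ (1/4 : ℝ)).toReal ≤ 2 / lam :=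
    ENNReal.toReal_le_of_le_ofReal (by positivity) h1
  calc (C1 M K).toReal * ((ENNReal.ofReal (2 / lam)) ^ (1/4 : ℝ)).toReal
      ≤ (C1 M K).toReal * (2 / lam) := by gcongr
    _ = _ := by ring

lemma cP_nonneg (hM : 1 ≤ M) (hZ : 1 ≤ Z) : 0 ≤ cP d M Z K := by
  have h1 := q1_ge (d := d) hM hZ
  have h2 := B0_ge (d := d) hM hZ
  have h3 := q4_ge (d := d) (K := K) hM hZ
  unfold cP
  positivity

lemma PN_eq : PN d M Z K ((lam⁻¹) ^ 2) = cP d M Z K * (lam⁻¹) ^ (24 * d + 2) := by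
  unfold PN cP
  rw [mul_pow, ← pow_mul, ← pow_mul]
  rw [show 24 * d + 2 = 2 * (6 * (2 * d)) + 2 by ring, pow_add]
  ring

/-- The bound for the second moment in terms of the disorder. -/
lemma Q2_le (hM : 1 ≤ M) (hZ : 1 ≤ Z) (hlam : 0 < lam) (hlam1 : lam ≤ 1) {s : ℝ} (hs0 : 0 ≤ s)
    (hs : s ≤ (lam⁻¹) ^ 2)
    (h5 : 128 * (1 + cP d M Z K + 2 * (C1 M K).toReal) * lam ≤ 1) :
    128 * s ^ 2 * (1 + PN d M Z K ((lam⁻¹) ^ 2) + (C2 M lam K).toReal) ≤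
      (lam⁻¹) ^ (24 * d + 7) := by
  have h1 : (1 : ℝ) ≤ lam⁻¹ := (one_le_inv₀ hlam).2 hlam1
  have hcP := cP_nonneg (d := d) (K := K) hM hZ
  have hC2 := C2_le (M := M) (K := K) hlam hlam1
  have hC1 : 0 ≤ (C1 M K).toReal := ENNReal.toReal_nonneg
  have h2 : 1 + PN d M Z K ((lam⁻¹) ^ 2) + (C2 M lam K).toReal ≤
      (1 + cP d M Z K + 2 * (C1 M K).toReal) * (lam⁻¹) ^ (24 * d + 2) := by
    rw [PN_eq]
    have h3 : lam⁻¹ ≤ (lam⁻¹) ^ (24 * d + 2) := le_self_pow₀ h1 (by omega)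
    have h4 : (1 : ℝ) ≤ (lam⁻¹) ^ (24 * d + 2) := one_le_pow₀ h1
    nlinarith
  have h3 : 0 ≤ 1 + PN d M Z K ((lam⁻¹) ^ 2) + (C2 M lam K).toReal := by
    have := PN_nonneg (d := d) (K := K) hM hZ (one_le_pow₀ h1 : 1 ≤ (lam⁻¹) ^ 2)
    have := (ENNReal.toReal_nonneg : 0 ≤ (C2 M lam K).toReal)
    positivity
  calc 128 * s ^ 2 * (1 + PN d M Z K ((lam⁻¹) ^ 2) + (C2 M lam K).toReal)
      ≤ 128 * ((lam⁻¹) ^ 2) ^ 2 *
        ((1 + cP d M Z K + 2 * (C1 M K).toReal) * (lam⁻¹) ^ (24 * d + 2)) := by gcongr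
    _ = 128 * (1 + cP d M Z K + 2 * (C1 M K).toReal) * (lam * lam⁻¹) * (lam⁻¹) ^ (24 * d + 6) := by
        rw [mul_inv_cancel₀ hlam.ne', show 24 * d + 6 = 24 * d + 2 + 4 by ring,
          pow_add (lam⁻¹) (24 * d + 2) 4]
        ring
    _ = (128 * (1 + cP d M Z K + 2 * (C1 M K).toReal) * lam) * (lam⁻¹) ^ (24 * d + 7) := by
        rw [show 24 * d + 7 = 24 * d + 6 + 1 by ring, pow_succ (lam⁻¹) (24 * d + 6)]
        ring
    _ ≤ 1 * (lam⁻¹) ^ (24 * d + 7) := by gcongr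
    _ = _ := one_mul _

lemma inv_pow_mul_pow (hlam : 0 < lam) (m n : ℕ) (h : m ≤ n) :
    (lam⁻¹) ^ m * lam ^ n = lam ^ (n - m) := by
  obtain ⟨k, rfl⟩ := Nat.exists_eq_add_of_le h
  rw [pow_add, Nat.add_sub_cancel_left, inv_pow]
  field_simp

lemma Dcost_le (hlam : 0 < lam) (hlam1 : lam ≤ 1) (hl : 1 ≤ ell lam) (hM : 1 ≤ M) (hZ : 1 ≤ Z)
    (h5 : 128 * (1 + cP d M Z K + 2 * (C1 M K).toReal) * lam ≤ 1) {N Q : ℝ} (hN0 : 0 ≤ N)
    (hN : N ≤ (lam⁻¹) ^ (4 * d)) (hQ0 : 0 ≤ Q) (hQ : Q ≤ (lam⁻¹) ^ (24 * d + 7)) :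
    Dcost M lam K N ((2 * d + 1) * ell lam) (lam ^ (K2 d) * (lam⁻¹) ^ (4 * d)) (lam ^ (K1 d)) Q ≤
      (34 * d + 10) * ell lam := by
  have h1 : (1 : ℝ) ≤ lam⁻¹ := (one_le_inv₀ hlam).2 hlam1
  have hcP := cP_nonneg (d := d) (K := K) hM hZ
  have hC2 := C2_le (M := M) (K := K) hlam hlam1
  have hC1 : 0 ≤ (C1 M K).toReal := ENNReal.toReal_nonneg
  have hC20 : 0 ≤ (C2 M lam K).toReal := ENNReal.toReal_nonneg
  unfold Dcost
  have e1 : lam ^ (K2 d) * (lam⁻¹) ^ (4 * d) / lam ^ (K1 d) = lam ^ (4 * d) := by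
    rw [show K2 d = K1 d + 4 * d + 4 * d by unfold K1 K2; ring, pow_add, pow_add, inv_pow]
    field_simp
  have e2 : N * (1 / 2 * (lam ^ (K2 d) * (lam⁻¹) ^ (4 * d) / lam ^ (K1 d) + lam ^ (K1 d) * Q)) ≤
      1 := by
    rw [e1]
    have h2 : lam ^ (K1 d) * Q ≤ lam ^ (4 * d) := by
      calc lam ^ (K1 d) * Q ≤ lam ^ (K1 d) * (lam⁻¹) ^ (24 * d + 7) := by gcongr
        _ = lam ^ (4 * d) := by
            rw [mul_comm, inv_pow_mul_pow hlam _ _ (by unfold K1; omega)]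
            congr 1
            unfold K1; omega
    calc N * (1 / 2 * (lam ^ (4 * d) + lam ^ (K1 d) * Q))
        ≤ (lam⁻¹) ^ (4 * d) * (1 / 2 * (lam ^ (4 * d) + lam ^ (4 * d))) := by gcongr
      _ = (lam⁻¹) ^ (4 * d) * lam ^ (4 * d) := by ring
      _ = 1 := by rw [inv_pow_mul_pow hlam _ _ le_rfl]; simp
  have e3 : 4 * Real.log (1 + N * N * (C2 M lam K).toReal) ≤ 4 * ((8 * d + 2) * ell lam) := by
    have h3 : 1 + N * N * (C2 M lam K).toReal ≤ (lam⁻¹) ^ (8 * d + 2) := by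
      calc 1 + N * N * (C2 M lam K).toReal
          ≤ (lam⁻¹) ^ (8 * d + 1) + (lam⁻¹) ^ (4 * d) * (lam⁻¹) ^ (4 * d) *
            (2 * (C1 M K).toReal * lam⁻¹) := by
            gcongr
            exact one_le_pow₀ h1
        _ = (1 + 2 * (C1 M K).toReal) * (lam⁻¹) ^ (8 * d + 1) := by
            rw [show 8 * d + 1 = 4 * d + 4 * d + 1 by ring, pow_add, pow_add]
            ring
        _ = ((1 + 2 * (C1 M K).toReal) * lam) * (lam⁻¹) ^ (8 * d + 2) := by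
            rw [show 8 * d + 2 = 8 * d + 1 + 1 by ring, pow_succ (lam⁻¹) (8 * d + 1)]
            field_simp
        _ ≤ 1 * (lam⁻¹) ^ (8 * d + 2) := by
            gcongr
            nlinarith [mul_nonneg hcP hlam.le, mul_nonneg hC1 hlam.le]
        _ = _ := one_mul _
    have h4 : Real.log (1 + N * N * (C2 M lam K).toReal) ≤ Real.log ((lam⁻¹) ^ (8 * d + 2)) :=
      Real.log_le_log (by positivity) h3
    rw [Real.log_pow] at h4
    unfold ell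
    rw [one_div]
    push_cast at h4
    linarith
  nlinarith

end Pool.Agent.Helper3.Weak
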