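import Pool.Agent.Helper3.Weak.Count
import Pool.Agent.Helper2.AM.Resolv

/-!
# Shifting the modes, and the mass of the free Green function away from a hyperplane
-/

open Finset Real Matrix

noncomputable section

namespace Pool.Agent.Helper3.Weak

open Pool.Agent.Helper2.AM

variable {d : ℕ}

lemma th_sub (L : ℕ) [NeZero L] (k m : Fin L) :
    ∃ t : ℤ, th L (k - m) = th L k - 2 * π * (m : ℕ) / L + 2 * π * t := by
  have hL : (L : ℝ) ≠ 0 := by exact_mod_cast NeZero.ne L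
  have h1 : ((k - m : Fin L) : ℕ) = (L - m + k) % L := by rw [Fin.sub_def]
  have h2 := Nat.div_add_mod (L - m + k) L
  obtain ⟨Q, hQ⟩ : ∃ Q : ℕ, Q = (L - m + k) / L := ⟨_, rfl⟩
  rw [← hQ] at h2
  have h3 : ((k - m : Fin L) : ℕ) + L * Q + m = L + k := by
    rw [h1]; have := m.2; omega
  have h4 : (((k - m : Fin L) : ℕ) : ℝ) = L + (k : ℕ) - (m : ℕ) - L * (Q : ℝ) := by
    have : ((((k - m : Fin L) : ℕ) + L * Q + m : ℕ) : ℝ) = ((L + k : ℕ) : ℝ) := by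
      exact_mod_cast h3
    push_cast at this ⊢
    linarith
  refine ⟨1 - (Q : ℤ), ?_⟩
  unfold th
  rw [h4]
  push_cast
  field_simp
  ring

lemma ph1_sub (L : ℕ) [NeZero L] (y : ℤ) (k m : Fin L) :
    ph1 L y (k - m) = Complex.exp ((2 * π * (m : ℕ) / L * y : ℝ) * Complex.I) * ph1 L y k := by
  obtain ⟨t, ht⟩ := th_sub L k m
  unfold ph1
  rw [ht, ← Complex.exp_add]
  rw [Complex.exp_eq_exp_iff_exists_int]
  refine ⟨-(t * y), ?_⟩
  push_cast
  ring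

lemma ph_sub (L : ℕ) [NeZero L] (y : Fin d → ℤ) (j : Fin d) (k : Fin d → Fin L) (m : Fin L) :
    ph L y (k - Pi.single j m) =
      Complex.exp ((2 * π * (m : ℕ) / L * y j : ℝ) * Complex.I) * ph L y k := by
  unfold ph
  rw [← Finset.mul_prod_erase univ _ (mem_univ j), ← Finset.mul_prod_erase univ
    (fun j => ph1 L (y j) (k j)) (mem_univ j), Pi.sub_apply, Pi.single_eq_same, ph1_sub, mul_assoc]
  congr 2
  refine Finset.prod_congr rfl fun i hi => ?_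
  rw [Pi.sub_apply, Pi.single_eq_of_ne (Finset.ne_of_mem_erase hi), sub_zero]

/-- Modulation of a vector. -/
def modu (R : ℕ) (j : Fin d) (q : ℝ) (ψ : (Fin d → Fin (2 * R + 1)) → ℂ) :
    (Fin d → Fin (2 * R + 1)) → ℂ :=
  fun x => Complex.exp ((q * (pos R x j : ℤ) : ℝ) * Complex.I) * ψ x

/-- Shift of the modes in the direction `j`. -/
def shm {R : ℕ} (j : Fin d) (m : Fin (2 * R + 1)) (k : Fin d → Fin (2 * R + 1)) :
    Fin d → Fin (2 * R + 1) := k - Pi.single j m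

lemma Bm_modu (R : ℕ) (j : Fin d) (m : Fin (2 * R + 1))
    (ψ : (Fin d → Fin (2 * R + 1)) → ℂ) (k : Fin d → Fin (2 * R + 1)) :
    (Bm d R *ᵥ modu R j (2 * π * (m : ℕ) / (2 * R + 1 : ℕ)) ψ) k =
      (Bm d R *ᵥ ψ) (shm j m k) := by
  unfold shm
  simp only [mulVec, dotProduct, Bm, of_apply, bv, modu]
  refine Finset.sum_congr rfl fun x _ => ?_
  rw [ph_sub]
  ring

lemma modu_norm (R : ℕ) (j : Fin d) (q : ℝ) (ψ : (Fin d → Fin (2 * R + 1)) → ℂ)
    (x : Fin d → Fin (2 * R + 1)) : ‖modu R j q ψ x‖ = ‖ψ x‖ := by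
  unfold modu
  rw [norm_mul, Complex.norm_exp_ofReal_mul_I, one_mul]

lemma nr_modu (R : ℕ) (j : Fin d) (q : ℝ) (ψ : (Fin d → Fin (2 * R + 1)) → ℂ) :
    nr (modu R j q ψ) = nr ψ := by
  have : nr (modu R j q ψ) ^ 2 = nr ψ ^ 2 := by
    rw [nr_sq, nr_sq]
    unfold nsq
    exact Finset.sum_congr rfl fun x _ => by rw [modu_norm]
  exact (pow_left_inj₀ (nr_nonneg _) (nr_nonneg _) two_ne_zero).1 this

lemma nr_Bm (d R : ℕ) (c : (Fin d → Fin (2 * R + 1)) → ℂ) : nr (Bm d R *ᵥ c) = nr c := by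
  have : nr (Bm d R *ᵥ c) ^ 2 = nr c ^ 2 := by rw [nr_sq, nr_sq, nsq_Bm]
  exact (pow_left_inj₀ (nr_nonneg _) (nr_nonneg _) two_ne_zero).1 this

/-- The mass outside the slab `|x_j| < s`. -/
lemma modu_mass (R : ℕ) (j : Fin d) (q s : ℝ) (hq : 0 ≤ q)
    (ψ : (Fin d → Fin (2 * R + 1)) → ℂ) :
    nr (modu R j q ψ - ψ) ^ 2 ≤ (q * s) ^ 2 * nr ψ ^ 2 +
      4 * ∑ x, (if s ≤ |((pos R x j : ℤ) : ℝ)| then ‖ψ x‖ ^ 2 else 0) := by
  rw [nr_sq, nr_sq]
  unfold nsq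
  rw [Finset.mul_sum, Finset.mul_sum, ← Finset.sum_add_distrib]
  refine Finset.sum_le_sum fun x _ => ?_
  have h1 : (modu R j q ψ - ψ) x =
      (Complex.exp ((q * (pos R x j : ℤ) : ℝ) * Complex.I) - 1) * ψ x := by
    rw [Pi.sub_apply, modu]; ring
  rw [h1, norm_mul, mul_pow]
  have h2 : ‖Complex.exp ((q * (pos R x j : ℤ) : ℝ) * Complex.I) - 1‖ ≤ 2 := by
    refine (norm_sub_le _ _).trans ?_
    rw [Complex.norm_exp_ofReal_mul_I, norm_one]; norm_num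
  have h3 : ‖Complex.exp ((q * (pos R x j : ℤ) : ℝ) * Complex.I) - 1‖ ≤
      |q * ((pos R x j : ℤ) : ℝ)| := by
    have := Real.norm_exp_I_mul_ofReal_sub_one_le (x := q * ((pos R x j : ℤ) : ℝ))
    rw [mul_comm] at this
    simpa using this
  split_ifs with hx
  · have h4 : ‖Complex.exp ((q * (pos R x j : ℤ) : ℝ) * Complex.I) - 1‖ ^ 2 ≤ 4 := by
      have := pow_le_pow_left₀ (norm_nonneg _) h2 2
      linarith
    have h5 : 0 ≤ (q * s) ^ 2 * ‖ψ x‖ ^ 2 := by positivity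
    have h6 := mul_le_mul_of_nonneg_right h4 (sq_nonneg ‖ψ x‖)
    linarith
  · push Not at hx
    have h4 : |q * ((pos R x j : ℤ) : ℝ)| ≤ q * s := by
      rw [abs_mul, abs_of_nonneg hq]
      exact mul_le_mul_of_nonneg_left hx.le hq
    have h5 := pow_le_pow_left₀ (norm_nonneg _) (h3.trans h4) 2
    have h6 := mul_le_mul_of_nonneg_right h5 (sq_nonneg ‖ψ x‖)
    linarith

end Pool.Agent.Helper3.Weak
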