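import Pool.Agent.Helper3.Weak.Compare
import Pool.Agent.Helper3.Anderson.CT

/-!
# Truncated Green functions
-/

open Finset Real Matrix

noncomputable section

namespace Pool.Agent.Helper3.Weak

open Pool.Agent.Helper2.AM

variable {d : ℕ}

open Classical in
/-- truncation to the box of radius `R - 1` -/
def tg (R : ℕ) (ψ : (Fin d → ℤ) → ℂ) (x : Fin d → ℤ) : ℂ :=
  if ∀ j, |x j| ≤ (R : ℤ) - 1 then ψ x else 0

lemma tg_sup (R : ℕ) (ψ : (Fin d → ℤ) → ℂ) : Sup ((R : ℤ) - 1) (tg R ψ) := by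
  intro y hy
  by_contra h
  exact hy (if_neg h)

lemma single_abs_le (j i : Fin d) (e : ℤ) (he : |e| ≤ 1) :
    |(Pi.single j e : Fin d → ℤ) i| ≤ 1 := by
  by_cases hij : i = j
  · subst hij; rw [Pi.single_eq_same]; exact he
  · rw [Pi.single_eq_of_ne hij]; simp

/-- the value at a neighbour -/
lemma tg_nbr_in (R : ℕ) (ψ : (Fin d → ℤ) → ℂ) (B : ℝ) (hB0 : 0 ≤ B)
    (hB : ∀ x : Fin d → ℤ, (∃ j, (R : ℤ) - 1 ≤ |x j|) → ‖ψ x‖ ≤ B) (y : Fin d → ℤ) :
    ‖ψ y - tg R ψ y‖ ≤ B := by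
  unfold tg
  split_ifs with h
  · simpa using hB0
  · rw [sub_zero]
    push Not at h
    obtain ⟨j, hj⟩ := h
    exact hB y ⟨j, hj.le⟩

lemma tg_nbr_out (R : ℕ) (ψ : (Fin d → ℤ) → ℂ) (B : ℝ) (hB0 : 0 ≤ B)
    (hB : ∀ x : Fin d → ℤ, (∃ j, (R : ℤ) - 1 ≤ |x j|) → ‖ψ x‖ ≤ B) (x : Fin d → ℤ)
    (hx : ¬ ∀ j, |x j| ≤ (R : ℤ) - 1) (j : Fin d) (e : ℤ) (he : |e| ≤ 1) :
    ‖tg R ψ (x + Pi.single j e)‖ ≤ B := by
  unfold tg
  split_ifs with h
  · push Not at hx
    obtain ⟨i, hi⟩ := hx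
    apply hB
    refine ⟨i, ?_⟩
    have h1 := single_abs_le j i e he
    have h2 : |x i| ≤ |(x + Pi.single j e : Fin d → ℤ) i| + |(Pi.single j e : Fin d → ℤ) i| := by
      have h3 : (x + Pi.single j e : Fin d → ℤ) i - (Pi.single j e : Fin d → ℤ) i = x i := by
        rw [Pi.add_apply]; ring
      have h4 := abs_sub ((x + Pi.single j e : Fin d → ℤ) i) ((Pi.single j e : Fin d → ℤ) i)
      rw [h3] at h4
      exact h4
    omega
  · simpa using hB0

lemma tg_defect (R : ℕ) (hR : 1 ≤ R) (V : (Fin d → ℤ) → ℝ) (z : ℂ) (ψ : (Fin d → ℤ) → ℂ) (B : ℝ)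
    (hB0 : 0 ≤ B) (hB : ∀ x : Fin d → ℤ, (∃ j, (R : ℤ) - 1 ≤ |x j|) → ‖ψ x‖ ≤ B)
    (hψ : ∀ x, schr V ψ x - z * ψ x = if x = 0 then 1 else 0) (x : Fin d → ℤ) :
    ‖schr V (tg R ψ) x - z * tg R ψ x - (if x = 0 then 1 else 0)‖ ≤ 2 * d * B := by
  by_cases hx : ∀ j, |x j| ≤ (R : ℤ) - 1
  · have h1 : tg R ψ x = ψ x := if_pos hx
    have h2 : schr V (tg R ψ) x - z * tg R ψ x - (if x = 0 then 1 else 0) =
        ∑ j : Fin d, ((ψ (x + Pi.single j 1) - tg R ψ (x + Pi.single j 1)) +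
          (ψ (x - Pi.single j 1) - tg R ψ (x - Pi.single j 1))) := by
      rw [← hψ x]
      unfold schr
      rw [h1]
      have : ∑ j : Fin d, ((ψ (x + Pi.single j 1) - tg R ψ (x + Pi.single j 1)) +
          (ψ (x - Pi.single j 1) - tg R ψ (x - Pi.single j 1))) =
          ∑ j : Fin d, (2 * ψ x - tg R ψ (x + Pi.single j 1) - tg R ψ (x - Pi.single j 1)) -
          ∑ j : Fin d, (2 * ψ x - ψ (x + Pi.single j 1) - ψ (x - Pi.single j 1)) := by
        rw [← Finset.sum_sub_distrib]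
        exact Finset.sum_congr rfl fun j _ => by ring
      rw [this]
      ring
    rw [h2]
    refine (norm_sum_le _ _).trans ?_
    refine (Finset.sum_le_sum (g := fun _ => 2 * B) fun j _ => ?_).trans (le_of_eq ?_)
    · refine (norm_add_le _ _).trans ?_
      have h3 := tg_nbr_in R ψ B hB0 hB (x + Pi.single j 1)
      have h4 := tg_nbr_in R ψ B hB0 hB (x - Pi.single j 1)
      linarith
    · rw [Finset.sum_const, card_univ, Fintype.card_fin, nsmul_eq_mul]; ring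
  · have h1 : tg R ψ x = 0 := if_neg hx
    have h0 : x ≠ 0 := by
      rintro rfl
      apply hx
      intro j
      simp only [Pi.zero_apply, abs_zero]
      omega
    have h2 : schr V (tg R ψ) x - z * tg R ψ x - (if x = 0 then 1 else 0) =
        ∑ j : Fin d, (-(tg R ψ (x + Pi.single j 1)) - tg R ψ (x + Pi.single j (-1))) := by
      rw [if_neg h0]
      unfold schr
      rw [h1]
      simp only [mul_zero, zero_sub, add_zero, sub_zero]
      refine Finset.sum_congr rfl fun j _ => ?_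
      rw [Pi.single_neg, sub_eq_add_neg x]
    rw [h2]
    refine (norm_sum_le _ _).trans ?_
    refine (Finset.sum_le_sum (g := fun _ => 2 * B) fun j _ => ?_).trans (le_of_eq ?_)
    · refine (norm_sub_le _ _).trans ?_
      rw [norm_neg]
      have h3 := tg_nbr_out R ψ B hB0 hB x hx j 1 (by simp)
      have h4 := tg_nbr_out R ψ B hB0 hB x hx j (-1) (by simp)
      linarith
    · rw [Finset.sum_const, card_univ, Fintype.card_fin, nsmul_eq_mul]; ring

/-- the defect on the box -/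
def dfc (R : ℕ) (V : (Fin d → ℤ) → ℝ) (z : ℂ) (ψ : (Fin d → ℤ) → ℂ)
    (x : Fin d → Fin (2 * R + 1)) : ℂ :=
  schr V (tg R ψ) (pos R x) - z * tg R ψ (pos R x) - d0 R x

lemma nr_dfc (R : ℕ) (hR : 1 ≤ R) (V : (Fin d → ℤ) → ℝ) (z : ℂ) (ψ : (Fin d → ℤ) → ℂ) (B : ℝ)
    (hB0 : 0 ≤ B) (hB : ∀ x : Fin d → ℤ, (∃ j, (R : ℤ) - 1 ≤ |x j|) → ‖ψ x‖ ≤ B)
    (hψ : ∀ x, schr V ψ x - z * ψ x = if x = 0 then 1 else 0) :
    nr (dfc R V z ψ) ≤ √(((2 * R + 1 : ℕ) : ℝ) ^ d) * (2 * d * B) := by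
  apply le_of_sq_le_sq _ (by positivity)
  rw [nr_sq, mul_pow, sq_sqrt (by positivity)]
  unfold nsq
  calc ∑ x : Fin d → Fin (2 * R + 1), ‖dfc R V z ψ x‖ ^ 2
      ≤ ∑ _x : Fin d → Fin (2 * R + 1), (2 * d * B) ^ 2 := by
        refine Finset.sum_le_sum fun x _ => ?_
        have := tg_defect R hR V z ψ B hB0 hB hψ (pos R x)
        exact pow_le_pow_left₀ (norm_nonneg _) this 2
    _ = _ := by
        rw [Finset.sum_const, card_univ, nsmul_eq_mul]
        simp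

open Pool.Agent.Helper3.Anderson in
/-- the Green function solves the equation in the form used here -/
lemma green_schr (V : (Fin d → ℤ) → ℝ) (hV : Bdd V) {z : ℂ} (hz0 : 0 < z.im) (x y : Fin d → ℤ) :
    Pool.Agent.Helper2.AM.schr V (fun w => green V z w y) x - z * green V z x y =
      if x = y then 1 else 0 := by
  rw [← green_equation V hV hz0 x y]
  unfold Pool.Agent.Helper2.AM.schr lap
  have : ∑ j : Fin d, (2 * green V z x y - green V z (x + Pi.single j 1) y -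
      green V z (x - Pi.single j 1) y) =
      -∑ j : Fin d, ((green V z (x + Pi.single j 1) y - green V z x y) +
        (green V z (x - Pi.single j 1) y - green V z x y)) := by
    rw [← Finset.sum_neg_distrib]
    exact Finset.sum_congr rfl fun j _ => by ring
  rw [this]

open Pool.Agent.Helper3.Anderson in
/-- decay of the Green function outside the box -/
lemma green_far (V : (Fin d → ℤ) → ℝ) (hV : Bdd V) {z : ℂ} (hz0 : 0 < z.im) (R : ℕ) (hR : 1 ≤ R)
    (x : Fin d → ℤ) (hx : ∃ j, (R : ℤ) - 1 ≤ |x j|) :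
    ‖green V z x 0‖ ≤ 2 / z.im * Real.exp (-(Real.log (1 + z.im / 4) * ((R : ℝ) - 1))) := by
  obtain ⟨j, hj⟩ := hx
  refine (combes_thomas V hV hz0 j x 0).trans ?_
  have h1 : 0 ≤ Real.log (1 + z.im / 4) := Real.log_nonneg (by linarith)
  have h2 : (R : ℝ) - 1 ≤ |((x j - (0 : Fin d → ℤ) j : ℤ) : ℝ)| := by
    rw [Pi.zero_apply, sub_zero]
    have : ((R : ℤ) - 1 : ℝ) ≤ ((|x j| : ℤ) : ℝ) := by exact_mod_cast hj
    rw [Int.cast_abs] at this
    exact_mod_cast this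
  gcongr

end Pool.Agent.Helper3.Weak
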